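import Pool.Agent.Lib.MP_464db4_gt.KW.Defs

/-!
# KW-Ker: the kernels

`B = max 2 (2 Λ)` (or larger), `R = 1/(B - 1) ≤ 1`, `τ = τ(q) = log ((q+1)/(B q))` (decreasing in `q > 0`, `τ > 0` iff `q < R`), `τ' = -1/(q(q+1))`, `e^(-τ) = B q/(q+1)`.
`h τ = 2 τ - 6 + (τ² + 4 τ + 6) e^(-τ)` for `τ > 0`, `h τ = 0` for `τ ≤ 0`: `h' = 2 - (τ²+2τ+2) e^(-τ)`, `h'' = τ² e^(-τ)` for `τ > 0`, all zero for `τ ≤ 0`; `h(0) = h'(0) = h''(0) = 0`, `h` is `C²`, with
`0 ≤ h'' ≤ 1`, `0 ≤ h' ≤ min 2 τ`, `0 ≤ h ≤ min (2τ) (τ²/2)` for `τ ≥ 0`, and `h > 0`, `h' > 0` for `τ > 0`.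
`ν q = h (τ q)`, `κ q = B (max τ 0)² / (q+1)²` for all `q` (at `q = 0` the formula gives `log 0 = 0`, so `ν 0 = κ 0 = 0`).
* `ν' = -h'(τ)/(q(q+1))`, `ν'' = h''(τ)/(q(q+1))² + (2q+1) h'(τ)/(q(q+1))²`, so `q(q+1)ν'' + (2q+1)ν' = h''(τ)/(q(q+1)) = τ² e^(-τ)/(q(q+1)) = B τ²/(q+1)²` (`τ > 0`), and `0` for `τ ≤ 0`: this is `κ`.
* `Λ ν ≤ Λ τ²/2 ≤ B τ²/4 ≤ κ` for `τ > 0`, as `(q+1)² ≤ 4` for `q ≤ R ≤ 1`.
* bounds, for `0 < q < R ≤ 1` (everything vanishes for `q ≥ R`): `0 < τ ≤ log (2/q)`-type bounds: `τ ≤ 8 (2/q)^(1/8)` (`Real.log_le_rpow_div` or `Real.add_one_le_exp`), so `ν ≤ 2τ ≤ C q^(-1/4)`,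
  `κ ≤ B τ² ≤ C q^(-1/4)`; `|ν'| ≤ 2/q` and `≤ 2 q^(-5/4)`; `|ν''| ≤ (1 + 3·2)/q²`; `κ' = -2Bτ/(q(q+1)³) - 2Bτ²/(q+1)³` for `τ > 0` (and `0` for `τ ≤ 0`, also at `τ = 0`),
  `|κ'| ≤ 2Bτ/q + 2Bτ² ≤ C q^(-5/4)`.
* smoothness: `h` is `C²` and `s ↦ (max s 0)²` is `C¹` on `ℝ`, `τ` is smooth on `(0, ∞)`.
* `posN`, `posK`: `r = R`.
It may be convenient to prove first private lemmas about `h` (`HasDerivAt h (h' τ) τ`, `HasDerivAt h' (h'' τ) τ` for all real `τ`, `h''` continuous).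
-/

namespace KW

open Complex MeasureTheory Set Filter Topology
open scoped ContDiff

private noncomputable def kerH (m : ℝ) : ℝ := 2 * m - 6 + (m ^ 2 + 4 * m + 6) * Real.exp (-m)

private noncomputable def kerH1 (m : ℝ) : ℝ := 2 - (m ^ 2 + 2 * m + 2) * Real.exp (-m)

private noncomputable def kerH2 (m : ℝ) : ℝ := m ^ 2 * Real.exp (-m)

private theorem ker_exp (m : ℝ) : HasDerivAt (fun m : ℝ => Real.exp (-m)) (-Real.exp (-m)) m := by
  simpa using (hasDerivAt_neg m).exp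

private theorem kerH_deriv (m : ℝ) : HasDerivAt kerH (kerH1 m) m := by
  have h2 : HasDerivAt (fun m : ℝ => m ^ 2 + 4 * m + 6) (2 * m + 4) m := by
    simpa using! (((hasDerivAt_pow 2 m).add ((hasDerivAt_id m).const_mul 4)).add_const 6)
  have h3 : HasDerivAt (fun m : ℝ => 2 * m - 6) 2 m := by
    simpa using! (((hasDerivAt_id m).const_mul 2).sub_const 6)
  exact (h3.add (h2.mul (ker_exp m))).congr_deriv (by unfold kerH1; ring)

private theorem kerH1_deriv (m : ℝ) : HasDerivAt kerH1 (kerH2 m) m := by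
  have h2 : HasDerivAt (fun m : ℝ => m ^ 2 + 2 * m + 2) (2 * m + 2) m := by
    simpa using! (((hasDerivAt_pow 2 m).add ((hasDerivAt_id m).const_mul 2)).add_const 2)
  exact ((h2.mul (ker_exp m)).const_sub 2).congr_deriv (by unfold kerH2; ring)

private theorem ker_sq_deriv (m : ℝ) : HasDerivAt (fun m : ℝ => m ^ 2) (2 * m) m := by
  simpa using hasDerivAt_pow 2 m

private theorem ker_nonneg {f f' : ℝ → ℝ} (h : ∀ x, HasDerivAt f (f' x) x) (h0 : f 0 = 0) (hp : ∀ x, 0 ≤ x → 0 ≤ f' x)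
    {x : ℝ} (hx : 0 ≤ x) : 0 ≤ f x := by
  have hm : MonotoneOn f (Ici 0) := by
    refine monotoneOn_of_deriv_nonneg (convex_Ici 0) (fun y _ => (h y).continuousAt.continuousWithinAt)
      (fun y _ => (h y).differentiableAt.differentiableWithinAt) fun y hy => ?_
    rw [interior_Ici] at hy
    rw [(h y).deriv]
    exact hp y (le_of_lt hy)
  have h1 := hm (mem_Ici.2 le_rfl) (mem_Ici.2 hx) hx
  rwa [h0] at h1

private theorem ker_pos {f f' : ℝ → ℝ} (h : ∀ x, HasDerivAt f (f' x) x) (h0 : f 0 = 0) (hp : ∀ x, 0 < x → 0 < f' x)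
    {x : ℝ} (hx : 0 < x) : 0 < f x := by
  have hm : StrictMonoOn f (Ici 0) := by
    refine strictMonoOn_of_deriv_pos (convex_Ici 0) (fun y _ => (h y).continuousAt.continuousWithinAt) fun y hy => ?_
    rw [interior_Ici] at hy
    rw [(h y).deriv]
    exact hp y hy
  have h1 := hm (mem_Ici.2 le_rfl) (mem_Ici.2 hx.le) hx
  rwa [h0] at h1

private theorem kerH_zero : kerH 0 = 0 := by simp [kerH]

private theorem kerH1_zero : kerH1 0 = 0 := by simp [kerH1]

private theorem kerH2_zero : kerH2 0 = 0 := by simp [kerH2]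

private theorem kerH2_nonneg (m : ℝ) : 0 ≤ kerH2 m := by unfold kerH2; positivity

private theorem kerH2_le {m : ℝ} (hm : 0 ≤ m) : kerH2 m ≤ 1 := by
  have h1 : m ^ 2 ≤ Real.exp m := by
    have h2 := Real.sum_le_exp_of_nonneg hm 4
    simp only [Finset.sum_range_succ, Finset.sum_range_zero, Nat.factorial] at h2
    norm_num at h2
    nlinarith [sq_nonneg (m - 1), mul_nonneg hm (sq_nonneg (m - 3 / 2))]
  unfold kerH2
  rw [Real.exp_neg, ← div_eq_mul_inv, div_le_one (Real.exp_pos m)]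
  exact h1

private theorem kerH1_nonneg {m : ℝ} (hm : 0 ≤ m) : 0 ≤ kerH1 m :=
  ker_nonneg kerH1_deriv kerH1_zero (fun x _ => kerH2_nonneg x) hm

private theorem kerH1_pos {m : ℝ} (hm : 0 < m) : 0 < kerH1 m :=
  ker_pos kerH1_deriv kerH1_zero (fun x hx => by unfold kerH2; positivity) hm

private theorem kerH1_le {m : ℝ} (hm : 0 ≤ m) : kerH1 m ≤ 2 := by
  unfold kerH1
  have : 0 ≤ (m ^ 2 + 2 * m + 2) * Real.exp (-m) := by positivity
  linarith

private theorem kerH1_le_self {m : ℝ} (hm : 0 ≤ m) : kerH1 m ≤ m := by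
  have h := ker_nonneg (f := fun x => x - kerH1 x) (f' := fun x => 1 - kerH2 x) (fun x => (hasDerivAt_id x).sub (kerH1_deriv x))
    (by simp [kerH1_zero]) (fun x hx => by linarith [kerH2_le hx]) hm
  linarith

private theorem kerH_nonneg {m : ℝ} (hm : 0 ≤ m) : 0 ≤ kerH m :=
  ker_nonneg kerH_deriv kerH_zero (fun x hx => kerH1_nonneg hx) hm

private theorem kerH_pos {m : ℝ} (hm : 0 < m) : 0 < kerH m :=
  ker_pos kerH_deriv kerH_zero (fun x hx => kerH1_pos hx) hm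

private theorem kerH_le {m : ℝ} (hm : 0 ≤ m) : kerH m ≤ m ^ 2 / 2 := by
  have h := ker_nonneg (f := fun x => x ^ 2 / 2 - kerH x) (f' := fun x => 2 * x / 2 - kerH1 x)
    (fun x => ((ker_sq_deriv x).div_const 2).sub (kerH_deriv x))
    (by simp [kerH_zero]) (fun x hx => by linarith [kerH1_le_self hx]) hm
  linarith

/-- extension by zero to the negative numbers -/
private theorem ker_max {f f' : ℝ → ℝ} (h : ∀ x, HasDerivAt f (f' x) x) (h0 : f' 0 = 0) (s : ℝ) :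
    HasDerivAt (fun s => f (max s 0)) (f' (max s 0)) s := by
  rcases lt_trichotomy s 0 with hs | hs | hs
  · rw [max_eq_right hs.le, h0]
    refine (hasDerivAt_const s (f 0)).congr_of_eventuallyEq ?_
    filter_upwards [Iio_mem_nhds hs] with t ht
    rw [max_eq_right (le_of_lt ht)]
  · subst hs
    rw [max_self, h0]
    have h1 : HasDerivWithinAt (fun s => f (max s 0)) 0 (Iic 0) 0 := by
      refine ((hasDerivWithinAt_const (0 : ℝ) (Iic 0) (f 0))).congr (fun t ht => ?_) (by simp)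
      rw [max_eq_right (mem_Iic.1 ht)]
    have h2 : HasDerivWithinAt (fun s => f (max s 0)) 0 (Ici 0) 0 := by
      have h3 := (h 0).hasDerivWithinAt (s := Ici 0)
      rw [h0] at h3
      refine h3.congr (fun t ht => ?_) (by simp)
      rw [max_eq_left (mem_Ici.1 ht)]
    have h4 := h1.union h2
    rw [Iic_union_Ici, hasDerivWithinAt_univ] at h4
    exact h4
  · rw [max_eq_left hs.le]
    refine (h s).congr_of_eventuallyEq ?_
    filter_upwards [Ioi_mem_nhds hs] with t ht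
    rw [max_eq_left (le_of_lt ht)]

private theorem ker_cont1 {f f' : ℝ → ℝ} (h : ∀ x, HasDerivAt f (f' x) x) (hf' : Continuous f') : ContDiff ℝ 1 f := by
  refine contDiff_one_iff_deriv.2 ⟨fun x => (h x).differentiableAt, ?_⟩
  have e : deriv f = f' := funext fun x => (h x).deriv
  rw [e]
  exact hf'

private theorem ker_cont2 {f f' f'' : ℝ → ℝ} (h : ∀ x, HasDerivAt f (f' x) x) (h' : ∀ x, HasDerivAt f' (f'' x) x)
    (hf'' : Continuous f'') : ContDiff ℝ 2 f := by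
  have h1 : ContDiff ℝ (1 + 1) f := by
    refine contDiff_succ_iff_deriv.2 ⟨fun x => (h x).differentiableAt, fun h0 => absurd h0 (by simp), ?_⟩
    have e : deriv f = f' := funext fun x => (h x).deriv
    rw [e]
    exact ker_cont1 h' hf''
  exact_mod_cast h1

private noncomputable def kerT (B q : ℝ) : ℝ := Real.log (q + 1) - Real.log q - Real.log B

private noncomputable def kerT1 (q : ℝ) : ℝ := -(1 / (q * (q + 1)))

private noncomputable def kerT2 (q : ℝ) : ℝ := (2 * q + 1) / (q * (q + 1)) ^ 2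

private theorem kerT_deriv (B : ℝ) {q : ℝ} (hq : 0 < q) : HasDerivAt (kerT B) (kerT1 q) q := by
  have h1 : HasDerivAt (fun q : ℝ => Real.log (q + 1)) (1 / (q + 1)) q :=
    ((hasDerivAt_id q).add_const 1).log (by simp only [id]; linarith)
  have h2 : HasDerivAt (fun q : ℝ => Real.log q) q⁻¹ q := Real.hasDerivAt_log hq.ne'
  refine ((h1.sub h2).sub_const (Real.log B)).congr_deriv ?_
  unfold kerT1
  have : q + 1 ≠ 0 := by linarith
  field_simp
  ring

private theorem kerT1_deriv {q : ℝ} (hq : 0 < q) : HasDerivAt kerT1 (kerT2 q) q := by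
  have h0 : q * (q + 1) ≠ 0 := by positivity
  have h1 : HasDerivAt (fun q : ℝ => q * (q + 1)) (1 * (q + 1) + q * 1) q :=
    (hasDerivAt_id q).mul ((hasDerivAt_id q).add_const 1)
  have h2 := (h1.inv h0).neg
  have e : kerT1 = -(fun q : ℝ => q * (q + 1))⁻¹ := by
    funext q
    simp [kerT1]
  rw [e]
  refine h2.congr_deriv ?_
  unfold kerT2
  ring

private theorem kerT_smooth (B : ℝ) : ContDiffOn ℝ 2 (kerT B) (Ioi 0) := by
  have h1 : ContDiffOn ℝ 2 (fun q : ℝ => Real.log (q + 1)) (Ioi 0) := by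
    refine ContDiffOn.log (by fun_prop) fun q hq => ?_
    have := mem_Ioi.1 hq
    linarith
  have h2 : ContDiffOn ℝ 2 (fun q : ℝ => Real.log q) (Ioi 0) := by
    refine ContDiffOn.log (by fun_prop) fun q hq => ?_
    exact (mem_Ioi.1 hq).ne'
  exact (h1.sub h2).sub contDiffOn_const

/-- the number `u = q ^ (-1/8)` -/
private theorem ker_u {q : ℝ} (hq : 0 < q) : ∃ u : ℝ, 0 < u ∧ u ^ 8 * q = 1 ∧ q ^ (-(1 / 4) : ℝ) = u ^ 2 ∧ q ^ (-(5 / 4) : ℝ) = u ^ 2 / q := by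
  refine ⟨q ^ (-(1 / 8) : ℝ), Real.rpow_pos_of_pos hq _, ?_, ?_, ?_⟩
  · rw [← Real.rpow_natCast, ← Real.rpow_mul hq.le]
    nth_rewrite 2 [← Real.rpow_one q]
    rw [← Real.rpow_add hq]
    norm_num
  · rw [← Real.rpow_natCast, ← Real.rpow_mul hq.le]
    norm_num
  · rw [← Real.rpow_natCast, ← Real.rpow_mul hq.le]
    nth_rewrite 3 [← Real.rpow_one q]
    rw [← Real.rpow_sub hq]
    norm_num

private theorem ker_u_le {q u : ℝ} (hq : 0 < q) (hu : 0 < u) (h : u ^ 8 * q = 1) : 1 / (q + 1) ≤ u ∧ 1 / (q + 1) ≤ u ^ 2 := by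
  have hq1 : 0 < q + 1 := by linarith
  rw [div_le_iff₀ hq1, div_le_iff₀ hq1]
  rcases le_or_gt 1 u with h1 | h1
  · constructor
    · nlinarith
    · nlinarith [one_le_pow₀ (n := 2) h1]
  · have a1 : u ^ 8 ≤ u := by
      calc u ^ 8 ≤ u ^ 1 := pow_le_pow_of_le_one hu.le h1.le (by norm_num)
        _ = u := pow_one u
    have a2 : u ^ 8 ≤ u ^ 2 := pow_le_pow_of_le_one hu.le h1.le (by norm_num)
    have a3 := mul_le_mul_of_nonneg_right a1 hq.le
    have a4 := mul_le_mul_of_nonneg_right a2 hq.le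
    constructor
    · nlinarith
    · nlinarith [sq_nonneg u]

private theorem ker_m {B q u : ℝ} (hB : 2 ≤ B) (hq : 0 < q) (hu : 0 < u) (h : u ^ 8 * q = 1) : max (kerT B q) 0 ≤ 8 * u := by
  refine max_le ?_ (by linarith)
  have h1 : 0 ≤ Real.log B := Real.log_nonneg (by linarith)
  have h2 : Real.log (q + 1) - Real.log q ≤ 8 * u := by
    rw [← Real.log_div (by linarith) hq.ne']
    have h3 : (q + 1) / q ≤ (1 + u) ^ 8 := by
      rw [div_le_iff₀ hq]
      have e : (1 + u) ^ 8 = 1 + u ^ 8 + (8 * u + 28 * u ^ 2 + 56 * u ^ 3 + 70 * u ^ 4 + 56 * u ^ 5 + 28 * u ^ 6 + 8 * u ^ 7) := by ring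
      rw [e]
      have h4 : 0 ≤ (8 * u + 28 * u ^ 2 + 56 * u ^ 3 + 70 * u ^ 4 + 56 * u ^ 5 + 28 * u ^ 6 + 8 * u ^ 7) * q := by positivity
      nlinarith
    have h5 : Real.log ((q + 1) / q) ≤ Real.log ((1 + u) ^ 8) := Real.log_le_log (by positivity) h3
    rw [Real.log_pow] at h5
    have h6 : Real.log (1 + u) ≤ u := by
      have := Real.log_le_sub_one_of_pos (show 0 < 1 + u by linarith)
      linarith
    push_cast at h5
    linarith
  unfold kerT
  linarith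

private theorem ker_exp_eq {B q : ℝ} (hB : 2 ≤ B) (hq : 0 < q) (h : 0 ≤ kerT B q) :
    Real.exp (-(max (kerT B q) 0)) = B * q / (q + 1) := by
  rw [max_eq_left h]
  have h1 : -kerT B q = Real.log B + Real.log q - Real.log (q + 1) := by
    unfold kerT
    ring
  rw [h1, Real.exp_sub, Real.exp_add, Real.exp_log (by linarith), Real.exp_log hq, Real.exp_log (by linarith)]

private theorem ker_T_pos {B q : ℝ} (hB : 2 ≤ B) (hq : 0 < q) (h : q < 1 / (B - 1)) : 0 < kerT B q := by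
  have h1 : B * q < q + 1 := by
    rw [lt_div_iff₀ (by linarith)] at h
    linarith
  have h2 : Real.log (B * q) < Real.log (q + 1) := Real.log_lt_log (by positivity) h1
  rw [Real.log_mul (by linarith) hq.ne'] at h2
  unfold kerT
  linarith

private theorem ker_T_nonpos {B q : ℝ} (hB : 2 ≤ B) (h : 1 / (B - 1) ≤ q) : kerT B q ≤ 0 := by
  have hq : 0 < q := lt_of_lt_of_le (by have : 0 < B - 1 := by linarith
                                        positivity) h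
  have h1 : q + 1 ≤ B * q := by
    rw [div_le_iff₀ (by linarith)] at h
    linarith
  have h2 : Real.log (q + 1) ≤ Real.log (B * q) := Real.log_le_log (by linarith) h1
  rw [Real.log_mul (by linarith) hq.ne'] at h2
  unfold kerT
  linarith

private theorem ker_kappa_deriv (B : ℝ) {q : ℝ} (hq : 0 < q) :
    HasDerivAt (fun q => B * (max (kerT B q) 0) ^ 2 / (q + 1) ^ 2)
      (2 * B * max (kerT B q) 0 * kerT1 q / (q + 1) ^ 2 - 2 * B * (max (kerT B q) 0) ^ 2 / (q + 1) ^ 3) q := by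
  have h1 : HasDerivAt (fun q => (max (kerT B q) 0) ^ 2) (2 * max (kerT B q) 0 * kerT1 q) q :=
    (ker_max (f' := fun m => 2 * m) ker_sq_deriv (by simp) (kerT B q)).comp q (kerT_deriv B hq)
  have h2 : HasDerivAt (fun q : ℝ => (q + 1) ^ 2) (2 * (q + 1)) q := by
    simpa using! ((hasDerivAt_id q).add_const 1).pow 2
  have hq1 : q + 1 ≠ 0 := by linarith
  refine ((h1.const_mul B).div h2 (pow_ne_zero 2 hq1)).congr_deriv ?_
  field_simp

theorem exists_kpair (Λ : ℝ) : ∃ (ν κ : ℝ → ℝ) (R C : ℝ), KPair ν κ R C Λ := by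
  obtain ⟨B, hBdef⟩ : ∃ B, B = max 2 (2 * Λ) := ⟨_, rfl⟩
  have hB : 2 ≤ B := hBdef ▸ le_max_left _ _
  have hBΛ : 2 * Λ ≤ B := hBdef ▸ le_max_right _ _
  have hB1 : 0 < B - 1 := by linarith
  obtain ⟨R, hRdef⟩ : ∃ R, R = 1 / (B - 1) := ⟨_, rfl⟩
  have hR : 0 < R := by rw [hRdef]; positivity
  have hR1 : R ≤ 1 := by
    rw [hRdef, div_le_one hB1]
    linarith
  obtain ⟨C, hC⟩ : ∃ C, C = 144 * B := ⟨_, rfl⟩
  have hC288 : 288 ≤ C := by rw [hC]; linarith
  obtain ⟨ν, hν⟩ : ∃ ν : ℝ → ℝ, ν = fun q => kerH (max (kerT B q) 0) := ⟨_, rfl⟩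
  obtain ⟨κ, hκ⟩ : ∃ κ : ℝ → ℝ, κ = fun q => B * (max (kerT B q) 0) ^ 2 / (q + 1) ^ 2 := ⟨_, rfl⟩
  have hm0 : ∀ q, 0 ≤ max (kerT B q) 0 := fun q => le_max_right _ _
  have hz : ∀ q, R ≤ q → max (kerT B q) 0 = 0 := fun q hq => max_eq_right (ker_T_nonpos hB (hRdef ▸ hq))
  have hpos : ∀ q, 0 < q → q < R → 0 < max (kerT B q) 0 := fun q hq hqR =>
    lt_max_of_lt_left (ker_T_pos hB hq (hRdef ▸ hqR))
  have h00 : max (kerT B 0) 0 = 0 := by
    refine max_eq_right ?_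
    have : 0 ≤ Real.log B := Real.log_nonneg (by linarith)
    unfold kerT
    simp only [zero_add, Real.log_one, Real.log_zero]
    linarith
  -- derivatives
  have dν : ∀ q, 0 < q → HasDerivAt ν (kerH1 (max (kerT B q) 0) * kerT1 q) q := by
    intro q hq
    rw [hν]
    exact (ker_max kerH_deriv kerH1_zero (kerT B q)).comp q (kerT_deriv B hq)
  have ddν : ∀ q, 0 < q → HasDerivAt (deriv ν) (kerH2 (max (kerT B q) 0) * kerT1 q * kerT1 q + kerH1 (max (kerT B q) 0) * kerT2 q) q := by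
    intro q hq
    have h1 : HasDerivAt (fun q => kerH1 (max (kerT B q) 0)) (kerH2 (max (kerT B q) 0) * kerT1 q) q :=
      (ker_max kerH1_deriv kerH2_zero (kerT B q)).comp q (kerT_deriv B hq)
    refine (h1.mul (kerT1_deriv hq)).congr_of_eventuallyEq ?_
    filter_upwards [Ioi_mem_nhds hq] with t ht
    exact (dν t ht).deriv
  have dκ : ∀ q, 0 < q → HasDerivAt κ
      (2 * B * max (kerT B q) 0 * kerT1 q / (q + 1) ^ 2 - 2 * B * (max (kerT B q) 0) ^ 2 / (q + 1) ^ 3) q := by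
    intro q hq
    rw [hκ]
    exact ker_kappa_deriv B hq
  have sν : ContDiffOn ℝ 2 ν (Ioi 0) := by
    rw [hν]
    have h1 : ContDiff ℝ 2 (fun s => kerH (max s 0)) := by
      refine ker_cont2 (ker_max kerH_deriv kerH1_zero) (ker_max kerH1_deriv kerH2_zero) ?_
      unfold kerH2
      fun_prop
    exact h1.comp_contDiffOn (kerT_smooth B)
  have sκ : ContDiffOn ℝ 1 κ (Ioi 0) := by
    rw [hκ]
    have h1 : ContDiff ℝ 1 (fun s : ℝ => (max s 0) ^ 2) := by
      refine ker_cont1 (ker_max (f' := fun m => 2 * m) ker_sq_deriv (by simp)) ?_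
      fun_prop
    have h2 := h1.comp_contDiffOn ((kerT_smooth B).of_le one_le_two)
    refine ContDiffOn.div (contDiffOn_const.mul h2) (by fun_prop) fun q hq => ?_
    have := mem_Ioi.1 hq
    positivity
  -- bounds
  have bν1 : ∀ q, 0 < q → |deriv ν q| ≤ 2 * (1 / (q * (q + 1))) := by
    intro q hq
    rw [(dν q hq).deriv, abs_mul]
    have h1 : |kerH1 (max (kerT B q) 0)| ≤ 2 := by
      rw [abs_of_nonneg (kerH1_nonneg (hm0 q))]
      exact kerH1_le (hm0 q)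
    have h2 : |kerT1 q| = 1 / (q * (q + 1)) := by
      unfold kerT1
      rw [abs_neg, abs_of_nonneg (by positivity)]
    rw [h2]
    exact mul_le_mul_of_nonneg_right h1 (by positivity)
  refine ⟨ν, κ, R, C, ⟨⟨hR, by linarith, sν.of_le one_le_two, ?_, ?_, ?_⟩, ⟨hR, by linarith, sκ, ?_, ?_, ?_⟩, sν, ?_, ?_, ?_, ?_, ?_, ?_, ?_, ?_⟩⟩
  · intro q hq
    rw [hν]
    show kerH (max (kerT B q) 0) = 0
    rw [hz q hq, kerH_zero]
  · intro q hq
    obtain ⟨u, hu, hu8, hu2, -⟩ := ker_u hq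
    have h1 := ker_m hB hq hu hu8
    rw [hν, hu2]
    show |kerH (max (kerT B q) 0)| ≤ C * u ^ 2
    rw [abs_of_nonneg (kerH_nonneg (hm0 q))]
    have h2 := kerH_le (hm0 q)
    have h3 : (max (kerT B q) 0) ^ 2 ≤ (8 * u) ^ 2 := pow_le_pow_left₀ (hm0 q) h1 2
    nlinarith [sq_nonneg u]
  · intro q hq
    obtain ⟨u, hu, hu8, -, hu5⟩ := ker_u hq
    have h1 := (ker_u_le hq hu hu8).2
    rw [hu5]
    refine (bν1 q hq).trans ?_
    have h2 : 2 * (1 / (q * (q + 1))) = 2 * (1 / (q + 1)) / q := by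
      have : q + 1 ≠ 0 := by linarith
      field_simp
    rw [h2, show C * (u ^ 2 / q) = C * u ^ 2 / q by ring]
    refine div_le_div_of_nonneg_right ?_ hq.le
    nlinarith [sq_nonneg u]
  · intro q hq
    rw [hκ]
    show B * (max (kerT B q) 0) ^ 2 / (q + 1) ^ 2 = 0
    rw [hz q hq]
    simp
  · intro q hq
    obtain ⟨u, hu, hu8, hu2, -⟩ := ker_u hq
    have h1 := ker_m hB hq hu hu8
    rw [hκ, hu2]
    show |B * (max (kerT B q) 0) ^ 2 / (q + 1) ^ 2| ≤ C * u ^ 2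
    rw [abs_of_nonneg (by positivity)]
    have h3 : (max (kerT B q) 0) ^ 2 ≤ (8 * u) ^ 2 := pow_le_pow_left₀ (hm0 q) h1 2
    have h4 : B * (max (kerT B q) 0) ^ 2 / (q + 1) ^ 2 ≤ B * (max (kerT B q) 0) ^ 2 := by
      refine div_le_self (by positivity) ?_
      exact one_le_pow₀ (by linarith)
    refine h4.trans ?_
    rw [hC]
    nlinarith [sq_nonneg u, mul_le_mul_of_nonneg_left h3 (by linarith : 0 ≤ B)]
  · intro q hq
    obtain ⟨u, hu, hu8, -, hu5⟩ := ker_u hq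
    have h1 := ker_m hB hq hu hu8
    obtain ⟨h2, h2'⟩ := ker_u_le hq hu hu8
    rw [(dκ q hq).deriv, hu5]
    obtain ⟨m, hm⟩ : ∃ m, m = max (kerT B q) 0 := ⟨_, rfl⟩
    rw [← hm] at h1 ⊢
    have hm0' : 0 ≤ m := hm ▸ hm0 q
    have hq1 : 0 < q + 1 := by linarith
    have hi1 : 1 / (q + 1) ≤ 1 := by
      rw [div_le_one hq1]
      linarith
    have hi0 : 0 ≤ 1 / (q + 1) := by positivity
    have e1 : 2 * B * m * kerT1 q / (q + 1) ^ 2 = -(2 * B * m * (1 / (q + 1)) ^ 3 * (1 / q)) := by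
      unfold kerT1
      field_simp
    have e2 : 2 * B * m ^ 2 / (q + 1) ^ 3 = 2 * B * m ^ 2 * (1 / (q + 1)) ^ 3 := by
      field_simp
    have h3 : |2 * B * m * kerT1 q / (q + 1) ^ 2 - 2 * B * m ^ 2 / (q + 1) ^ 3| ≤
        2 * B * m * (1 / (q + 1)) ^ 3 * (1 / q) + 2 * B * m ^ 2 * (1 / (q + 1)) ^ 3 := by
      rw [e1, e2, abs_le]
      have a1 : 0 ≤ 2 * B * m * (1 / (q + 1)) ^ 3 * (1 / q) := by positivity
      have a2 : 0 ≤ 2 * B * m ^ 2 * (1 / (q + 1)) ^ 3 := by positivity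
      constructor <;> linarith
    have h4 : (1 / (q + 1)) ^ 3 ≤ 1 / (q + 1) := by
      calc (1 / (q + 1)) ^ 3 ≤ (1 / (q + 1)) ^ 1 := pow_le_pow_of_le_one hi0 hi1 (by norm_num)
        _ = 1 / (q + 1) := pow_one _
    have h5 : 1 / (q + 1) ≤ 1 / q := one_div_le_one_div_of_le hq (by linarith)
    have h6 : m * (1 / (q + 1)) ^ 3 ≤ 8 * u * u := mul_le_mul h1 (h4.trans h2) (by positivity) (by linarith)
    have h7 : m ^ 2 * (1 / (q + 1)) ^ 3 ≤ (8 * u) ^ 2 * (1 / q) :=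
      mul_le_mul (pow_le_pow_left₀ hm0' h1 2) (h4.trans h5) (by positivity) (by positivity)
    refine h3.trans ?_
    have h8 : 2 * B * m * (1 / (q + 1)) ^ 3 * (1 / q) ≤ 16 * B * u ^ 2 * (1 / q) := by
      have h9 := mul_le_mul_of_nonneg_right (mul_le_mul_of_nonneg_left h6 (by linarith : 0 ≤ 2 * B)) (by positivity : 0 ≤ 1 / q)
      calc 2 * B * m * (1 / (q + 1)) ^ 3 * (1 / q) = 2 * B * (m * (1 / (q + 1)) ^ 3) * (1 / q) := by ring
        _ ≤ 2 * B * (8 * u * u) * (1 / q) := h9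
        _ = 16 * B * u ^ 2 * (1 / q) := by ring
    have h10 : 2 * B * m ^ 2 * (1 / (q + 1)) ^ 3 ≤ 128 * B * u ^ 2 * (1 / q) := by
      have h11 := mul_le_mul_of_nonneg_left h7 (by linarith : 0 ≤ 2 * B)
      calc 2 * B * m ^ 2 * (1 / (q + 1)) ^ 3 = 2 * B * (m ^ 2 * (1 / (q + 1)) ^ 3) := by ring
        _ ≤ 2 * B * ((8 * u) ^ 2 * (1 / q)) := h11
        _ = 128 * B * u ^ 2 * (1 / q) := by ring
    rw [hC]
    calc 2 * B * m * (1 / (q + 1)) ^ 3 * (1 / q) + 2 * B * m ^ 2 * (1 / (q + 1)) ^ 3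
        ≤ 16 * B * u ^ 2 * (1 / q) + 128 * B * u ^ 2 * (1 / q) := add_le_add h8 h10
      _ = 144 * B * (u ^ 2 / q) := by ring
  · intro q _
    rw [hν]
    exact kerH_nonneg (hm0 q)
  · intro q hq
    rw [hν, hκ]
    show Λ * kerH (max (kerT B q) 0) ≤ B * (max (kerT B q) 0) ^ 2 / (q + 1) ^ 2
    rcases le_or_gt R q with hRq | hRq
    · rw [hz q hRq, kerH_zero]
      simp
    · have h1 := kerH_le (hm0 q)
      have h2 := kerH_nonneg (hm0 q)
      have h3 : (q + 1) ^ 2 ≤ 4 := by nlinarith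
      rw [le_div_iff₀ (by positivity)]
      rcases le_or_gt Λ 0 with hΛ | hΛ
      · have h4 : Λ * kerH (max (kerT B q) 0) ≤ 0 := mul_nonpos_of_nonpos_of_nonneg hΛ h2
        have h5 : 0 ≤ B * (max (kerT B q) 0) ^ 2 := by positivity
        nlinarith [sq_nonneg (q + 1)]
      · have h4 : Λ * kerH (max (kerT B q) 0) ≤ Λ * ((max (kerT B q) 0) ^ 2 / 2) := mul_le_mul_of_nonneg_left h1 hΛ.le
        have h5 : 0 ≤ Λ * kerH (max (kerT B q) 0) := mul_nonneg hΛ.le h2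
        calc Λ * kerH (max (kerT B q) 0) * (q + 1) ^ 2 ≤ Λ * ((max (kerT B q) 0) ^ 2 / 2) * 4 :=
              mul_le_mul h4 h3 (by positivity) (by positivity)
          _ = 2 * Λ * (max (kerT B q) 0) ^ 2 := by ring
          _ ≤ B * (max (kerT B q) 0) ^ 2 := mul_le_mul_of_nonneg_right hBΛ (by positivity)
  · intro q hq
    rw [hκ]
    show 0 ≤ B * (max (kerT B q) 0) ^ 2 / (q + 1) ^ 2
    positivity
  · intro q hq
    refine (bν1 q hq).trans ?_
    rw [mul_one_div]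
    refine div_le_div₀ (by linarith) (by linarith) hq ?_
    nlinarith
  · intro q hq
    rw [(ddν q hq).deriv]
    have a0 := kerH2_nonneg (max (kerT B q) 0)
    have a1 := kerH2_le (hm0 q)
    have b0 := kerH1_nonneg (hm0 q)
    have b1 := kerH1_le (hm0 q)
    have e1 : kerH2 (max (kerT B q) 0) * kerT1 q * kerT1 q + kerH1 (max (kerT B q) 0) * kerT2 q =
        (kerH2 (max (kerT B q) 0) + (2 * q + 1) * kerH1 (max (kerT B q) 0)) / (q * (q + 1)) ^ 2 := by
      unfold kerT1 kerT2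
      have : q + 1 ≠ 0 := by linarith
      field_simp
    rw [e1, abs_of_nonneg (by positivity)]
    rw [div_le_div_iff₀ (by positivity) (by positivity)]
    have h1 : kerH2 (max (kerT B q) 0) + (2 * q + 1) * kerH1 (max (kerT B q) 0) ≤ 1 + (2 * q + 1) * 2 :=
      add_le_add a1 (mul_le_mul_of_nonneg_left b1 (by linarith))
    calc (kerH2 (max (kerT B q) 0) + (2 * q + 1) * kerH1 (max (kerT B q) 0)) * q ^ 2 ≤ (1 + (2 * q + 1) * 2) * q ^ 2 :=
          mul_le_mul_of_nonneg_right h1 (by positivity)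
      _ ≤ C * (q + 1) ^ 2 * q ^ 2 := by
          refine mul_le_mul_of_nonneg_right ?_ (by positivity)
          nlinarith
      _ = C * (q * (q + 1)) ^ 2 := by ring
  · intro q hq
    rw [(ddν q hq).deriv, (dν q hq).deriv, hκ]
    show B * (max (kerT B q) 0) ^ 2 / (q + 1) ^ 2 = _
    have hq1 : q + 1 ≠ 0 := by linarith
    have e1 : q * (q + 1) * (kerH2 (max (kerT B q) 0) * kerT1 q * kerT1 q + kerH1 (max (kerT B q) 0) * kerT2 q) +
        (2 * q + 1) * (kerH1 (max (kerT B q) 0) * kerT1 q) = kerH2 (max (kerT B q) 0) / (q * (q + 1)) := by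
      unfold kerT1 kerT2
      field_simp
      ring
    rw [e1]
    rcases le_or_gt (kerT B q) 0 with h | h
    · rw [max_eq_right h, kerH2_zero]
      simp
    · unfold kerH2
      rw [ker_exp_eq hB hq h.le]
      field_simp
  · refine ⟨R, hR, fun q hq hqR => ?_⟩
    rw [hν]
    exact kerH_pos (hpos q hq hqR)
  · refine ⟨R, hR, fun q hq hqR => ?_⟩
    have := hpos q hq hqR
    rw [hκ]
    show 0 < B * (max (kerT B q) 0) ^ 2 / (q + 1) ^ 2
    positivity

end KW
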