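import Pool.Agent.Lib.MP_464db4_gt.KW.Cv

/-!
# KW-CvD: the convolution of a `C¹` function

`φ` of class `C¹` on `hp`, `n` an integrable kernel supported in the compact set `KR R ⊆ hp`.  `z ↦ φ (aff z w)` has at `z ∈ hp` (for `w ∈ hp`) the derivative
`v ↦ fderiv φ (aff z w) ((v.re : ℂ) + (v.im : ℂ) * w) = v.re * dx φ (aff z w) + v.im * (ξ dx φ + η dy φ)(aff z w)`, `w = ξ + i η`.  With `ξ = ((aff z w).re - z.re)/z.im`, `η = (aff z w).im / z.im`
the last bracket is `z.im⁻¹ * (L0 φ (aff z w) - z.re * dx φ (aff z w))`.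
Differentiation under the integral (`hasFDerivAt_integral_of_dominated_of_fderiv_le`, on a closed ball around `z₀` in `hp`; the derivative is bounded on `ball × KR R` by `aff_bound` for `dx φ`, `dy φ`, which
are continuous on `hp`) gives `cv_hasFDerivAt`; the other statements are its evaluations on `1` and `I`.
-/

namespace KW

open Complex MeasureTheory Set Filter Topology
open scoped ContDiff

variable {n φ : ℂ → ℝ} {z : ℂ}

theorem dx_contOn (hφ : ContDiffOn ℝ 1 φ hp) : ContinuousOn (dx φ) hp :=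
  (hφ.continuousOn_fderiv_of_isOpen isOpen_hp le_rfl).clm_apply continuousOn_const

theorem dy_contOn (hφ : ContDiffOn ℝ 1 φ hp) : ContinuousOn (dy φ) hp :=
  (hφ.continuousOn_fderiv_of_isOpen isOpen_hp le_rfl).clm_apply continuousOn_const

theorem L0_contOn (hφ : ContDiffOn ℝ 1 φ hp) : ContinuousOn (L0 φ) hp :=
  (continuous_re.continuousOn.mul (dx_contOn hφ)).add (continuous_im.continuousOn.mul (dy_contOn hφ))

theorem L1_contOn (hφ : ContDiffOn ℝ 1 φ hp) : ContinuousOn (L1 φ) hp :=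
  (((continuous_re.pow 2).sub (continuous_im.pow 2)).continuousOn.mul (dx_contOn hφ)).add
    (((continuous_const.mul continuous_re).mul continuous_im).continuousOn.mul (dy_contOn hφ))

/-- The map `z ↦ aff z w` as a continuous linear map. -/
private noncomputable def CvD_L (w : ℂ) : ℂ →L[ℝ] ℂ := reCLM.smulRight (1 : ℂ) + imCLM.smulRight w

private theorem CvD_L_apply (w v : ℂ) : CvD_L w v = (v.re : ℂ) + (v.im : ℂ) * w := by
  simp [CvD_L]

private theorem CvD_aff (w z : ℂ) : HasFDerivAt (fun z => aff z w) (CvD_L w) z := by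
  have h1 : (fun z => aff z w) = fun z => CvD_L w z := by
    funext z
    rw [CvD_L_apply]
    rfl
  rw [h1]
  exact (CvD_L w).hasFDerivAt

/-- The derivative of the integrand. -/
private noncomputable def CvD_F (n φ : ℂ → ℝ) (z w : ℂ) : ℂ →L[ℝ] ℝ :=
  (dx φ (aff z w) * n w) • reCLM + (z.im⁻¹ * (L0 φ (aff z w) * n w - z.re * (dx φ (aff z w) * n w))) • imCLM

private theorem CvD_diff (hφ : ContDiffOn ℝ 1 φ hp) (hz : z ∈ hp) {w : ℂ} (hw : w ∈ hp) :
    HasFDerivAt (fun z => φ (aff z w) * n w) (CvD_F n φ z w) z := by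
  have hzi : z.im ≠ 0 := ne_of_gt hz
  have h1 : DifferentiableAt ℝ φ (aff z w) :=
    ((hφ.differentiableOn one_ne_zero) _ (aff_mem hz hw)).differentiableAt (isOpen_hp.mem_nhds (aff_mem hz hw))
  have h2 : HasFDerivAt (fun z => φ (aff z w)) ((fderiv ℝ φ (aff z w)).comp (CvD_L w)) z :=
    HasFDerivAt.comp z h1.hasFDerivAt (CvD_aff w z)
  have h3 := h2.mul_const (n w)
  have h4 : (n w • (fderiv ℝ φ (aff z w)).comp (CvD_L w) : ℂ →L[ℝ] ℝ) = CvD_F n φ z w := by
    ext v
    have e1 : CvD_L w v = v.re • (1 : ℂ) + v.im • (w.re • (1 : ℂ) + w.im • I) := by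
      rw [CvD_L_apply]
      apply Complex.ext <;> simp
    have e2 : ((fderiv ℝ φ (aff z w)).comp (CvD_L w)) v = v.re * dx φ (aff z w) +
        v.im * (w.re * dx φ (aff z w) + w.im * dy φ (aff z w)) := by
      rw [ContinuousLinearMap.comp_apply, e1, map_add, map_smul, map_smul, map_add, map_smul, map_smul]
      rfl
    have e3 : (n w • (fderiv ℝ φ (aff z w)).comp (CvD_L w) : ℂ →L[ℝ] ℝ) v = n w * (v.re * dx φ (aff z w) +
        v.im * (w.re * dx φ (aff z w) + w.im * dy φ (aff z w))) := by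
      rw [← e2]
      rfl
    have e4 : CvD_F n φ z w v = (dx φ (aff z w) * n w) * v.re +
        (z.im⁻¹ * (L0 φ (aff z w) * n w - z.re * (dx φ (aff z w) * n w))) * v.im := rfl
    rw [e3, e4]
    unfold L0
    rw [aff_re, aff_im]
    field_simp
    ring
  rw [← h4]
  exact h3

private theorem CvD_norm {a b : ℝ} : ‖(a • reCLM + b • imCLM : ℂ →L[ℝ] ℝ)‖ ≤ |a| + |b| := by
  refine (norm_add_le _ _).trans ?_
  rw [norm_smul, norm_smul, reCLM_norm, imCLM_norm, mul_one, mul_one, Real.norm_eq_abs, Real.norm_eq_abs]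

private theorem CvD_int (hn : GKer n) (hφ : ContDiffOn ℝ 1 φ hp) (hz : z ∈ hp) : Integrable (CvD_F n φ z) := by
  have h1 := cv_integrable hn (dx_contOn hφ) hz
  have h2 := cv_integrable hn (L0_contOn hφ) hz
  exact (h1.smul_const reCLM).add (((h2.sub (h1.const_mul z.re)).const_mul z.im⁻¹).smul_const imCLM)

private theorem CvD_integral (hn : GKer n) (hφ : ContDiffOn ℝ 1 φ hp) (hz : z ∈ hp) :
    ∫ w, CvD_F n φ z w = (cv n (dx φ) z) • reCLM + (z.im⁻¹ * (cv n (L0 φ) z - z.re * cv n (dx φ) z)) • imCLM := by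
  have h1 := cv_integrable hn (dx_contOn hφ) hz
  have h2 := cv_integrable hn (L0_contOn hφ) hz
  have h3 : Integrable (fun w => L0 φ (aff z w) * n w - z.re * (dx φ (aff z w) * n w)) := h2.sub (h1.const_mul z.re)
  have h4 : Integrable (fun w => (z.im⁻¹ * (L0 φ (aff z w) * n w - z.re * (dx φ (aff z w) * n w))) • imCLM) :=
    (h3.const_mul z.im⁻¹).smul_const imCLM
  have h5 : Integrable (fun w => (dx φ (aff z w) * n w) • reCLM) := h1.smul_const reCLM
  unfold CvD_F cv
  rw [integral_add h5 h4, integral_smul_const, integral_smul_const, integral_const_mul,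
    integral_sub h2 (h1.const_mul z.re), integral_const_mul]

theorem cv_hasFDerivAt (hn : GKer n) (hφ : ContDiffOn ℝ 1 φ hp) (hz : z ∈ hp) :
    HasFDerivAt (cv n φ) ((cv n (dx φ) z) • reCLM + (z.im⁻¹ * (cv n (L0 φ) z - z.re * cv n (dx φ) z)) • imCLM) z := by
  obtain ⟨R, hR, hn0⟩ := hn.supp
  obtain ⟨r, hr, hrs⟩ := Metric.nhds_basis_closedBall.mem_iff.1 (isOpen_hp.mem_nhds hz)
  have hC : IsCompact (Metric.closedBall z r) := isCompact_closedBall z r
  obtain ⟨M1, hM1, b1⟩ := aff_bound (dx_contOn hφ) hC hrs hR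
  obtain ⟨M2, hM2, b2⟩ := aff_bound (L0_contOn hφ) hC hrs hR
  obtain ⟨M3, b3⟩ : ∃ M3, ∀ x ∈ Metric.closedBall z r, ‖x.im⁻¹‖ ≤ M3 := by
    refine hC.exists_bound_of_continuousOn ?_
    exact ContinuousOn.inv₀ continuous_im.continuousOn fun x hx => ne_of_gt (hrs hx)
  obtain ⟨M4, b4⟩ : ∃ M4, ∀ x ∈ Metric.closedBall z r, ‖x.re‖ ≤ M4 :=
    hC.exists_bound_of_continuousOn continuous_re.continuousOn
  have hM3 : 0 ≤ M3 := (norm_nonneg _).trans (b3 z (Metric.mem_closedBall_self hr.le))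
  have hM4 : 0 ≤ M4 := (norm_nonneg _).trans (b4 z (Metric.mem_closedBall_self hr.le))
  rw [← CvD_integral hn hφ hz]
  have hb : ∀ w, ∀ x ∈ Metric.closedBall z r, ‖CvD_F n φ x w‖ ≤ (M1 + M3 * (M2 + M4 * M1)) * |n w| := by
    intro w x hx
    by_cases hw : w ∈ KR R
    · refine CvD_norm.trans ?_
      have c1 : |dx φ (aff x w) * n w| ≤ M1 * |n w| := by
        rw [abs_mul]
        exact mul_le_mul_of_nonneg_right (b1 x hx w hw) (abs_nonneg _)
      have c2 : |L0 φ (aff x w) * n w| ≤ M2 * |n w| := by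
        rw [abs_mul]
        exact mul_le_mul_of_nonneg_right (b2 x hx w hw) (abs_nonneg _)
      have c3 : |x.re * (dx φ (aff x w) * n w)| ≤ M4 * (M1 * |n w|) := by
        rw [abs_mul]
        exact mul_le_mul (b4 x hx) c1 (abs_nonneg _) hM4
      have c4 : |L0 φ (aff x w) * n w - x.re * (dx φ (aff x w) * n w)| ≤ M2 * |n w| + M4 * (M1 * |n w|) :=
        (abs_sub _ _).trans (add_le_add c2 c3)
      have c5 : |x.im⁻¹ * (L0 φ (aff x w) * n w - x.re * (dx φ (aff x w) * n w))| ≤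
          M3 * (M2 * |n w| + M4 * (M1 * |n w|)) := by
        rw [abs_mul]
        exact mul_le_mul (b3 x hx) c4 (abs_nonneg _) hM3
      calc _ ≤ M1 * |n w| + M3 * (M2 * |n w| + M4 * (M1 * |n w|)) := add_le_add c1 c5
        _ = _ := by ring
    · have h0 : CvD_F n φ x w = 0 := by
        unfold CvD_F
        rw [hn0 w hw]
        simp
      rw [h0, norm_zero]
      positivity
  have hd : ∀ w, ∀ x ∈ Metric.closedBall z r, HasFDerivAt (fun x => φ (aff x w) * n w) (CvD_F n φ x w) x := by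
    intro w x hx
    by_cases hw : w ∈ KR R
    · exact CvD_diff hφ (hrs hx) (KR_sub hR hw)
    · have h0 : CvD_F n φ x w = 0 := by
        unfold CvD_F
        rw [hn0 w hw]
        simp
      have h1 : (fun x => φ (aff x w) * n w) = fun _ => (0 : ℝ) := by
        funext x
        rw [hn0 w hw, mul_zero]
      rw [h0, h1]
      exact hasFDerivAt_const _ _
  exact hasFDerivAt_integral_of_dominated_of_fderiv_le (μ := volume) (F := fun x w => φ (aff x w) * n w)
    (F' := fun x w => CvD_F n φ x w) (bound := fun w => (M1 + M3 * (M2 + M4 * M1)) * |n w|)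
    (Metric.closedBall_mem_nhds z hr)
    (Filter.eventually_of_mem (isOpen_hp.mem_nhds hz) fun x hx => (cv_integrable hn hφ.continuousOn hx).aestronglyMeasurable)
    (cv_integrable hn hφ.continuousOn hz) (CvD_int hn hφ hz).aestronglyMeasurable
    (Filter.Eventually.of_forall hb) (hn.int.abs.const_mul _) (Filter.Eventually.of_forall hd)

theorem dx_cv (hn : GKer n) (hφ : ContDiffOn ℝ 1 φ hp) (hz : z ∈ hp) : dx (cv n φ) z = cv n (dx φ) z := by
  unfold dx
  rw [(cv_hasFDerivAt hn hφ hz).fderiv]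
  show cv n (dx φ) z * (1 : ℂ).re + (z.im⁻¹ * (cv n (L0 φ) z - z.re * cv n (dx φ) z)) * (1 : ℂ).im = cv n (dx φ) z
  simp

theorem dy_cv (hn : GKer n) (hφ : ContDiffOn ℝ 1 φ hp) (hz : z ∈ hp) :
    dy (cv n φ) z = z.im⁻¹ * (cv n (L0 φ) z - z.re * cv n (dx φ) z) := by
  have h : dy (cv n φ) z = fderiv ℝ (cv n φ) z I := rfl
  rw [h, (cv_hasFDerivAt hn hφ hz).fderiv]
  show cv n (dx φ) z * I.re + (z.im⁻¹ * (cv n (L0 φ) z - z.re * cv n (dx φ) z)) * I.im = _
  simp

theorem L0_cv (hn : GKer n) (hφ : ContDiffOn ℝ 1 φ hp) (hz : z ∈ hp) : L0 (cv n φ) z = cv n (L0 φ) z := by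
  have hzi : z.im ≠ 0 := ne_of_gt hz
  have h : L0 (cv n φ) z = z.re * dx (cv n φ) z + z.im * dy (cv n φ) z := rfl
  rw [h, dx_cv hn hφ hz, dy_cv hn hφ hz, mul_inv_cancel_left₀ hzi]
  ring

end KW
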