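import Pool.Agent.Lib.MP_464db4_gt.KW.CvW
import Pool.Agent.Lib.MP_464db4_gt.KW.CvD

/-!
# KW-Gain: the convolution gains one derivative

Induction on `m`.  `m = 0`: `cvw_contDiffOn`.  `m + 1`: `φ` is `C^(m+1)`, so `dx φ` and `L0 φ` are `C^m` on `hp`, so `cv n (dx φ)`, `cv n (L0 φ)` are `C^(m+1)` by induction, and by
`cv_hasFDerivAt` the derivative of `cv n φ` is `(cv n (dx φ)) • re + (y⁻¹ (cv n (L0 φ) - x cv n (dx φ))) • im`, of class `C^(m+1)` on `hp`; `contDiffOn_succ_iff_fderiv_of_isOpen`.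
-/

namespace KW

open Complex MeasureTheory Set Filter Topology
open scoped ContDiff

variable {n a b φ : ℂ → ℝ} {R : ℝ} {N : ℕ → ℂ → ℝ}

private theorem Gain_cast (m : ℕ) : ((m : ℕ∞ω)) + 1 ≤ ((m + 1 : ℕ) : ℕ∞ω) := by
  push_cast
  exact le_rfl

theorem dx_contDiffOn {m : ℕ} (hφ : ContDiffOn ℝ (m + 1 : ℕ) φ hp) : ContDiffOn ℝ (m : ℕ) (dx φ) hp :=
  (hφ.fderiv_of_isOpen isOpen_hp (Gain_cast m)).clm_apply contDiffOn_const

theorem dy_contDiffOn {m : ℕ} (hφ : ContDiffOn ℝ (m + 1 : ℕ) φ hp) : ContDiffOn ℝ (m : ℕ) (dy φ) hp :=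
  (hφ.fderiv_of_isOpen isOpen_hp (Gain_cast m)).clm_apply contDiffOn_const

private theorem Gain_re {k : ℕ∞ω} : ContDiffOn ℝ k (fun w : ℂ => w.re) hp := reCLM.contDiff.contDiffOn

private theorem Gain_im {k : ℕ∞ω} : ContDiffOn ℝ k (fun w : ℂ => w.im) hp := imCLM.contDiff.contDiffOn

theorem L0_contDiffOn {m : ℕ} (hφ : ContDiffOn ℝ (m + 1 : ℕ) φ hp) : ContDiffOn ℝ (m : ℕ) (L0 φ) hp :=
  (Gain_re.mul (dx_contDiffOn hφ)).add (Gain_im.mul (dy_contDiffOn hφ))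

theorem L1_contDiffOn {m : ℕ} (hφ : ContDiffOn ℝ (m + 1 : ℕ) φ hp) : ContDiffOn ℝ (m : ℕ) (L1 φ) hp :=
  (((Gain_re.pow 2).sub (Gain_im.pow 2)).mul (dx_contDiffOn hφ)).add
    (((contDiffOn_const.mul Gain_re).mul Gain_im).mul (dy_contDiffOn hφ))

private theorem Gain_dx (hφ : ContDiffOn ℝ ∞ φ hp) : ContDiffOn ℝ ∞ (dx φ) hp :=
  (hφ.fderiv_of_isOpen isOpen_hp (by simp)).clm_apply contDiffOn_const

private theorem Gain_dy (hφ : ContDiffOn ℝ ∞ φ hp) : ContDiffOn ℝ ∞ (dy φ) hp :=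
  (hφ.fderiv_of_isOpen isOpen_hp (by simp)).clm_apply contDiffOn_const

theorem lapH_contDiffOn (hφ : ContDiffOn ℝ ∞ φ hp) : ContDiffOn ℝ ∞ (lapH φ) hp :=
  (Gain_im.pow 2).mul ((Gain_dx (Gain_dx hφ)).add (Gain_dy (Gain_dy hφ)))

theorem gain (hn : WKer n a b R N) (m : ℕ) {φ : ℂ → ℝ} (hφ : ContDiffOn ℝ (m : ℕ) φ hp) : ContDiffOn ℝ (m + 1 : ℕ) (cv n φ) hp := by
  induction m generalizing φ with
  | zero =>
    have h := cvw_contDiffOn hn hφ.continuousOn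
    have e : ((0 + 1 : ℕ) : ℕ∞ω) = 1 := by simp
    rw [e]
    exact h
  | succ m ih =>
    have h1 : ContDiffOn ℝ (m + 1 : ℕ) (cv n (dx φ)) hp := ih (dx_contDiffOn hφ)
    have h2 : ContDiffOn ℝ (m + 1 : ℕ) (cv n (L0 φ)) hp := ih (L0_contDiffOn hφ)
    have hφ1 : ContDiffOn ℝ 1 φ hp := hφ.of_le (by exact_mod_cast Nat.succ_le_succ (Nat.zero_le m))
    have e : ((m + 1 + 1 : ℕ) : ℕ∞ω) = ((m + 1 : ℕ) : ℕ∞ω) + 1 := by push_cast; rfl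
    rw [e, contDiffOn_succ_iff_fderiv_of_isOpen isOpen_hp]
    refine ⟨fun z hz => (cv_hasFDerivAt hn.gn hφ1 hz).differentiableAt.differentiableWithinAt,
      fun h => absurd h (by simp), ?_⟩
    have hi : ContDiffOn ℝ (m + 1 : ℕ) (fun z : ℂ => z.im⁻¹) hp := Gain_im.inv fun z hz => (mem_hp.1 hz).ne'
    have h3 : ContDiffOn ℝ (m + 1 : ℕ) (fun z : ℂ => (cv n (dx φ) z) • reCLM +
        (z.im⁻¹ * (cv n (L0 φ) z - z.re * cv n (dx φ) z)) • imCLM) hp :=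
      (h1.smul contDiffOn_const).add ((hi.mul (h2.sub (Gain_re.mul h1))).smul contDiffOn_const)
    exact h3.congr fun z hz => (cv_hasFDerivAt hn.gn hφ1 hz).fderiv

end KW
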