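import Pool.Agent.Lib.MP_464db4_gt.KW.Rot
import Pool.Agent.Lib.MP_464db4_gt.KW.Gain

/-!
# KW-Cas: the hyperbolic Laplacian commutes with radial kernels

* `casimir`: `lapH = L0² - (L1 ∂_x + ∂_x L1)/2`.  With `φ_x, φ_y, φ_xx, φ_xy = φ_yx, φ_yy` (symmetry of the second derivative of a `C²` function: `ContDiffAt.isSymmSndFDerivAt` or `second_derivative_symmetric`):
  `L0 L0 φ = x φ_x + y φ_y + x² φ_xx + 2 x y φ_xy + y² φ_yy`;  `L1 φ_x = (x²-y²) φ_xx + 2 x y φ_xy`;  `∂_x L1 φ = 2 x φ_x + (x²-y²) φ_xx + 2 y φ_y + 2 x y φ_xy`;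
  the combination is `(x² - (x²-y²)) φ_xx + y² φ_yy = y² (φ_xx + φ_yy)`.
* `lapH_cv`: `cv (kn ν) φ` is `C²` (`gain`, `wker`); `dx (cv φ) = cv (dx φ)`, `L0 (cv φ) = cv (L0 φ)`, `L1 (cv φ) = cv (L1 φ)` on the open set `hp`, so the derivatives of both sides agree there; apply the three
  commutation rules twice (`dx φ`, `L0 φ`, `L1 φ` are `C¹`), `casimir` for `cv φ` and for `φ`, and linearity (`cv_sub`, `cv_add`, `cv_const_mul`, `cv_congr`).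
-/

namespace KW

open Complex MeasureTheory Set Filter Topology
open scoped ContDiff

variable {ν : ℝ → ℝ} {R C : ℝ} {φ ψ : ℂ → ℝ} {z : ℂ}

private theorem Cas_isOpen : IsOpen hp := isOpen_lt continuous_const Complex.continuous_im

private theorem Cas_ev (h : ∀ w ∈ hp, φ w = ψ w) (hz : z ∈ hp) : φ =ᶠ[𝓝 z] ψ :=
  Filter.eventually_of_mem (Cas_isOpen.mem_nhds hz) h

theorem dx_congr_hp (h : ∀ w ∈ hp, φ w = ψ w) (hz : z ∈ hp) : dx φ z = dx ψ z := by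
  unfold dx
  rw [(Cas_ev h hz).fderiv_eq]

theorem dy_congr_hp (h : ∀ w ∈ hp, φ w = ψ w) (hz : z ∈ hp) : dy φ z = dy ψ z := by
  unfold dy
  rw [(Cas_ev h hz).fderiv_eq]

theorem casimir (hφ : ContDiffOn ℝ 2 φ hp) (hz : z ∈ hp) : lapH φ z = L0 (L0 φ) z - (L1 (dx φ) z + dx (L1 φ) z) / 2 := by
  have hat : ContDiffAt ℝ 2 φ z := hφ.contDiffAt (Cas_isOpen.mem_nhds hz)
  have hfd : DifferentiableAt ℝ (fderiv ℝ φ) z :=
    (hat.fderiv_right (m := 1) (by norm_num)).differentiableAt (by norm_num)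
  obtain ⟨D, hD⟩ : ∃ D, D = fderiv ℝ (fderiv ℝ φ) z := ⟨_, rfl⟩
  have hDd : HasFDerivAt (fderiv ℝ φ) D z := by
    rw [hD]
    exact hfd.hasFDerivAt
  have hsym : D 1 I = D I 1 := by
    have h := hat.isSymmSndFDerivAt (by simp)
    rw [hD]
    exact h 1 I
  have hdx : HasFDerivAt (dx φ) ((ContinuousLinearMap.apply ℝ ℝ (1 : ℂ)).comp D) z :=
    (ContinuousLinearMap.apply ℝ ℝ (1 : ℂ)).hasFDerivAt.comp z hDd
  have hdy : HasFDerivAt (dy φ) ((ContinuousLinearMap.apply ℝ ℝ I).comp D) z :=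
    (ContinuousLinearMap.apply ℝ ℝ I).hasFDerivAt.comp z hDd
  have hre : HasFDerivAt (fun w : ℂ => w.re) reCLM z := reCLM.hasFDerivAt
  have him : HasFDerivAt (fun w : ℂ => w.im) imCLM z := imCLM.hasFDerivAt
  have h0 : HasFDerivAt (L0 φ) _ z := (hre.mul hdx).add (him.mul hdy)
  have h1 : HasFDerivAt (L1 φ) _ z :=
    (((hre.pow 2).sub (him.pow 2)).mul hdx).add (((hre.const_mul 2).mul him).mul hdy)
  have e1 : dx (L0 φ) z = dx φ z + z.re * D 1 1 + z.im * D 1 I := by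
    unfold dx
    rw [h0.fderiv]
    simp [dx]
    ring
  have e2 : dy (L0 φ) z = z.re * D I 1 + dy φ z + z.im * D I I := by
    unfold dy
    rw [h0.fderiv]
    simp [dy]
    ring
  have e3 : dx (dx φ) z = D 1 1 := by
    rw [show dx (dx φ) z = fderiv ℝ (dx φ) z 1 from rfl, hdx.fderiv]
    rfl
  have e4 : dy (dx φ) z = D I 1 := by
    rw [show dy (dx φ) z = fderiv ℝ (dx φ) z I from rfl, hdx.fderiv]
    rfl
  have e5 : dy (dy φ) z = D I I := by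
    rw [show dy (dy φ) z = fderiv ℝ (dy φ) z I from rfl, hdy.fderiv]
    rfl
  have e6 : dx (L1 φ) z = 2 * z.re * dx φ z + (z.re ^ 2 - z.im ^ 2) * D 1 1 + 2 * z.im * dy φ z +
      2 * z.re * z.im * D 1 I := by
    rw [show dx (L1 φ) z = fderiv ℝ (L1 φ) z 1 from rfl, h1.fderiv]
    simp
    ring
  unfold lapH lapE
  rw [show L0 (L0 φ) z = z.re * dx (L0 φ) z + z.im * dy (L0 φ) z from rfl,
    show L1 (dx φ) z = (z.re ^ 2 - z.im ^ 2) * dx (dx φ) z + 2 * z.re * z.im * dy (dx φ) z from rfl,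
    e1, e2, e3, e4, e5, e6, hsym]
  ring

theorem lapH_congr_hp (h : ∀ w ∈ hp, φ w = ψ w) (hz : z ∈ hp) : lapH φ z = lapH ψ z := by
  have h1 : ∀ w ∈ hp, dx φ w = dx ψ w := fun w hw => dx_congr_hp h hw
  have h2 : ∀ w ∈ hp, dy φ w = dy ψ w := fun w hw => dy_congr_hp h hw
  unfold lapH lapE
  rw [dx_congr_hp h1 hz, dy_congr_hp h2 hz]

theorem lapH_cv (hν : Prof ν R C) (hφ : ContDiffOn ℝ 2 φ hp) (hz : z ∈ hp) : lapH (cv (kn ν) φ) z = cv (kn ν) (lapH φ) z := by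
  have hn : GKer (kn ν) := gker_kn hν
  have hφ2 : ContDiffOn ℝ ((1 + 1 : ℕ) : WithTop ℕ∞) φ hp := by exact_mod_cast hφ
  have hφ1 : ContDiffOn ℝ 1 φ hp := hφ.of_le (by norm_num)
  have hφ1' : ContDiffOn ℝ ((1 : ℕ) : WithTop ℕ∞) φ hp := by exact_mod_cast hφ1
  have hcv2 : ContDiffOn ℝ 2 (cv (kn ν) φ) hp := by
    have h := gain (wker hν) 1 hφ1'
    exact_mod_cast h
  have k0 : ContDiffOn ℝ 1 (L0 φ) hp := by exact_mod_cast L0_contDiffOn (m := 1) hφ2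
  have k1 : ContDiffOn ℝ 1 (L1 φ) hp := by exact_mod_cast L1_contDiffOn (m := 1) hφ2
  have kx : ContDiffOn ℝ 1 (dx φ) hp := by exact_mod_cast dx_contDiffOn (m := 1) hφ2
  have c0 : ∀ w ∈ hp, L0 (cv (kn ν) φ) w = cv (kn ν) (L0 φ) w := fun w hw => L0_cv hn hφ1 hw
  have c1 : ∀ w ∈ hp, L1 (cv (kn ν) φ) w = cv (kn ν) (L1 φ) w := fun w hw => L1_cv hν hφ1 hw
  have cx : ∀ w ∈ hp, dx (cv (kn ν) φ) w = cv (kn ν) (dx φ) w := fun w hw => dx_cv hn hφ1 hw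
  have a0 : L0 (L0 (cv (kn ν) φ)) z = cv (kn ν) (L0 (L0 φ)) z := by
    rw [← L0_cv hn k0 hz]
    show z.re * dx (L0 (cv (kn ν) φ)) z + z.im * dy (L0 (cv (kn ν) φ)) z =
      z.re * dx (cv (kn ν) (L0 φ)) z + z.im * dy (cv (kn ν) (L0 φ)) z
    rw [dx_congr_hp c0 hz, dy_congr_hp c0 hz]
  have a1 : L1 (dx (cv (kn ν) φ)) z = cv (kn ν) (L1 (dx φ)) z := by
    rw [← L1_cv hν kx hz]
    unfold L1
    rw [dx_congr_hp cx hz, dy_congr_hp cx hz]
  have a2 : dx (L1 (cv (kn ν) φ)) z = cv (kn ν) (dx (L1 φ)) z := by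
    rw [← dx_cv hn k1 hz]
    exact dx_congr_hp c1 hz
  have hcas : ∀ w ∈ hp, lapH φ w = L0 (L0 φ) w - 1 / 2 * (L1 (dx φ) w + dx (L1 φ) w) := by
    intro w hw
    rw [casimir hφ hw]
    ring
  have q0 : ContinuousOn (L0 (L0 φ)) hp := L0_contOn k0
  have q1 : ContinuousOn (L1 (dx φ)) hp := L1_contOn kx
  have q2 : ContinuousOn (dx (L1 φ)) hp := dx_contOn k1
  have q3 : ContinuousOn (fun w => L1 (dx φ) w + dx (L1 φ) w) hp := q1.add q2
  have q4 : ContinuousOn (fun w => 1 / 2 * (L1 (dx φ) w + dx (L1 φ) w)) hp := continuousOn_const.mul q3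
  rw [casimir hcv2 hz, a0, a1, a2, cv_congr hn hcas hz, cv_sub hn q0 q4 hz, cv_const_mul, cv_add hn q1 q2 hz]
  ring

end KW
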