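import Pool.Agent.Lib.MP_464db4_gt.KW.QQ

/-!
# KW-Cv: elementary properties of the convolution

`aff z w` has imaginary part `z.im * w.im`.  For `z ∈ hp` and `w ∈ KR R ⊆ hp`, `aff z w ∈ hp`, and `w ↦ φ (aff z w)` is continuous on the compact set `KR R`, so bounded; with `n` integrable and
zero off `KR R` the product is integrable (`GKer`; measurability: `φ ∘ aff z` is continuous on the open set `hp`, use the restriction to `KR R`, `ContinuousOn.aestronglyMeasurable`, and
`IntegrableOn` + `integrableOn_iff_integrable_of_support_subset`).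
* `cv_continuousOn`: for a compact neighbourhood `C ⊆ hp` of `z₀`, the image of `C × KR R` under `aff` is a compact subset of `hp`, so `|φ (aff z w)| ≤ M` there; dominated convergence with the bound
  `M |n w|` (`continuousWithinAt_of_dominated` or `tendsto_integral_filter_of_dominated_convergence`).
* `aff_bound` gives this compactness statement for later use.
-/

namespace KW

open Complex MeasureTheory Set Filter Topology
open scoped ContDiff

variable {n m φ ψ : ℂ → ℝ} {z w : ℂ} {R : ℝ}

theorem aff_im (z w : ℂ) : (aff z w).im = z.im * w.im := by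
  simp [aff]

theorem aff_re (z w : ℂ) : (aff z w).re = z.re + z.im * w.re := by
  simp [aff]

theorem aff_I (z : ℂ) : aff z I = z := by
  unfold aff
  exact Complex.re_add_im z

theorem aff_mem (hz : z ∈ hp) (hw : w ∈ hp) : aff z w ∈ hp := by
  rw [mem_hp, aff_im]
  exact mul_pos hz hw

theorem continuous_aff : Continuous (fun p : ℂ × ℂ => aff p.1 p.2) := by
  unfold aff
  exact (Complex.continuous_ofReal.comp (Complex.continuous_re.comp continuous_fst)).add
    ((Complex.continuous_ofReal.comp (Complex.continuous_im.comp continuous_fst)).mul continuous_snd)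

/-- Boundedness of a continuous function on the points `aff z w`, `z` in a compact set. -/
theorem aff_bound (hφ : ContinuousOn φ hp) {C : Set ℂ} (hC : IsCompact C) (hCh : C ⊆ hp) (hR : 0 ≤ R) :
    ∃ M : ℝ, 0 ≤ M ∧ ∀ z ∈ C, ∀ w ∈ KR R, |φ (aff z w)| ≤ M := by
  have hK : IsCompact ((fun p : ℂ × ℂ => aff p.1 p.2) '' (C ×ˢ KR R)) := (hC.prod (isCompact_KR R)).image continuous_aff
  have hsub : (fun p : ℂ × ℂ => aff p.1 p.2) '' (C ×ˢ KR R) ⊆ hp := by
    rintro _ ⟨⟨z, w⟩, ⟨hz, hw⟩, rfl⟩
    exact aff_mem (hCh hz) (KR_sub hR hw)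
  obtain ⟨M, hM⟩ := hK.exists_bound_of_continuousOn (hφ.mono hsub)
  refine ⟨max M 0, le_max_right _ _, fun z hz w hw => ?_⟩
  have h := hM (aff z w) ⟨(z, w), ⟨hz, hw⟩, rfl⟩
  rw [Real.norm_eq_abs] at h
  exact h.trans (le_max_left _ _)

private theorem Cv_aff_cont (z : ℂ) : Continuous (fun w : ℂ => aff z w) :=
  continuous_aff.comp (continuous_const.prodMk continuous_id)

theorem cv_integrable (hn : GKer n) (hφ : ContinuousOn φ hp) (hz : z ∈ hp) : Integrable (fun w => φ (aff z w) * n w) := by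
  obtain ⟨R, hR, h0⟩ := hn.supp
  have hc : ContinuousOn (fun w => φ (aff z w)) (KR R) :=
    hφ.comp (Cv_aff_cont z).continuousOn fun w hw => aff_mem hz (KR_sub hR hw)
  have h1 : IntegrableOn (fun w => φ (aff z w) * n w) (KR R) :=
    IntegrableOn.continuousOn_mul hc hn.int.integrableOn (isCompact_KR R)
  refine (integrableOn_iff_integrable_of_support_subset fun w hw => ?_).1 h1
  by_contra h
  exact hw (by change φ (aff z w) * n w = 0; rw [h0 w h, mul_zero])

/-- pointwise comparison on the support -/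
private theorem Cv_on (hn : GKer n) {P : ℂ → Prop} (h0 : ∀ w, n w = 0 → P w) (h1 : ∀ w ∈ hp, P w) (w : ℂ) : P w := by
  obtain ⟨R, hR, h⟩ := hn.supp
  by_cases hw : w ∈ KR R
  · exact h1 w (KR_sub hR hw)
  · exact h0 w (h w hw)

theorem cv_congr (hn : GKer n) (h : ∀ w ∈ hp, φ w = ψ w) (hz : z ∈ hp) : cv n φ z = cv n ψ z := by
  unfold cv
  congr 1
  funext w
  exact Cv_on hn (P := fun w => φ (aff z w) * n w = ψ (aff z w) * n w) (fun w hw => by rw [hw, mul_zero, mul_zero])
    (fun w hw => by rw [h _ (aff_mem hz hw)]) w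

theorem cv_add (hn : GKer n) (hφ : ContinuousOn φ hp) (hψ : ContinuousOn ψ hp) (hz : z ∈ hp) :
    cv n (fun w => φ w + ψ w) z = cv n φ z + cv n ψ z := by
  unfold cv
  rw [← integral_add (cv_integrable hn hφ hz) (cv_integrable hn hψ hz)]
  congr 1
  funext w
  ring

theorem cv_sub (hn : GKer n) (hφ : ContinuousOn φ hp) (hψ : ContinuousOn ψ hp) (hz : z ∈ hp) :
    cv n (fun w => φ w - ψ w) z = cv n φ z - cv n ψ z := by
  unfold cv
  rw [← integral_sub (cv_integrable hn hφ hz) (cv_integrable hn hψ hz)]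
  congr 1
  funext w
  ring

theorem cv_const_mul (n φ : ℂ → ℝ) (a : ℝ) (z : ℂ) : cv n (fun w => a * φ w) z = a * cv n φ z := by
  unfold cv
  rw [← integral_const_mul]
  congr 1
  funext w
  ring

theorem cv_const (n : ℂ → ℝ) (a : ℝ) (z : ℂ) : cv n (fun _ => a) z = a * ∫ w, n w := by
  unfold cv
  rw [← integral_const_mul]

theorem cv_mono (hn : GKer n) (h0 : ∀ w, 0 ≤ n w) (hφ : ContinuousOn φ hp) (hψ : ContinuousOn ψ hp) (h : ∀ w ∈ hp, φ w ≤ ψ w) (hz : z ∈ hp) :
    cv n φ z ≤ cv n ψ z := by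
  unfold cv
  refine integral_mono (cv_integrable hn hφ hz) (cv_integrable hn hψ hz) fun w => ?_
  exact Cv_on hn (P := fun w => φ (aff z w) * n w ≤ ψ (aff z w) * n w) (fun w hw => by rw [hw, mul_zero, mul_zero])
    (fun w hw => mul_le_mul_of_nonneg_right (h _ (aff_mem hz hw)) (h0 w)) w

theorem GKer.comb (hn : GKer n) (hm : GKer m) (l : ℝ) : GKer (fun w => n w - l * m w) := by
  obtain ⟨R, hR, h⟩ := hn.supp
  obtain ⟨R', hR', h'⟩ := hm.supp
  refine ⟨⟨max R R', hR.trans (le_max_left _ _), fun w hw => ?_⟩, hn.int.sub (hm.int.const_mul l)⟩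
  rw [h w fun h1 => hw (KR_mono hR (le_max_left _ _) h1), h' w fun h1 => hw (KR_mono hR' (le_max_right _ _) h1), mul_zero, sub_zero]

theorem cv_comb (hn : GKer n) (hm : GKer m) (l : ℝ) (hφ : ContinuousOn φ hp) (hz : z ∈ hp) :
    cv (fun w => n w - l * m w) φ z = cv n φ z - l * cv m φ z := by
  unfold cv
  rw [← integral_const_mul, ← integral_sub (cv_integrable hn hφ hz) ((cv_integrable hm hφ hz).const_mul l)]
  congr 1
  funext w
  ring

/-- The difference of two convolutions, estimated pointwise. -/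
theorem cv_abs_le (hn : GKer n) (h0 : ∀ w, 0 ≤ n w) (hφ : ContinuousOn φ hp) {M : ℝ} (h : ∀ w ∈ hp, |φ w| ≤ M) (hz : z ∈ hp) :
    |cv n φ z| ≤ M * ∫ w, n w := by
  unfold cv
  rw [← integral_const_mul, ← Real.norm_eq_abs]
  refine norm_integral_le_of_norm_le (hn.int.const_mul M) (Eventually.of_forall fun w => ?_)
  refine Cv_on hn (P := fun w => ‖φ (aff z w) * n w‖ ≤ M * n w) (fun w hw => by rw [hw, mul_zero, mul_zero, norm_zero])
    (fun w hw => ?_) w
  rw [norm_mul, Real.norm_eq_abs, Real.norm_of_nonneg (h0 w)]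
  exact mul_le_mul_of_nonneg_right (h _ (aff_mem hz hw)) (h0 w)

theorem cv_continuousOn (hn : GKer n) (hφ : ContinuousOn φ hp) : ContinuousOn (cv n φ) hp := by
  intro z₀ hz₀
  refine ContinuousAt.continuousWithinAt ?_
  obtain ⟨R, hR, h0⟩ := hn.supp
  obtain ⟨r, hr, hball⟩ := Metric.nhds_basis_closedBall.mem_iff.1 (isOpen_hp.mem_nhds hz₀)
  obtain ⟨M, hM0, hM⟩ := aff_bound hφ (isCompact_closedBall z₀ r) hball hR
  have hnear : ∀ᶠ z in 𝓝 z₀, z ∈ Metric.closedBall z₀ r := Metric.closedBall_mem_nhds z₀ hr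
  unfold cv
  refine continuousAt_of_dominated (bound := fun w => M * ‖n w‖) ?_ ?_ (hn.int.norm.const_mul M) ?_
  · filter_upwards [hnear] with z hz
    exact (cv_integrable hn hφ (hball hz)).aestronglyMeasurable
  · filter_upwards [hnear] with z hz
    refine Eventually.of_forall fun w => ?_
    rw [norm_mul]
    by_cases hw : w ∈ KR R
    · rw [Real.norm_eq_abs (φ _)]
      exact mul_le_mul_of_nonneg_right (hM z hz w hw) (norm_nonneg _)
    · rw [h0 w hw, norm_zero, mul_zero, mul_zero]
  · refine Eventually.of_forall fun w => ?_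
    by_cases hw : w ∈ KR R
    · have h1 : ContinuousAt φ (aff z₀ w) := hφ.continuousAt (isOpen_hp.mem_nhds (aff_mem hz₀ (KR_sub hR hw)))
      have h2 : Continuous (fun z : ℂ => aff z w) := continuous_aff.comp (continuous_id.prodMk continuous_const)
      exact (ContinuousAt.comp (f := fun z : ℂ => aff z w) h1 h2.continuousAt).mul continuousAt_const
    · simp only [h0 w hw, mul_zero]
      exact continuousAt_const

end KW
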