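import Pool.Agent.Lib.MP_464db4_gt.KW.Cv

/-!
# KW-CvS: the convolution of a continuous function with a `C¹` kernel

`N : ℂ → ℝ` of class `C¹`, zero off `KR R` (so with compact support).  For `z = x + i y ∈ hp`: `cv N φ z = ∫ φ (x + y w) N w dw = ∫ φ w' N ((w' - x)/y) y⁻² dw'` (substitution `w' = x + y w`, Lebesgue measure on `ℂ`,
real dimension 2: `MeasureTheory.Measure.integral_comp_smul` / `integral_comp_mul_left`..., `integral_add_right_eq_self`).  The function `(z, w') ↦ N ((w' - x)/y) y⁻²` is `C¹` on `hp × ℂ`; its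
derivative in `z` at `v` is `- y⁻³ * (v.re * kA N w + v.im * kE N w)`, `w = (w' - x)/y` (`∂_x: - y⁻³ N_ξ(w)`, `∂_y: -2 y⁻³ N(w) - y⁻² DN(w)((w' - x)/y²) = - y⁻³ (2 N w + DN(w) w)`).
For `z` in a small closed ball in `hp` all these functions of `w'` vanish off a fixed compact subset of `hp` (the image of `ball × KR R` under `aff`), where `φ` is bounded; differentiate under the integral
(`hasFDerivAt_integral_of_dominated_of_fderiv_le`) and substitute back.
-/

namespace KW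

open Complex MeasureTheory Set Filter Topology
open scoped ContDiff

variable {N φ : ℂ → ℝ} {z : ℂ} {R : ℝ}

theorem cv_subst (N φ : ℂ → ℝ) (hz : z ∈ hp) :
    cv N φ z = ∫ w, φ w * (N ((w - (z.re : ℂ)) / (z.im : ℂ)) / z.im ^ 2) := by
  have hy : 0 < z.im := hz
  have hyc : (z.im : ℂ) ≠ 0 := by exact_mod_cast hy.ne'
  set G : ℂ → ℝ := fun w => φ w * (N ((w - (z.re : ℂ)) / (z.im : ℂ)) / z.im ^ 2) with hG
  have h1 : ∫ w, G w = ∫ w, G ((z.re : ℂ) + w) := (integral_add_left_eq_self G (z.re : ℂ)).symm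
  have h2 := Measure.integral_comp_smul (volume : Measure ℂ) (fun w => G ((z.re : ℂ) + w)) z.im
  have h3 : ∀ w : ℂ, G ((z.re : ℂ) + z.im • w) = (z.im ^ 2)⁻¹ * (φ (aff z w) * N w) := by
    intro w
    have e1 : (z.re : ℂ) + z.im • w = aff z w := by
      unfold aff; rw [Complex.real_smul]
    have e2 : (aff z w - (z.re : ℂ)) / (z.im : ℂ) = w := by
      unfold aff; field_simp; ring
    simp only [hG]
    rw [e1, e2]
    ring
  have h4 : ∫ w, G ((z.re : ℂ) + z.im • w) = (z.im ^ 2)⁻¹ * cv N φ z := by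
    simp_rw [h3]
    rw [integral_const_mul]
    rfl
  rw [h4, Complex.finrank_real_complex, abs_of_pos (by positivity), smul_eq_mul, ← h1] at h2
  have h5 : (z.im ^ 2)⁻¹ ≠ 0 := by positivity
  exact mul_left_cancel₀ h5 h2

private theorem fz (h0 : ∀ w ∉ KR R, N w = 0) {w : ℂ} (hw : w ∉ KR R) : fderiv ℝ N w = 0 := by
  have ho : IsOpen (KR R)ᶜ := (isCompact_KR R).isClosed.isOpen_compl
  have he : N =ᶠ[𝓝 w] (fun _ => (0 : ℝ)) := by
    filter_upwards [ho.mem_nhds hw] with v hv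
    exact h0 v hv
  rw [he.fderiv_eq]
  simp

theorem kA_zero (h0 : ∀ w ∉ KR R, N w = 0) {w : ℂ} (hw : w ∉ KR R) : kA N w = 0 := by
  unfold kA
  rw [fz h0 hw]
  simp

theorem kE_zero (h0 : ∀ w ∉ KR R, N w = 0) {w : ℂ} (hw : w ∉ KR R) : kE N w = 0 := by
  unfold kE
  rw [fz h0 hw, h0 w hw]
  simp

private theorem kA_cont (hN : ContDiff ℝ 1 N) : Continuous (kA N) := by
  unfold kA
  exact (hN.continuous_fderiv one_ne_zero).clm_apply continuous_const

private theorem kE_cont (hN : ContDiff ℝ 1 N) : Continuous (kE N) := by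
  unfold kE
  exact (continuous_const.mul hN.continuous).add ((hN.continuous_fderiv one_ne_zero).clm_apply continuous_id)

private theorem gker_of_cont {n : ℂ → ℝ} (hR : 0 ≤ R) (hn : Continuous n) (h0 : ∀ w ∉ KR R, n w = 0) : GKer n := by
  refine ⟨⟨R, hR, h0⟩, hn.integrable_of_hasCompactSupport ?_⟩
  exact HasCompactSupport.intro (isCompact_KR R) h0

theorem GKer.of_contDiff (hR : 0 ≤ R) (hN : ContDiff ℝ 1 N) (h0 : ∀ w ∉ KR R, N w = 0) : GKer N ∧ GKer (kA N) ∧ GKer (kE N) :=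
  ⟨gker_of_cont hR hN.continuous h0, gker_of_cont hR (kA_cont hN) (fun _ hw => kA_zero h0 hw),
    gker_of_cont hR (kE_cont hN) (fun _ hw => kE_zero h0 hw)⟩

private theorem cont_mul {g : ℂ → ℝ} {K : Set ℂ} (hφ : ContinuousOn φ hp) (hg : Continuous g) (hK : IsCompact K) (hKh : K ⊆ hp)
    (h0 : ∀ w ∉ K, g w = 0) : Continuous (fun w => φ w * g w) := by
  rw [continuous_iff_continuousAt]
  intro w
  by_cases hw : w ∈ hp
  · exact (hφ.continuousAt (isOpen_hp.mem_nhds hw)).mul hg.continuousAt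
  · have hwK : w ∉ K := fun h => hw (hKh h)
    have he : (fun w => φ w * g w) =ᶠ[𝓝 w] (fun _ => (0 : ℝ)) := by
      filter_upwards [hK.isClosed.isOpen_compl.mem_nhds hwK] with v hv
      rw [h0 v hv, mul_zero]
    exact continuousAt_const.congr he.symm

private theorem hasComp {n : ℂ → ℝ} (hn : Continuous n) (h0 : ∀ w ∉ KR R, n w = 0) : ∃ M : ℝ, 0 ≤ M ∧ ∀ w, |n w| ≤ M := by
  obtain ⟨M, hM⟩ := (isCompact_KR R).exists_bound_of_continuousOn hn.continuousOn
  refine ⟨max M 0, le_max_right _ _, fun w => ?_⟩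
  by_cases hw : w ∈ KR R
  · exact (hM w hw).trans (le_max_left _ _)
  · rw [h0 w hw]; simp

/-- The derivative of the integrand. -/
private theorem integrand_deriv (hN : ContDiff ℝ 1 N) (hz : z ∈ hp) (c : ℝ) (w' : ℂ) :
    HasFDerivAt (fun z : ℂ => c * (N ((w' - (z.re : ℂ)) / (z.im : ℂ)) / z.im ^ 2))
      ((c * (-(kA N ((w' - (z.re : ℂ)) / (z.im : ℂ))) / z.im ^ 3)) • reCLM +
        (c * (-(kE N ((w' - (z.re : ℂ)) / (z.im : ℂ))) / z.im ^ 3)) • imCLM) z := by
  have hy : 0 < z.im := hz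
  have hyc : (z.im : ℂ) ≠ 0 := by exact_mod_cast hy.ne'
  have hre : HasFDerivAt (fun z : ℂ => z.re) reCLM z := reCLM.hasFDerivAt
  have him : HasFDerivAt (fun z : ℂ => z.im) imCLM z := imCLM.hasFDerivAt
  have hinv : HasFDerivAt (fun z : ℂ => z.im⁻¹) (-(z.im ^ 2)⁻¹ • imCLM) z :=
    (hasDerivAt_inv hy.ne').comp_hasFDerivAt z him
  have hreC : HasFDerivAt (fun z : ℂ => w' - (z.re : ℂ)) (-(ofRealCLM.comp reCLM)) z :=
    (ofRealCLM.hasFDerivAt.comp z hre).const_sub w'
  have hw : HasFDerivAt (fun z : ℂ => z.im⁻¹ • (w' - (z.re : ℂ)))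
      (z.im⁻¹ • (-(ofRealCLM.comp reCLM)) + (-(z.im ^ 2)⁻¹ • imCLM).smulRight (w' - (z.re : ℂ))) z := hinv.smul hreC
  set w : ℂ := z.im⁻¹ • (w' - (z.re : ℂ)) with hwd
  have e1 : ∀ v : ℂ, (z.im⁻¹ • (-(ofRealCLM.comp reCLM)) + (-(z.im ^ 2)⁻¹ • imCLM).smulRight (w' - (z.re : ℂ))) v =
      (-(z.im⁻¹ * v.re)) • (1 : ℂ) + (-(z.im⁻¹ * v.im)) • w := by
    intro v
    rw [hwd]
    simp only [_root_.add_apply, _root_.smul_apply, _root_.neg_apply, ContinuousLinearMap.comp_apply,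
      ContinuousLinearMap.smulRight_apply, reCLM_apply, imCLM_apply, ofRealCLM_apply, smul_eq_mul, Complex.real_smul]
    push_cast
    field_simp
  generalize z.im⁻¹ • (-(ofRealCLM.comp reCLM)) + (-(z.im ^ 2)⁻¹ • imCLM).smulRight (w' - (z.re : ℂ)) = L at hw e1
  have hNw : HasFDerivAt N (fderiv ℝ N w) w := (hN.differentiable one_ne_zero w).hasFDerivAt
  have hNc := hNw.comp z hw
  have hinv2 : HasFDerivAt (fun z : ℂ => (z.im⁻¹) ^ 2) ((2 * z.im⁻¹) • (-(z.im ^ 2)⁻¹ • imCLM)) z := by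
    have := hinv.pow 2
    simpa using this
  have hmul := (hNc.mul hinv2).const_mul c
  have hfun : (fun z : ℂ => c * (N ((w' - (z.re : ℂ)) / (z.im : ℂ)) / z.im ^ 2)) =
      fun z : ℂ => c * ((N ∘ fun z : ℂ => z.im⁻¹ • (w' - (z.re : ℂ))) z * (z.im⁻¹) ^ 2) := by
    funext v
    simp only [Function.comp, Complex.real_smul, Complex.ofReal_inv]
    rw [div_eq_mul_inv _ (v.im ^ 2), div_eq_inv_mul, inv_pow]
  rw [hfun]
  have hww : (w' - (z.re : ℂ)) / (z.im : ℂ) = w := by
    rw [hwd, Complex.real_smul, Complex.ofReal_inv, div_eq_inv_mul]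
  rw [hww]
  refine hmul.congr_fderiv ?_
  refine ContinuousLinearMap.ext fun v => ?_
  have e2 : fderiv ℝ N w (L v) =
      (-(z.im⁻¹ * v.re)) * kA N w + (-(z.im⁻¹ * v.im)) * (kE N w - 2 * N w) := by
    rw [e1, map_add, map_smul, map_smul]
    unfold kA kE
    simp only [smul_eq_mul]
    ring
  simp only [_root_.add_apply, _root_.smul_apply, ContinuousLinearMap.comp_apply, reCLM_apply, imCLM_apply, smul_eq_mul,
    Function.comp, ← hwd, e2]
  field_simp
  ring

theorem cvs_hasFDerivAt (hR : 0 ≤ R) (hN : ContDiff ℝ 1 N) (h0 : ∀ w ∉ KR R, N w = 0) (hφ : ContinuousOn φ hp) (hz : z ∈ hp) :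
    HasFDerivAt (cv N φ) ((-(z.im⁻¹ * cv (kA N) φ z)) • reCLM + (-(z.im⁻¹ * cv (kE N) φ z)) • imCLM) z := by
  obtain ⟨δ, hδ, hδs⟩ := Metric.nhds_basis_closedBall.mem_iff.mp (isOpen_hp.mem_nhds hz)
  have hCc : IsCompact (Metric.closedBall z δ) := isCompact_closedBall z δ
  set C : Set ℂ := Metric.closedBall z δ with hC
  have hzC : z ∈ C := Metric.mem_closedBall_self hδ.le
  have hCn : C ∈ 𝓝 z := Metric.closedBall_mem_nhds z hδ
  -- the compact set containing all supports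
  set K : Set ℂ := (fun p : ℂ × ℂ => aff p.1 p.2) '' (C ×ˢ KR R) with hK
  have hKc : IsCompact K := (hCc.prod (isCompact_KR R)).image continuous_aff
  have hKh : K ⊆ hp := by
    rintro _ ⟨⟨a, b⟩, ⟨ha, hb⟩, rfl⟩
    exact aff_mem (hδs ha) (KR_sub hR hb)
  have hoff : ∀ v ∈ C, ∀ w' ∉ K, (w' - (v.re : ℂ)) / (v.im : ℂ) ∉ KR R := by
    intro v hv w' hw' hc
    have hvy : (v.im : ℂ) ≠ 0 := by exact_mod_cast (show (0 : ℝ) < v.im from hδs hv).ne'
    refine hw' ⟨(v, (w' - (v.re : ℂ)) / (v.im : ℂ)), ⟨hv, hc⟩, ?_⟩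
    simp only [aff]
    field_simp
    ring
  obtain ⟨M, hM⟩ := hKc.exists_bound_of_continuousOn (hφ.mono hKh)
  obtain ⟨A, hA0, hA⟩ := hasComp (kA_cont hN) (fun w hw => kA_zero h0 hw)
  obtain ⟨E, hE0, hE⟩ := hasComp (kE_cont hN) (fun w hw => kE_zero h0 hw)
  obtain ⟨m, hm⟩ := hCc.exists_bound_of_continuousOn (f := fun v : ℂ => (v.im ^ 3)⁻¹)
    (ContinuousOn.inv₀ (continuous_im.pow 3).continuousOn (fun v hv => by have : (0 : ℝ) < v.im := hδs hv; positivity))
  have hcw : ∀ v : ℂ, Continuous (fun w' : ℂ => (w' - (v.re : ℂ)) / (v.im : ℂ)) := fun v =>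
    (continuous_id.sub continuous_const).div_const _
  have hcont : ∀ v ∈ C, Continuous (fun w' : ℂ => φ w' * (N ((w' - (v.re : ℂ)) / (v.im : ℂ)) / v.im ^ 2)) := fun v hv =>
    cont_mul hφ ((hN.continuous.comp (hcw v)).div_const _) hKc hKh (fun w' hw' => by rw [h0 _ (hoff v hv w' hw'), zero_div])
  have hcontA : Continuous (fun w' : ℂ => φ w' * (-(kA N ((w' - (z.re : ℂ)) / (z.im : ℂ))) / z.im ^ 3)) :=
    cont_mul hφ (((kA_cont hN).comp (hcw z)).neg.div_const _) hKc hKh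
      (fun w' hw' => by rw [kA_zero h0 (hoff z hzC w' hw'), neg_zero, zero_div])
  have hcontE : Continuous (fun w' : ℂ => φ w' * (-(kE N ((w' - (z.re : ℂ)) / (z.im : ℂ))) / z.im ^ 3)) :=
    cont_mul hφ (((kE_cont hN).comp (hcw z)).neg.div_const _) hKc hKh
      (fun w' hw' => by rw [kE_zero h0 (hoff z hzC w' hw'), neg_zero, zero_div])
  have hcsN : HasCompactSupport (fun w' : ℂ => φ w' * (N ((w' - (z.re : ℂ)) / (z.im : ℂ)) / z.im ^ 2)) :=
    HasCompactSupport.intro hKc (fun w' hw' => by rw [h0 _ (hoff z hzC w' hw'), zero_div, mul_zero])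
  have hcsA : HasCompactSupport (fun w' : ℂ => φ w' * (-(kA N ((w' - (z.re : ℂ)) / (z.im : ℂ))) / z.im ^ 3)) :=
    HasCompactSupport.intro hKc (fun w' hw' => by rw [kA_zero h0 (hoff z hzC w' hw'), neg_zero, zero_div, mul_zero])
  have hcsE : HasCompactSupport (fun w' : ℂ => φ w' * (-(kE N ((w' - (z.re : ℂ)) / (z.im : ℂ))) / z.im ^ 3)) :=
    HasCompactSupport.intro hKc (fun w' hw' => by rw [kE_zero h0 (hoff z hzC w' hw'), neg_zero, zero_div, mul_zero])
  have hiA := hcontA.integrable_of_hasCompactSupport (μ := volume) hcsA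
  have hiE := hcontE.integrable_of_hasCompactSupport (μ := volume) hcsE
  have key := hasFDerivAt_integral_of_dominated_of_fderiv_le (μ := (volume : Measure ℂ)) (𝕜 := ℝ)
    (F := fun (v : ℂ) (w' : ℂ) => φ w' * (N ((w' - (v.re : ℂ)) / (v.im : ℂ)) / v.im ^ 2))
    (F' := fun (v : ℂ) (w' : ℂ) => (φ w' * (-(kA N ((w' - (v.re : ℂ)) / (v.im : ℂ))) / v.im ^ 3)) • reCLM +
        (φ w' * (-(kE N ((w' - (v.re : ℂ)) / (v.im : ℂ))) / v.im ^ 3)) • imCLM)
    (x₀ := z) (s := C) (bound := K.indicator (fun _ => M * (A * m) + M * (E * m))) hCn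
    (by filter_upwards [hCn] with v hv using (hcont v hv).aestronglyMeasurable)
    ((hcont z hzC).integrable_of_hasCompactSupport hcsN)
    ((hcontA.smul continuous_const).add (hcontE.smul continuous_const)).aestronglyMeasurable
    (by
      refine Filter.Eventually.of_forall fun w' v hv => ?_
      by_cases hw' : w' ∈ K
      · rw [indicator_of_mem hw']
        have hMw := hM w' hw'
        have hmv := hm v hv
        rw [Real.norm_eq_abs] at hMw
        have hM0 : 0 ≤ M := (abs_nonneg _).trans hMw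
        have hvy : (0 : ℝ) < v.im := hδs hv
        rw [Real.norm_eq_abs, abs_of_pos (by positivity)] at hmv
        have hm0 : 0 ≤ m := le_trans (by positivity) hmv
        refine (norm_add_le _ _).trans (add_le_add ?_ ?_)
        · rw [norm_smul, reCLM_norm, mul_one, norm_mul, Real.norm_eq_abs, Real.norm_eq_abs, abs_div, abs_neg, abs_of_pos (a := v.im ^ 3) (by positivity),
            div_eq_mul_inv]
          gcongr
          exact hA _
        · rw [norm_smul, imCLM_norm, mul_one, norm_mul, Real.norm_eq_abs, Real.norm_eq_abs, abs_div, abs_neg, abs_of_pos (a := v.im ^ 3) (by positivity),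
            div_eq_mul_inv]
          gcongr
          exact hE _
      · rw [indicator_of_notMem hw', kA_zero h0 (hoff v hv w' hw'), kE_zero h0 (hoff v hv w' hw')]
        simp)
    ((integrable_indicator_iff hKc.measurableSet).mpr (integrableOn_const hKc.measure_ne_top))
    (Filter.Eventually.of_forall fun w' v hv => integrand_deriv hN (hδs hv) (φ w') w')
  have hval : (∫ w', (φ w' * (-(kA N ((w' - (z.re : ℂ)) / (z.im : ℂ))) / z.im ^ 3)) • reCLM +
        (φ w' * (-(kE N ((w' - (z.re : ℂ)) / (z.im : ℂ))) / z.im ^ 3)) • imCLM) =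
      (-(z.im⁻¹ * cv (kA N) φ z)) • reCLM + (-(z.im⁻¹ * cv (kE N) φ z)) • imCLM := by
    have hy : (0 : ℝ) < z.im := hz
    have t1 : (∫ w', φ w' * (-(kA N ((w' - (z.re : ℂ)) / (z.im : ℂ))) / z.im ^ 3)) = -(z.im⁻¹ * cv (kA N) φ z) := by
      rw [cv_subst (kA N) φ hz, ← integral_const_mul, ← integral_neg]
      refine integral_congr_ae (Filter.Eventually.of_forall fun w' => ?_)
      simp only
      field_simp
    have t2 : (∫ w', φ w' * (-(kE N ((w' - (z.re : ℂ)) / (z.im : ℂ))) / z.im ^ 3)) = -(z.im⁻¹ * cv (kE N) φ z) := by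
      rw [cv_subst (kE N) φ hz, ← integral_const_mul, ← integral_neg]
      refine integral_congr_ae (Filter.Eventually.of_forall fun w' => ?_)
      simp only
      field_simp
    rw [integral_add (hiA.smul_const _) (hiE.smul_const _), integral_smul_const, integral_smul_const, t1, t2]
  rw [hval] at key
  refine key.congr_of_eventuallyEq ?_
  filter_upwards [hCn] with v hv
  exact cv_subst N φ (hδs hv)

end KW
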