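import Pool.Agent.Lib.MP_464db4_gt.KW.CvS

/-!
# KW-CvW: the convolution of a continuous function with a kernel of class `WKer` is `C¹`

On a compact `C ⊆ hp` let `|φ (aff z w)| ≤ M` for `z ∈ C`, `w ∈ KR R` (`aff_bound`).  Then `|cv (N j) φ z - cv n φ z| ≤ M ∫ |N j - n| → 0`, uniformly on `C`, and the same for `kA (N j)`, `a` and for `kE (N j)`, `b`.
So the functions `cv (N j) φ` converge on `hp` pointwise and their derivatives (`cvs_hasFDerivAt`) converge locally uniformly to `(-(y⁻¹ cv a φ)) • re + (-(y⁻¹ cv b φ)) • im`: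
`hasFDerivAt_of_tendstoLocallyUniformlyOn`.  The limit derivative is continuous on `hp` by `cv_continuousOn`, so `cv n φ` is of class `C¹` (`contDiffOn_one_iff_fderiv_of_isOpen` or
`contDiffOn_succ_iff_fderiv_of_isOpen`).
-/

namespace KW

open Complex MeasureTheory Set Filter Topology
open scoped ContDiff

variable {n a b φ : ℂ → ℝ} {R : ℝ} {N : ℕ → ℂ → ℝ} {z : ℂ}

/-- The difference of two convolutions. -/
private theorem cvw_diff {g k : ℂ → ℝ} (hg : GKer g) (hk : GKer k) (hg0 : ∀ w ∉ KR R, g w = 0)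
    (hk0 : ∀ w ∉ KR R, k w = 0) (hφ : ContinuousOn φ hp) (hz : z ∈ hp) {M : ℝ} (hM : 0 ≤ M)
    (hb : ∀ w ∈ KR R, |φ (aff z w)| ≤ M) : |cv g φ z - cv k φ z| ≤ M * ∫ w, |g w - k w| := by
  have h1 := cv_integrable hg hφ hz
  have h2 := cv_integrable hk hφ hz
  have h3 : cv g φ z - cv k φ z = ∫ w, φ (aff z w) * (g w - k w) := by
    unfold cv
    rw [← integral_sub h1 h2]
    refine integral_congr_ae (Filter.Eventually.of_forall fun w => ?_)
    simp only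
    ring
  rw [h3, ← Real.norm_eq_abs, ← integral_const_mul]
  refine (norm_integral_le_integral_norm _).trans ?_
  refine integral_mono_of_nonneg (Filter.Eventually.of_forall fun w => norm_nonneg _)
    (((hg.int.sub hk.int).abs).const_mul M) (Filter.Eventually.of_forall fun w => ?_)
  simp only [norm_mul, Real.norm_eq_abs]
  by_cases hw : w ∈ KR R
  · exact mul_le_mul_of_nonneg_right (hb w hw) (abs_nonneg _)
  · rw [hg0 w hw, hk0 w hw]
    simp

private theorem cvw_unif {g : ℕ → ℂ → ℝ} {k : ℂ → ℝ} (hR : 0 ≤ R) (hg : ∀ j, GKer (g j)) (hk : GKer k)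
    (hg0 : ∀ j, ∀ w ∉ KR R, g j w = 0) (hk0 : ∀ w ∉ KR R, k w = 0)
    (hlim : Tendsto (fun j => ∫ w, |g j w - k w|) atTop (𝓝 0)) (hφ : ContinuousOn φ hp) {C : Set ℂ}
    (hC : IsCompact C) (hCh : C ⊆ hp) {ε : ℝ} (hε : 0 < ε) :
    ∀ᶠ j in atTop, ∀ z ∈ C, |cv (g j) φ z - cv k φ z| < ε := by
  obtain ⟨M, hM, hb⟩ := aff_bound hφ hC hCh hR
  have h1 : Tendsto (fun j => M * ∫ w, |g j w - k w|) atTop (𝓝 0) := by
    simpa using hlim.const_mul M
  filter_upwards [h1.eventually (gt_mem_nhds hε)] with j hj z hz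
  exact lt_of_le_of_lt (cvw_diff (hg j) hk (hg0 j) hk0 hφ (hCh hz) hM (hb z hz)) hj

private theorem cvw_im {C : Set ℂ} (hC : IsCompact C) (hCh : C ⊆ hp) :
    ∃ B : ℝ, 0 < B ∧ ∀ z ∈ C, |z.im⁻¹| ≤ B := by
  have h1 : ContinuousOn (fun z : ℂ => z.im⁻¹) C :=
    Complex.continuous_im.continuousOn.inv₀ fun z hz => (mem_hp.1 (hCh hz)).ne'
  obtain ⟨B, hB⟩ := hC.exists_bound_of_continuousOn h1
  exact ⟨max B 1, lt_max_of_lt_right one_pos, fun z hz => (hB z hz).trans (le_max_left _ _)⟩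

private theorem cvw_re (c : ℝ) : ‖c • reCLM‖ ≤ |c| := by
  rw [norm_smul, Real.norm_eq_abs]
  have h : ‖reCLM‖ ≤ 1 := reCLM_norm.le
  calc |c| * ‖reCLM‖ ≤ |c| * 1 := mul_le_mul_of_nonneg_left h (abs_nonneg _)
    _ = |c| := mul_one _

private theorem cvw_imn (c : ℝ) : ‖c • imCLM‖ ≤ |c| := by
  rw [norm_smul, Real.norm_eq_abs]
  have h : ‖imCLM‖ ≤ 1 := imCLM_norm.le
  calc |c| * ‖imCLM‖ ≤ |c| * 1 := mul_le_mul_of_nonneg_left h (abs_nonneg _)
    _ = |c| := mul_one _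

theorem cvw_hasFDerivAt (hn : WKer n a b R N) (hφ : ContinuousOn φ hp) (hz : z ∈ hp) :
    HasFDerivAt (cv n φ) ((-(z.im⁻¹ * cv a φ z)) • reCLM + (-(z.im⁻¹ * cv b φ z)) • imCLM) z := by
  have hG : ∀ j, GKer (N j) ∧ GKer (kA (N j)) ∧ GKer (kE (N j)) := fun j =>
    GKer.of_contDiff hn.R_nonneg (hn.N_smooth j) (hn.N_zero j)
  have hA0 : ∀ j, ∀ w ∉ KR R, kA (N j) w = 0 := fun j w hw => kA_zero (hn.N_zero j) hw
  have hE0 : ∀ j, ∀ w ∉ KR R, kE (N j) w = 0 := fun j w hw => kE_zero (hn.N_zero j) hw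
  have hl : TendstoLocallyUniformlyOn
      (fun j z => (-(z.im⁻¹ * cv (kA (N j)) φ z)) • reCLM + (-(z.im⁻¹ * cv (kE (N j)) φ z)) • imCLM)
      (fun z => (-(z.im⁻¹ * cv a φ z)) • reCLM + (-(z.im⁻¹ * cv b φ z)) • imCLM) atTop hp := by
    rw [tendstoLocallyUniformlyOn_iff_forall_isCompact isOpen_hp]
    intro C hCh hC
    rw [Metric.tendstoUniformlyOn_iff]
    intro ε hε
    obtain ⟨B, hB, hBz⟩ := cvw_im hC hCh
    have hε' : 0 < ε / (4 * B) := by positivity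
    filter_upwards [cvw_unif hn.R_nonneg (fun j => (hG j).2.1) hn.ga hA0 hn.a_zero hn.limA hφ hC hCh hε',
      cvw_unif hn.R_nonneg (fun j => (hG j).2.2) hn.gb hE0 hn.b_zero hn.limE hφ hC hCh hε'] with j hj1 hj2 w hw
    rw [dist_eq_norm]
    have h1 : ((-(w.im⁻¹ * cv a φ w)) • reCLM + (-(w.im⁻¹ * cv b φ w)) • imCLM) -
        ((-(w.im⁻¹ * cv (kA (N j)) φ w)) • reCLM + (-(w.im⁻¹ * cv (kE (N j)) φ w)) • imCLM) =
        (w.im⁻¹ * (cv (kA (N j)) φ w - cv a φ w)) • reCLM + (w.im⁻¹ * (cv (kE (N j)) φ w - cv b φ w)) • imCLM := by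
      module
    rw [h1]
    have h2 : |w.im⁻¹ * (cv (kA (N j)) φ w - cv a φ w)| ≤ B * (ε / (4 * B)) := by
      rw [abs_mul]
      exact mul_le_mul (hBz w hw) (hj1 w hw).le (abs_nonneg _) hB.le
    have h3 : |w.im⁻¹ * (cv (kE (N j)) φ w - cv b φ w)| ≤ B * (ε / (4 * B)) := by
      rw [abs_mul]
      exact mul_le_mul (hBz w hw) (hj2 w hw).le (abs_nonneg _) hB.le
    have h4 : B * (ε / (4 * B)) = ε / 4 := by field_simp
    rw [h4] at h2 h3
    calc _ ≤ ‖(w.im⁻¹ * (cv (kA (N j)) φ w - cv a φ w)) • reCLM‖ +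
          ‖(w.im⁻¹ * (cv (kE (N j)) φ w - cv b φ w)) • imCLM‖ := norm_add_le _ _
      _ ≤ ε / 4 + ε / 4 := add_le_add ((cvw_re _).trans h2) ((cvw_imn _).trans h3)
      _ < ε := by linarith
  refine hasFDerivAt_of_tendstoLocallyUniformlyOn (f := fun j => cv (N j) φ) isOpen_hp hl
    (fun j x hx => cvs_hasFDerivAt hn.R_nonneg (hn.N_smooth j) (hn.N_zero j) hφ hx) (fun x hx => ?_) hz
  rw [Metric.tendsto_nhds]
  intro ε hε
  filter_upwards [cvw_unif hn.R_nonneg (fun j => (hG j).1) hn.gn hn.N_zero hn.n_zero hn.lim hφ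
    (isCompact_singleton (x := x)) (Set.singleton_subset_iff.2 hx) hε] with j hj
  rw [Real.dist_eq]
  exact hj x rfl

theorem cvw_contDiffOn (hn : WKer n a b R N) (hφ : ContinuousOn φ hp) : ContDiffOn ℝ 1 (cv n φ) hp := by
  have h0 : (1 : ℕ∞ω) = 0 + 1 := by simp
  rw [h0, contDiffOn_succ_iff_fderiv_of_isOpen isOpen_hp]
  refine ⟨fun z hz => (cvw_hasFDerivAt hn hφ hz).differentiableAt.differentiableWithinAt,
    fun h => absurd h (by simp), ?_⟩
  rw [contDiffOn_zero]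
  have h1 : ContinuousOn (fun z : ℂ => (-(z.im⁻¹ * cv a φ z)) • reCLM + (-(z.im⁻¹ * cv b φ z)) • imCLM) hp := by
    have hi : ContinuousOn (fun z : ℂ => z.im⁻¹) hp :=
      Complex.continuous_im.continuousOn.inv₀ fun z hz => (mem_hp.1 hz).ne'
    exact (((hi.mul (cv_continuousOn hn.ga hφ)).neg.smul continuousOn_const).add
      ((hi.mul (cv_continuousOn hn.gb hφ)).neg.smul continuousOn_const))
  exact h1.congr fun z hz => (cvw_hasFDerivAt hn hφ hz).fderiv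

end KW
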