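import Mathlib

/-!
# KW-Defs: the Kazdan-Warner equation on a compact hyperbolic curve, definitions

Functions on the upper half plane `hp ⊆ ℂ`; hyperbolic Laplacian `lapH = y² (∂_x² + ∂_y²)`; convolution with a kernel: `aff z w = x + y w` (`z = x + i y`) is the
affine map taking `i` to `z`, `cv n φ z = ∫ φ (aff z w) n w dw` (Lebesgue measure).  Point-pair kernels: `qq w = |w - i|² / (4 im w)`, `kn ν w = ν (qq w) / (im w)²`.
`KR R = {qq ≤ R}` is a compact subset of `hp`.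
-/

namespace KW

open Complex MeasureTheory Set Filter Topology
open scoped ContDiff

/-- The upper half plane. -/
def hp : Set ℂ := {w | 0 < w.im}

/-- `∂φ/∂x`. -/
noncomputable def dx (φ : ℂ → ℝ) (w : ℂ) : ℝ := fderiv ℝ φ w 1

/-- `∂φ/∂y`. -/
noncomputable def dy (φ : ℂ → ℝ) (w : ℂ) : ℝ := fderiv ℝ φ w I

/-- The Euclidean Laplacian. -/
noncomputable def lapE (φ : ℂ → ℝ) (w : ℂ) : ℝ := dx (dx φ) w + dy (dy φ) w

/-- The hyperbolic Laplacian. -/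
noncomputable def lapH (φ : ℂ → ℝ) (w : ℂ) : ℝ := w.im ^ 2 * lapE φ w

/-- The Killing field `x ∂_x + y ∂_y`. -/
noncomputable def L0 (φ : ℂ → ℝ) (w : ℂ) : ℝ := w.re * dx φ w + w.im * dy φ w

/-- The Killing field `(x² - y²) ∂_x + 2 x y ∂_y`. -/
noncomputable def L1 (φ : ℂ → ℝ) (w : ℂ) : ℝ := (w.re ^ 2 - w.im ^ 2) * dx φ w + 2 * w.re * w.im * dy φ w

/-- The affine map `w ↦ x + y w`, `z = x + i y`. -/
noncomputable def aff (z w : ℂ) : ℂ := (z.re : ℂ) + (z.im : ℂ) * w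

/-- Convolution of `φ` with the kernel `n`. -/
noncomputable def cv (n φ : ℂ → ℝ) (z : ℂ) : ℝ := ∫ w, φ (aff z w) * n w

/-- The point-pair invariant `|w - i|² / (4 im w)`. -/
noncomputable def qq (w : ℂ) : ℝ := (w.re ^ 2 + w.im ^ 2 + 1) / (4 * w.im) - 1 / 2

/-- The set `qq ≤ R` (a closed disc in the upper half plane, if `0 ≤ R`). -/
def KR (R : ℝ) : Set ℂ := {w | w.re ^ 2 + w.im ^ 2 + 1 ≤ (4 * R + 2) * w.im}

/-- The extension by zero of a function on the upper half plane. -/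
noncomputable def ex (g : ℂ → ℝ) (w : ℂ) : ℝ := by
  classical exact if 0 < w.im then g w else 0

/-- The radial kernel with profile `ν`. -/
noncomputable def kn (ν : ℝ → ℝ) : ℂ → ℝ := ex (fun w => ν (qq w) / w.im ^ 2)

/-- Integrable kernels supported in some `KR R`. -/
structure GKer (n : ℂ → ℝ) : Prop where
  supp : ∃ R : ℝ, 0 ≤ R ∧ ∀ w ∉ KR R, n w = 0
  int : Integrable n

/-- The kernel `∂_x N` (for the derivative of `cv N φ` in `x`). -/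
noncomputable def kA (N : ℂ → ℝ) (w : ℂ) : ℝ := fderiv ℝ N w 1

/-- The kernel `2 N + (x ∂_x + y ∂_y) N` (for the derivative of `cv N φ` in `y`). -/
noncomputable def kE (N : ℂ → ℝ) (w : ℂ) : ℝ := 2 * N w + fderiv ℝ N w w

/-- `n` is the limit in `L¹` of `C¹` kernels `N j` supported in a fixed `KR R`, and `kA (N j)`, `kE (N j)` converge in `L¹` to `a`, `b`. -/
structure WKer (n a b : ℂ → ℝ) (R : ℝ) (N : ℕ → ℂ → ℝ) : Prop where
  R_nonneg : 0 ≤ R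
  gn : GKer n
  ga : GKer a
  gb : GKer b
  n_zero : ∀ w ∉ KR R, n w = 0
  a_zero : ∀ w ∉ KR R, a w = 0
  b_zero : ∀ w ∉ KR R, b w = 0
  N_smooth : ∀ j, ContDiff ℝ 1 (N j)
  N_zero : ∀ j, ∀ w ∉ KR R, N j w = 0
  lim : Tendsto (fun j => ∫ w, |N j w - n w|) atTop (𝓝 0)
  limA : Tendsto (fun j => ∫ w, |kA (N j) w - a w|) atTop (𝓝 0)
  limE : Tendsto (fun j => ∫ w, |kE (N j) w - b w|) atTop (𝓝 0)

/-- Profiles with an integrable singularity at `0`, with integrable first derivative. -/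
structure Prof (ν : ℝ → ℝ) (R C : ℝ) : Prop where
  R_pos : 0 < R
  C_pos : 0 < C
  smooth : ContDiffOn ℝ 1 ν (Ioi 0)
  zero : ∀ q, R ≤ q → ν q = 0
  bd : ∀ q, 0 < q → |ν q| ≤ C * q ^ (-(1 / 4) : ℝ)
  bd' : ∀ q, 0 < q → |deriv ν q| ≤ C * q ^ (-(5 / 4) : ℝ)

/-- A pair of profiles `ν`, `κ`, `κ` the hyperbolic Laplacian of `ν`, with `Λ ν ≤ κ`, `ν` with a logarithmic singularity at `0`. -/
structure KPair (ν κ : ℝ → ℝ) (R C Λ : ℝ) : Prop where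
  profN : Prof ν R C
  profK : Prof κ R C
  smooth2 : ContDiffOn ℝ 2 ν (Ioi 0)
  nonneg : ∀ q, 0 ≤ q → 0 ≤ ν q
  le : ∀ q, 0 ≤ q → Λ * ν q ≤ κ q
  nonnegK : ∀ q, 0 ≤ q → 0 ≤ κ q
  bd1 : ∀ q, 0 < q → |deriv ν q| ≤ C / q
  bd2 : ∀ q, 0 < q → |deriv (deriv ν) q| ≤ C / q ^ 2
  eq : ∀ q, 0 < q → κ q = q * (q + 1) * deriv (deriv ν) q + (2 * q + 1) * deriv ν q
  posN : ∃ r, 0 < r ∧ ∀ q, 0 < q → q < r → 0 < ν q
  posK : ∃ r, 0 < r ∧ ∀ q, 0 < q → q < r → 0 < κ q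

/-- The Moebius transformation of `γ`. -/
noncomputable def mo (γ : Matrix.SpecialLinearGroup (Fin 2) ℝ) (z : ℂ) : ℂ :=
  (((γ 0 0 : ℝ) : ℂ) * z + ((γ 0 1 : ℝ) : ℂ)) / (((γ 1 0 : ℝ) : ℂ) * z + ((γ 1 1 : ℝ) : ℂ))

theorem mem_hp {w : ℂ} : w ∈ hp ↔ 0 < w.im := Iff.rfl

theorem ex_of_mem {g : ℂ → ℝ} {w : ℂ} (hw : w ∈ hp) : ex g w = g w := by
  unfold ex; exact if_pos hw

theorem ex_of_not_mem {g : ℂ → ℝ} {w : ℂ} (hw : w ∉ hp) : ex g w = 0 := by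
  unfold ex; exact if_neg hw

end KW
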