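import Pool.Agent.Lib.MP_464db4_gt.KW.QQ

/-!
# KW-Div: integrals of divergences, Green's formula

* `int_dx_zero`, `int_dy_zero`: for `P : ℂ → ℝ` of class `C¹` with compact support, `∫ fderiv P w v = 0` for every direction `v`
  (integration by parts with the constant function `1`).
* `int_div`: `P = ex A`, `Q = ex B` are `C¹` (`ex_contDiff`) with support in the compact set `KR R`; on the open set `hp` their derivatives are those of `A`, `B`; off `KR R` (open) they are zero.
* `green`: `A = dx g * n - g * dx n`, `B = dy g * n - g * dy n`: `dx A + dy B = lapE g * n - g * lapE n` on `hp`; off `hp` all the functions `n w`, `lapE n w` vanish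
  (`n = 0` on the open set `(KR R)ᶜ`).  The two integrands are continuous on `hp`, zero off `KR R`, so integrable.
-/

namespace KW

open Complex MeasureTheory Set Filter Topology
open scoped ContDiff

variable {P g n A B : ℂ → ℝ} {R : ℝ}

private theorem fd_zero (hP : ContDiff ℝ 1 P) (hc : HasCompactSupport P) (v : ℂ) : ∫ w, fderiv ℝ P w v = 0 := by
  have hcont : Continuous (fun w => fderiv ℝ P w v) := (hP.continuous_fderiv (by norm_num)).clm_apply continuous_const
  have hs : HasCompactSupport (fun w => fderiv ℝ P w v) := hc.fderiv_apply ℝ v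
  have h := integral_mul_fderiv_eq_neg_fderiv_mul_of_integrable (μ := volume) (f := fun _ : ℂ => (1 : ℝ)) (g := P) (v := v)
    (by simp) (by simpa using hcont.integrable_of_hasCompactSupport hs)
    (by simpa using hP.continuous.integrable_of_hasCompactSupport hc)
    (fun x _ => differentiableAt_const _) (fun x _ => (hP.differentiable (by norm_num)).differentiableAt)
  simpa using h

theorem int_dx_zero (hP : ContDiff ℝ 1 P) (hc : HasCompactSupport P) : ∫ w, dx P w = 0 :=
  fd_zero hP hc 1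

theorem int_dy_zero (hP : ContDiff ℝ 1 P) (hc : HasCompactSupport P) : ∫ w, dy P w = 0 :=
  fd_zero hP hc I

private theorem fd_int (hP : ContDiff ℝ 1 P) (hc : HasCompactSupport P) (v : ℂ) : Integrable (fun w => fderiv ℝ P w v) :=
  ((hP.continuous_fderiv (by norm_num)).clm_apply continuous_const).integrable_of_hasCompactSupport (hc.fderiv_apply ℝ v)

private theorem ex_ev (g : ℂ → ℝ) {w : ℂ} (hw : w ∈ hp) : ex g =ᶠ[𝓝 w] g := by
  filter_upwards [isOpen_hp.mem_nhds hw] with z hz
  exact ex_of_mem hz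

private theorem zero_ev {n : ℂ → ℝ} (h0 : ∀ w ∉ KR R, n w = 0) {w : ℂ} (hw : w ∉ KR R) : n =ᶠ[𝓝 w] fun _ => 0 := by
  filter_upwards [(isCompact_KR R).isClosed.isOpen_compl.mem_nhds hw] with z hz
  exact h0 z hz

private theorem fd_off {n : ℂ → ℝ} (h0 : ∀ w ∉ KR R, n w = 0) {w : ℂ} (hw : w ∉ KR R) : fderiv ℝ n w = 0 := by
  rw [(zero_ev h0 hw).fderiv_eq]
  simp

private theorem comp_supp {n : ℂ → ℝ} (h0 : ∀ w ∉ KR R, n w = 0) : HasCompactSupport n :=
  HasCompactSupport.intro (isCompact_KR R) h0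

theorem int_div (hR : 0 ≤ R) (hA : ContDiffOn ℝ 1 A hp) (hB : ContDiffOn ℝ 1 B hp) (hA0 : ∀ w ∈ hp, w ∉ KR R → A w = 0)
    (hB0 : ∀ w ∈ hp, w ∉ KR R → B w = 0) : ∫ w, ex (fun w => dx A w + dy B w) w = 0 := by
  have hP : ContDiff ℝ 1 (ex A) := by
    have := ex_contDiff (k := 1) hR (by exact_mod_cast hA) hA0
    exact_mod_cast this
  have hQ : ContDiff ℝ 1 (ex B) := by
    have := ex_contDiff (k := 1) hR (by exact_mod_cast hB) hB0
    exact_mod_cast this
  have hPc : ∀ w ∉ KR R, ex A w = 0 := fun w hw => ex_zero hA0 hw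
  have hQc : ∀ w ∉ KR R, ex B w = 0 := fun w hw => ex_zero hB0 hw
  have key : (fun w => ex (fun w => dx A w + dy B w) w) = fun w => dx (ex A) w + dy (ex B) w := by
    funext w
    by_cases hw : w ∈ hp
    · rw [ex_of_mem hw]
      unfold dx dy
      rw [(ex_ev A hw).fderiv_eq, (ex_ev B hw).fderiv_eq]
    · rw [ex_of_not_mem hw]
      have hw' : w ∉ KR R := fun h => hw (KR_sub hR h)
      unfold dx dy
      rw [fd_off hPc hw', fd_off hQc hw']
      simp
  have i1 : Integrable (dx (ex A)) := fd_int hP (comp_supp hPc) 1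
  have i2 : Integrable (dy (ex B)) := fd_int hQ (comp_supp hQc) I
  rw [key, integral_add i1 i2, int_dx_zero hP (comp_supp hPc), int_dy_zero hQ (comp_supp hQc), add_zero]

theorem integrable_of_contOn (hR : 0 ≤ R) {F : ℂ → ℝ} (hF : ContinuousOn F hp) (h0 : ∀ w ∉ KR R, F w = 0) : Integrable F := by
  have h1 : IntegrableOn F (KR R) := (hF.mono (KR_sub hR)).integrableOn_compact (isCompact_KR R)
  refine (integrableOn_iff_integrable_of_support_subset fun w hw => ?_).1 h1
  by_contra h
  exact hw (h0 w h)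

private theorem c1_dx {k : WithTop ℕ∞} (hg : ContDiffOn ℝ (k + 1) g hp) (v : ℂ) : ContDiffOn ℝ k (fun w => fderiv ℝ g w v) hp :=
  (hg.fderiv_of_isOpen isOpen_hp le_rfl).clm_apply contDiffOn_const

theorem green (hR : 0 ≤ R) (hn : ContDiff ℝ 2 n) (h0 : ∀ w ∉ KR R, n w = 0) (hg : ContDiffOn ℝ 2 g hp) :
    ∫ w, lapE g w * n w = ∫ w, g w * lapE n w := by
  have hg1 : ∀ v : ℂ, ContDiffOn ℝ 1 (fun w => fderiv ℝ g w v) hp := fun v => c1_dx (by
    have : (1 : WithTop ℕ∞) + 1 = 2 := by norm_num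
    rw [this]; exact hg) v
  have hn1 : ∀ v : ℂ, ContDiffOn ℝ 1 (fun w => fderiv ℝ n w v) hp := fun v => c1_dx (by
    have : (1 : WithTop ℕ∞) + 1 = 2 := by norm_num
    rw [this]; exact hn.contDiffOn) v
  have hg0 : ContDiffOn ℝ 1 g hp := hg.of_le (by norm_num)
  have hn0 : ContDiffOn ℝ 1 n hp := (hn.of_le (by norm_num)).contDiffOn
  have hnz : ∀ v : ℂ, ∀ w ∉ KR R, fderiv ℝ n w v = 0 := fun v w hw => by rw [fd_off h0 hw]; rfl
  have hnzz : ∀ v : ℂ, ∀ w ∉ KR R, fderiv ℝ (fun w => fderiv ℝ n w v) w v = 0 := fun v w hw => by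
    rw [fd_off (hnz v) hw]; rfl
  have hA : ∀ v : ℂ, ContDiffOn ℝ 1 (fun w => fderiv ℝ g w v * n w - g w * fderiv ℝ n w v) hp := fun v =>
    ((hg1 v).mul hn0).sub (hg0.mul (hn1 v))
  have hAz : ∀ v : ℂ, ∀ w ∈ hp, w ∉ KR R → (fun w => fderiv ℝ g w v * n w - g w * fderiv ℝ n w v) w = 0 := fun v w _ hw => by
    change fderiv ℝ g w v * n w - g w * fderiv ℝ n w v = 0
    rw [h0 w hw, hnz v w hw]; ring
  have hdiv := int_div hR (hA 1) (hA I) (hAz 1) (hAz I)
  have hder : ∀ v : ℂ, ∀ w ∈ hp, fderiv ℝ (fun w => fderiv ℝ g w v * n w - g w * fderiv ℝ n w v) w v =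
      fderiv ℝ (fun w => fderiv ℝ g w v) w v * n w - g w * fderiv ℝ (fun w => fderiv ℝ n w v) w v := by
    intro v w hw
    have d1 : DifferentiableAt ℝ (fun w => fderiv ℝ g w v) w :=
      ((hg1 v).differentiableOn (by norm_num)).differentiableAt (isOpen_hp.mem_nhds hw)
    have d2 : DifferentiableAt ℝ (fun w => fderiv ℝ n w v) w :=
      ((hn1 v).differentiableOn (by norm_num)).differentiableAt (isOpen_hp.mem_nhds hw)
    have d3 : DifferentiableAt ℝ g w := (hg0.differentiableOn (by norm_num)).differentiableAt (isOpen_hp.mem_nhds hw)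
    have d4 : DifferentiableAt ℝ n w := (hn0.differentiableOn (by norm_num)).differentiableAt (isOpen_hp.mem_nhds hw)
    have e1 := (d1.hasFDerivAt.mul d4.hasFDerivAt).sub (d3.hasFDerivAt.mul d2.hasFDerivAt)
    have e2 : fderiv ℝ (fun w => fderiv ℝ g w v * n w - g w * fderiv ℝ n w v) w = _ := e1.fderiv
    rw [e2]
    simp only [sub_apply, add_apply, smul_apply, smul_eq_mul]
    ring
  have key : (fun w => ex (fun w => dx (fun w => fderiv ℝ g w 1 * n w - g w * fderiv ℝ n w 1) w +
      dy (fun w => fderiv ℝ g w I * n w - g w * fderiv ℝ n w I) w) w) = fun w => lapE g w * n w - g w * lapE n w := by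
    funext w
    by_cases hw : w ∈ hp
    · rw [ex_of_mem hw]
      have e1 := hder 1 w hw
      have e2 := hder I w hw
      change fderiv ℝ _ w 1 + fderiv ℝ _ w I = (fderiv ℝ (fun w => fderiv ℝ g w 1) w 1 + fderiv ℝ (fun w => fderiv ℝ g w I) w I) * n w -
        g w * (fderiv ℝ (fun w => fderiv ℝ n w 1) w 1 + fderiv ℝ (fun w => fderiv ℝ n w I) w I)
      rw [e1, e2]
      ring
    · rw [ex_of_not_mem hw]
      have hw' : w ∉ KR R := fun h => hw (KR_sub hR h)
      have e1 := hnzz 1 w hw'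
      have e2 := hnzz I w hw'
      change 0 = _ * n w - g w * (fderiv ℝ (fun w => fderiv ℝ n w 1) w 1 + fderiv ℝ (fun w => fderiv ℝ n w I) w I)
      rw [e1, e2, h0 w hw']
      ring
  rw [key] at hdiv
  have c1 : ∀ v : ℂ, ContinuousOn (fun w => fderiv ℝ (fun w => fderiv ℝ g w v) w v) hp := fun v =>
    (c1_dx (k := 0) (by rw [zero_add]; exact hg1 v) v).continuousOn
  have c2 : ∀ v : ℂ, ContinuousOn (fun w => fderiv ℝ (fun w => fderiv ℝ n w v) w v) hp := fun v =>
    (c1_dx (k := 0) (by rw [zero_add]; exact hn1 v) v).continuousOn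
  have i1 : Integrable (fun w => lapE g w * n w) :=
    integrable_of_contOn hR (((c1 1).add (c1 I)).mul hn0.continuousOn) fun w hw => by rw [h0 w hw, mul_zero]
  have i2 : Integrable (fun w => g w * lapE n w) :=
    integrable_of_contOn hR (hg0.continuousOn.mul ((c2 1).add (c2 I))) fun w hw => by
      have e1 := hnzz 1 w hw
      have e2 := hnzz I w hw
      change g w * (fderiv ℝ (fun w => fderiv ℝ n w 1) w 1 + fderiv ℝ (fun w => fderiv ℝ n w I) w I) = 0
      rw [e1, e2]; ring
  rw [integral_sub i1 i2] at hdiv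
  linarith

end KW
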