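import Pool.Agent.Lib.MP_464db4_gt.KW.QQ

/-!
# KW-PrA: the shifted kernels

`sh ν ε = kn (fun q => ν (q + ε))`, `ε > 0`: smooth, since `q + ε > 0` for `q = qq w ≥ 0` (`ex_contDiff` with `g w = ν (qq w + ε) / w.im ^ 2`; `ν (q + ε) = 0` for `q ≥ R`).
On `hp` (open; `sh ν ε = g` near `w`): `kA (sh ν ε) w = dx g w = ν'(q + ε) q_ξ / η²`, and `kE (sh ν ε) w = 2 g w + ξ dx g + η dy g = 2 ν/η² + ν' (ξ q_ξ + η q_η)/η² - 2 ν η/η³ = ν' L0 qq / η²`
(the fderiv at `w` in the direction `w = ξ • 1 + η • I`).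
The limits for `ε → 0`: `lA ν`, `lE ν`.
-/

namespace KW

open Complex MeasureTheory Set Filter Topology
open scoped ContDiff

/-- The shifted kernel. -/
noncomputable def sh (ν : ℝ → ℝ) (ε : ℝ) : ℂ → ℝ := kn (fun q => ν (q + ε))

/-- The kernel `kA (kn ν)`. -/
noncomputable def lA (ν : ℝ → ℝ) : ℂ → ℝ := ex (fun w => deriv ν (qq w) * dx qq w / w.im ^ 2)

/-- The kernel `kE (kn ν)`. -/
noncomputable def lE (ν : ℝ → ℝ) : ℂ → ℝ := ex (fun w => deriv ν (qq w) * L0 qq w / w.im ^ 2)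

variable {ν : ℝ → ℝ} {R C ε : ℝ} {w : ℂ}

theorem kn_zero (hR : 0 ≤ R) (h0 : ∀ q, R ≤ q → ν q = 0) (hw : w ∉ KR R) : kn ν w = 0 := by
  unfold kn
  refine ex_zero (R := R) (fun v hv hvR => ?_) hw
  have h1 : R ≤ qq v := by
    by_contra h
    exact hvR ((mem_KR_iff hv).2 (not_le.1 h).le)
  rw [h0 _ h1, zero_div]

theorem kn_eq (hw : w ∈ hp) : kn ν w = ν (qq w) / w.im ^ 2 := by
  unfold kn
  rw [ex_of_mem hw]

theorem kn_nonneg (h : ∀ q, 0 ≤ q → 0 ≤ ν q) (w : ℂ) : 0 ≤ kn ν w := by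
  by_cases hw : w ∈ hp
  · rw [kn_eq hw]
    exact div_nonneg (h _ (qq_nonneg hw)) (sq_nonneg _)
  · unfold kn
    rw [ex_of_not_mem hw]

private theorem PrA_im : ContDiff ℝ ∞ (fun w : ℂ => w.im) := Complex.imCLM.contDiff

private theorem PrA_shift (hν : Prof ν R C) (hε : 0 < ε) : ContDiffOn ℝ 1 (fun w => ν (qq w + ε)) hp := by
  have h1 : ContDiffOn ℝ 1 (fun w => qq w + ε) hp := (qq_contDiffOn.of_le (by exact_mod_cast le_top)).add contDiffOn_const
  refine hν.smooth.comp h1 fun w hw => ?_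
  show 0 < qq w + ε
  have := qq_nonneg hw
  linarith

private theorem PrA_g (hν : Prof ν R C) (hε : 0 < ε) : ContDiffOn ℝ 1 (fun w => ν (qq w + ε) / w.im ^ 2) hp := by
  refine (PrA_shift hν hε).div ((PrA_im.of_le (by exact_mod_cast le_top)).contDiffOn.pow 2) fun w hw => ?_
  have hw' : 0 < w.im := hw
  positivity

theorem sh_contDiff (hν : Prof ν R C) (hε : 0 < ε) : ContDiff ℝ 1 (sh ν ε) := by
  unfold sh kn
  refine ex_contDiff (k := 1) (R := R) hν.R_pos.le (PrA_g hν hε) fun w hw hwR => ?_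
  have h1 : R ≤ qq w := by
    by_contra h
    exact hwR ((mem_KR_iff hw).2 (not_le.1 h).le)
  show ν (qq w + ε) / w.im ^ 2 = 0
  rw [hν.zero _ (by linarith), zero_div]

theorem sh_zero (hν : Prof ν R C) (hε : 0 < ε) (hw : w ∉ KR R) : sh ν ε w = 0 := by
  unfold sh
  exact kn_zero hν.R_pos.le (fun q hq => hν.zero _ (by linarith)) hw

private theorem PrA_fderiv (hν : Prof ν R C) (hε : 0 < ε) (hw : w ∈ hp) (v : ℂ) :
    fderiv ℝ (sh ν ε) w v = deriv ν (qq w + ε) * fderiv ℝ qq w v / w.im ^ 2 - 2 * ν (qq w + ε) * v.im / w.im ^ 3 := by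
  have hw' : 0 < w.im := hw
  have e0 : sh ν ε =ᶠ[𝓝 w] fun w => ν (qq w + ε) / w.im ^ 2 := by
    filter_upwards [isOpen_hp.mem_nhds hw] with y hy
    exact kn_eq hy
  rw [e0.fderiv_eq]
  have hq : DifferentiableAt ℝ qq w := (qq_contDiffOn.differentiableOn (by simp)).differentiableAt (isOpen_hp.mem_nhds hw)
  have hpos : 0 < qq w + ε := by
    have := qq_nonneg hw
    linarith
  have hn : DifferentiableAt ℝ ν (qq w + ε) :=
    (hν.smooth.differentiableOn (by simp)).differentiableAt (Ioi_mem_nhds hpos)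
  have h1 : HasFDerivAt (fun w => ν (qq w + ε)) (deriv ν (qq w + ε) • fderiv ℝ qq w) w :=
    hn.hasDerivAt.comp_hasFDerivAt w (hq.hasFDerivAt.add_const ε)
  have h2 : HasFDerivAt (fun w : ℂ => (w.im ^ 2)⁻¹) ((-(2 * w.im) / (w.im ^ 2) ^ 2) • imCLM) w := by
    have h3 : HasDerivAt (fun t : ℝ => (t ^ 2)⁻¹) (-(2 * w.im) / (w.im ^ 2) ^ 2) w.im := by
      have h4 : HasDerivAt (fun t : ℝ => t ^ 2) (2 * w.im) w.im := by
        simpa using hasDerivAt_pow 2 w.im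
      exact h4.inv (by positivity)
    exact h3.comp_hasFDerivAt w imCLM.hasFDerivAt
  have h5 := h1.mul h2
  have h6 : (fun w => ν (qq w + ε) / w.im ^ 2) = fun w => ν (qq w + ε) * (w.im ^ 2)⁻¹ := by
    funext y
    rw [div_eq_mul_inv]
  rw [h6]
  have h7 : fderiv ℝ (fun w : ℂ => ν (qq w + ε) * (w.im ^ 2)⁻¹) w = _ := h5.fderiv
  rw [h7]
  simp only [ContinuousLinearMap.add_apply, ContinuousLinearMap.smul_apply, smul_eq_mul, imCLM_apply]
  field_simp
  ring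

theorem kA_sh (hν : Prof ν R C) (hε : 0 < ε) (hw : w ∈ hp) : kA (sh ν ε) w = deriv ν (qq w + ε) * dx qq w / w.im ^ 2 := by
  unfold kA dx
  rw [PrA_fderiv hν hε hw, one_im, mul_zero, zero_div, sub_zero]

theorem kE_sh (hν : Prof ν R C) (hε : 0 < ε) (hw : w ∈ hp) : kE (sh ν ε) w = deriv ν (qq w + ε) * L0 qq w / w.im ^ 2 := by
  have hw' : 0 < w.im := hw
  unfold kE
  rw [PrA_fderiv hν hε hw]
  have e1 : sh ν ε w = ν (qq w + ε) / w.im ^ 2 := kn_eq hw
  have e2 : fderiv ℝ qq w w = L0 qq w := by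
    have e3 : w = w.re • (1 : ℂ) + w.im • I := by
      apply Complex.ext <;> simp
    unfold L0 dx dy
    conv_lhs => rw [e3]
    have e4 : fderiv ℝ qq (w.re • (1 : ℂ) + w.im • I) = fderiv ℝ qq w := by rw [← e3]
    rw [map_add, map_smul, map_smul, e4]
    rfl
  rw [e1, e2]
  field_simp
  ring

theorem deriv_zero (hν : Prof ν R C) {q : ℝ} (hq : R ≤ q) : deriv ν q = 0 := by
  have hq0 : 0 < q := lt_of_lt_of_le hν.R_pos hq
  have hd : DifferentiableAt ℝ ν q := (hν.smooth.differentiableOn (by simp)).differentiableAt (Ioi_mem_nhds hq0)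
  have h1 : HasDerivWithinAt ν (deriv ν q) (Ici q) q := hd.hasDerivAt.hasDerivWithinAt
  have h2 : HasDerivWithinAt ν 0 (Ici q) q := by
    refine (hasDerivWithinAt_const q (Ici q) (0 : ℝ)).congr (fun y hy => hν.zero y (hq.trans hy)) (hν.zero q hq)
  exact (uniqueDiffWithinAt_Ici q).eq_deriv _ h1 h2

end KW
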