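import Pool.Agent.Lib.MP_464db4_gt.KW.CvS
import Pool.Agent.Lib.MP_464db4_gt.KW.PrA

/-!
# KW-Inv: invariance under Moebius transformations

`γ = (a b; c d)`, `j = c z + d ≠ 0` for `z ∈ hp`: `im (γ z) = im z / |j|²`, `γ z - γ w = (z - w)/((c z + d)(c w + d))`, so `qp z w = ‖z - w‖²/(4 im z im w)` satisfies `qp (γ z) (γ w) = qp z w`.
* `cv_kn_eq`: from `cv_subst`: for `w' = aff z w`: `qq ((w' - x)/y) = qp z w'` and `kn ν ((w'-x)/y) / y² = ν (qp z w') / (im w')²` (both sides are zero if `w' ∉ hp`: `im ((w'-x)/y) = im w'/y`).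
* `cv_mo`: change of variables `w ↦ γ w` of the open set `hp` (a bijection of `hp`, inverse `mo γ⁻¹`), with real Jacobian determinant `|c w + d|⁻⁴ = (im (γw)/im w)²`:
  `integral_image_eq_integral_abs_det_fderiv_smul` (the derivative of `mo γ` is the multiplication by `(c w + d)⁻²`, its real determinant is the square of the norm), integrals over the set `hp`
  (`integral_indicator`, `ex g = indicator hp g`).
-/

namespace KW

open Complex MeasureTheory Set Filter Topology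
open scoped ContDiff

/-- The point-pair invariant of two points. -/
noncomputable def qp (z w : ℂ) : ℝ := ‖z - w‖ ^ 2 / (4 * z.im * w.im)

variable {γ : Matrix.SpecialLinearGroup (Fin 2) ℝ} {ν : ℝ → ℝ} {φ : ℂ → ℝ} {z w : ℂ}

private theorem inv_det (γ : Matrix.SpecialLinearGroup (Fin 2) ℝ) : γ 0 0 * γ 1 1 - γ 0 1 * γ 1 0 = 1 := by
  have h := γ.det_coe
  rwa [Matrix.det_fin_two] at h

theorem mo_den (γ : Matrix.SpecialLinearGroup (Fin 2) ℝ) (hz : z ∈ hp) : ((γ 1 0 : ℝ) : ℂ) * z + ((γ 1 1 : ℝ) : ℂ) ≠ 0 := by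
  intro h
  have hz' : 0 < z.im := hz
  have him := congrArg Complex.im h
  have hre := congrArg Complex.re h
  simp at him hre
  have hc : γ 1 0 = 0 := by
    rcases him with h1 | h1
    · exact h1
    · exact absurd h1 hz'.ne'
  rw [hc] at hre
  have hd : γ 1 1 = 0 := by linarith
  have hdet := inv_det γ
  rw [hc, hd] at hdet
  linarith

theorem mo_im (γ : Matrix.SpecialLinearGroup (Fin 2) ℝ) (hz : z ∈ hp) :
    (mo γ z).im = z.im / ‖((γ 1 0 : ℝ) : ℂ) * z + ((γ 1 1 : ℝ) : ℂ)‖ ^ 2 := by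
  have hdet := inv_det γ
  unfold mo
  rw [Complex.div_im, ← Complex.normSq_eq_norm_sq, ← sub_div]
  congr 1
  simp only [Complex.add_im, Complex.add_re, Complex.mul_im, Complex.mul_re, Complex.ofReal_re, Complex.ofReal_im]
  linear_combination z.im * hdet

theorem mo_mem (γ : Matrix.SpecialLinearGroup (Fin 2) ℝ) (hz : z ∈ hp) : mo γ z ∈ hp := by
  have h1 := norm_pos_iff.2 (mo_den γ hz)
  have hz' : 0 < z.im := hz
  show 0 < (mo γ z).im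
  rw [mo_im γ hz]
  positivity

theorem mo_inv (γ : Matrix.SpecialLinearGroup (Fin 2) ℝ) (hz : z ∈ hp) : mo γ⁻¹ (mo γ z) = z := by
  have hd := mo_den γ hz
  have hd2 := mo_den γ⁻¹ (mo_mem γ hz)
  have hdet : ((γ 0 0 : ℝ) : ℂ) * ((γ 1 1 : ℝ) : ℂ) - ((γ 0 1 : ℝ) : ℂ) * ((γ 1 0 : ℝ) : ℂ) = 1 := by
    exact_mod_cast inv_det γ
  have e00 : (γ⁻¹) 0 0 = γ 1 1 := by rw [Matrix.SpecialLinearGroup.SL2_inv_expl]; rfl
  have e01 : (γ⁻¹) 0 1 = -γ 0 1 := by rw [Matrix.SpecialLinearGroup.SL2_inv_expl]; rfl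
  have e10 : (γ⁻¹) 1 0 = -γ 1 0 := by rw [Matrix.SpecialLinearGroup.SL2_inv_expl]; rfl
  have e11 : (γ⁻¹) 1 1 = γ 0 0 := by rw [Matrix.SpecialLinearGroup.SL2_inv_expl]; rfl
  rw [e10, e11] at hd2
  have h1 : mo γ⁻¹ (mo γ z) = (((γ 1 1 : ℝ) : ℂ) * mo γ z + ((-γ 0 1 : ℝ) : ℂ)) /
      (((-γ 1 0 : ℝ) : ℂ) * mo γ z + ((γ 0 0 : ℝ) : ℂ)) := by
    conv_lhs => unfold mo
    rw [e00, e01, e10, e11]
    rfl
  rw [h1, div_eq_iff hd2]
  unfold mo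
  push_cast
  obtain ⟨D, hD⟩ : ∃ D : ℂ, D = ((γ 1 0 : ℝ) : ℂ) * z + ((γ 1 1 : ℝ) : ℂ) := ⟨_, rfl⟩
  rw [← hD] at hd ⊢
  field_simp
  rw [hD]
  ring

theorem mo_hasDerivAt (γ : Matrix.SpecialLinearGroup (Fin 2) ℝ) (hz : z ∈ hp) :
    HasDerivAt (mo γ) (1 / (((γ 1 0 : ℝ) : ℂ) * z + ((γ 1 1 : ℝ) : ℂ)) ^ 2) z := by
  have hd := mo_den γ hz
  have hdet : ((γ 0 0 : ℝ) : ℂ) * ((γ 1 1 : ℝ) : ℂ) - ((γ 0 1 : ℝ) : ℂ) * ((γ 1 0 : ℝ) : ℂ) = 1 := by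
    exact_mod_cast inv_det γ
  have h1 : HasDerivAt (fun w : ℂ => ((γ 0 0 : ℝ) : ℂ) * w + ((γ 0 1 : ℝ) : ℂ)) ((γ 0 0 : ℝ) : ℂ) z := by
    simpa using ((hasDerivAt_id z).const_mul ((γ 0 0 : ℝ) : ℂ)).add_const ((γ 0 1 : ℝ) : ℂ)
  have h2 : HasDerivAt (fun w : ℂ => ((γ 1 0 : ℝ) : ℂ) * w + ((γ 1 1 : ℝ) : ℂ)) ((γ 1 0 : ℝ) : ℂ) z := by
    simpa using ((hasDerivAt_id z).const_mul ((γ 1 0 : ℝ) : ℂ)).add_const ((γ 1 1 : ℝ) : ℂ)
  have h3 := h1.div h2 hd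
  have e : (((γ 0 0 : ℝ) : ℂ) * (((γ 1 0 : ℝ) : ℂ) * z + ((γ 1 1 : ℝ) : ℂ)) -
      (((γ 0 0 : ℝ) : ℂ) * z + ((γ 0 1 : ℝ) : ℂ)) * ((γ 1 0 : ℝ) : ℂ)) = 1 := by
    linear_combination hdet
  rw [e] at h3
  exact h3

private theorem mo_sub (γ : Matrix.SpecialLinearGroup (Fin 2) ℝ) (hz : z ∈ hp) (hw : w ∈ hp) :
    mo γ z - mo γ w = (z - w) / ((((γ 1 0 : ℝ) : ℂ) * z + ((γ 1 1 : ℝ) : ℂ)) * (((γ 1 0 : ℝ) : ℂ) * w + ((γ 1 1 : ℝ) : ℂ))) := by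
  have hd := mo_den γ hz
  have hd' := mo_den γ hw
  have hdet : ((γ 0 0 : ℝ) : ℂ) * ((γ 1 1 : ℝ) : ℂ) - ((γ 0 1 : ℝ) : ℂ) * ((γ 1 0 : ℝ) : ℂ) = 1 := by
    exact_mod_cast inv_det γ
  unfold mo
  rw [div_sub_div _ _ hd hd']
  congr 1
  linear_combination (z - w) * hdet

theorem qp_mo (γ : Matrix.SpecialLinearGroup (Fin 2) ℝ) (hz : z ∈ hp) (hw : w ∈ hp) : qp (mo γ z) (mo γ w) = qp z w := by
  have hd := norm_pos_iff.2 (mo_den γ hz)
  have hd' := norm_pos_iff.2 (mo_den γ hw)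
  have hz' : 0 < z.im := hz
  have hw' : 0 < w.im := hw
  unfold qp
  rw [mo_sub γ hz hw, mo_im γ hz, mo_im γ hw, norm_div, norm_mul]
  obtain ⟨a, ha⟩ : ∃ a : ℝ, a = ‖((γ 1 0 : ℝ) : ℂ) * z + ((γ 1 1 : ℝ) : ℂ)‖ := ⟨_, rfl⟩
  obtain ⟨b, hb⟩ : ∃ b : ℝ, b = ‖((γ 1 0 : ℝ) : ℂ) * w + ((γ 1 1 : ℝ) : ℂ)‖ := ⟨_, rfl⟩
  rw [← ha] at hd ⊢
  rw [← hb] at hd' ⊢
  field_simp

private theorem inv_qq {z w : ℂ} (hz : 0 < z.im) (hw : 0 < w.im) : qq ((w - (z.re : ℂ)) / (z.im : ℂ)) = qp z w := by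
  have e1 : ((w - (z.re : ℂ)) / (z.im : ℂ)).re = (w.re - z.re) / z.im := by
    rw [Complex.div_ofReal_re]
    simp
  have e2 : ((w - (z.re : ℂ)) / (z.im : ℂ)).im = w.im / z.im := by
    rw [Complex.div_ofReal_im]
    simp
  unfold qq qp
  rw [e1, e2, ← Complex.normSq_eq_norm_sq, Complex.normSq_apply]
  simp only [Complex.sub_re, Complex.sub_im]
  field_simp
  ring

theorem cv_kn_eq (ν : ℝ → ℝ) (φ : ℂ → ℝ) (hz : z ∈ hp) : cv (kn ν) φ z = ∫ w in hp, φ w * (ν (qp z w) / w.im ^ 2) := by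
  have hz' : 0 < z.im := hz
  have hm : MeasurableSet hp := (isOpen_lt continuous_const Complex.continuous_im).measurableSet
  rw [cv_subst (kn ν) φ hz, ← integral_indicator hm]
  congr 1
  funext w
  have e2 : ((w - (z.re : ℂ)) / (z.im : ℂ)).im = w.im / z.im := by
    rw [Complex.div_ofReal_im]
    simp
  by_cases hw : w ∈ hp
  · have hw' : 0 < w.im := hw
    rw [indicator_of_mem hw]
    have hu : (w - (z.re : ℂ)) / (z.im : ℂ) ∈ hp := by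
      show 0 < ((w - (z.re : ℂ)) / (z.im : ℂ)).im
      rw [e2]
      positivity
    rw [kn_eq hu, inv_qq hz' hw', e2]
    congr 1
    field_simp
  · rw [indicator_of_notMem hw]
    have hu : (w - (z.re : ℂ)) / (z.im : ℂ) ∉ hp := by
      intro h
      have h' : 0 < ((w - (z.re : ℂ)) / (z.im : ℂ)).im := h
      rw [e2] at h'
      apply hw
      show 0 < w.im
      exact (div_pos_iff_of_pos_right hz').1 h'
    have hk : kn ν ((w - (z.re : ℂ)) / (z.im : ℂ)) = 0 := ex_of_not_mem hu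
    rw [hk, zero_div, mul_zero]

private theorem inv_clm_det (M : ℂ →L[ℝ] ℂ) : M.det = (M 1).re * (M I).im - (M I).re * (M 1).im := by
  have h : M.det = LinearMap.det (M : ℂ →ₗ[ℝ] ℂ) := rfl
  rw [h, ← LinearMap.det_toMatrix Complex.basisOneI, Matrix.det_fin_two]
  simp [LinearMap.toMatrix_apply]

theorem cv_mo (γ : Matrix.SpecialLinearGroup (Fin 2) ℝ) (ν : ℝ → ℝ) (φ : ℂ → ℝ) (hz : z ∈ hp) :
    cv (kn ν) (fun w => φ (mo γ w)) z = cv (kn ν) φ (mo γ z) := by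
  have hm : MeasurableSet hp := (isOpen_lt continuous_const Complex.continuous_im).measurableSet
  rw [cv_kn_eq ν _ hz, cv_kn_eq ν φ (mo_mem γ hz)]
  have himg : mo γ '' hp = hp := by
    apply Subset.antisymm
    · rintro _ ⟨w, hw, rfl⟩
      exact mo_mem γ hw
    · intro w hw
      refine ⟨mo γ⁻¹ w, mo_mem γ⁻¹ hw, ?_⟩
      have := mo_inv γ⁻¹ hw
      rwa [inv_inv] at this
  have hinj : InjOn (mo γ) hp := by
    intro u hu v hv huv
    rw [← mo_inv γ hu, ← mo_inv γ hv, huv]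
  have hder : ∀ w ∈ hp, HasFDerivWithinAt (mo γ)
      ((ContinuousLinearMap.toSpanSingleton ℂ (1 / (((γ 1 0 : ℝ) : ℂ) * w + ((γ 1 1 : ℝ) : ℂ)) ^ 2)).restrictScalars ℝ) hp w := by
    intro w hw
    exact ((mo_hasDerivAt γ hw).hasFDerivAt.restrictScalars ℝ).hasFDerivWithinAt
  have key := integral_image_eq_integral_abs_det_fderiv_smul volume hm hder hinj
    (fun u => φ u * (ν (qp (mo γ z) u) / u.im ^ 2))
  rw [himg] at key
  rw [key]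
  refine setIntegral_congr_fun hm fun w hw => ?_
  have hw' : 0 < w.im := hw
  have hd := norm_pos_iff.2 (mo_den γ hw)
  set D : ℂ := ((γ 1 0 : ℝ) : ℂ) * w + ((γ 1 1 : ℝ) : ℂ) with hD
  have hdet : ((ContinuousLinearMap.toSpanSingleton ℂ (1 / D ^ 2)).restrictScalars ℝ).det = 1 / ‖D‖ ^ 4 := by
    rw [inv_clm_det]
    have a1 : ((ContinuousLinearMap.toSpanSingleton ℂ (1 / D ^ 2)).restrictScalars ℝ) 1 = 1 / D ^ 2 := by
      simp
    have a2 : ((ContinuousLinearMap.toSpanSingleton ℂ (1 / D ^ 2)).restrictScalars ℝ) I = I * (1 / D ^ 2) := by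
      simp
    rw [a1, a2]
    have a3 : (1 / D ^ 2 : ℂ).re * (I * (1 / D ^ 2)).im - (I * (1 / D ^ 2)).re * (1 / D ^ 2 : ℂ).im =
        Complex.normSq (1 / D ^ 2) := by
      rw [Complex.normSq_apply]
      simp only [Complex.mul_re, Complex.mul_im, Complex.I_re, Complex.I_im]
      ring
    rw [a3, Complex.normSq_eq_norm_sq, norm_div, norm_one, norm_pow]
    field_simp
  show φ (mo γ w) * (ν (qp z w) / w.im ^ 2) =
    |((ContinuousLinearMap.toSpanSingleton ℂ (1 / D ^ 2)).restrictScalars ℝ).det| •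
      (φ (mo γ w) * (ν (qp (mo γ z) (mo γ w)) / (mo γ w).im ^ 2))
  rw [hdet, qp_mo γ hz hw, mo_im γ hw, ← hD, abs_of_nonneg (by positivity), smul_eq_mul]
  field_simp

end KW
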