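import Pool.Agent.Lib.MP_464db4_gt.KW.PrB
import Pool.Agent.Lib.MP_464db4_gt.KW.Cv
import Pool.Agent.Lib.MP_464db4_gt.KW.Inv

/-!
# KW-FixA: the contraction

`KPair ν κ R C Λ`, `c = ∫ kn κ > 0`, `c' = ∫ kn ν > 0`, `0 < m ≤ f ≤ Λ` on `hp`.  `TT u = (cv (kn κ) u - cv (kn ν) (e^u - f))/c`.
* `massK_pos`: `kn κ ≥ 0` (`kn_nonneg`), positive on the nonempty open set `{0 < qq w < r}`, integrable: the integral is positive.
* `TT_contr`: for `u, v` continuous on `hp` with values in `[log m, log Λ]` and `|u - v| ≤ D`: pointwise (`w' = aff z w`), with the mean value `s`: `e^u - e^v = s (u - v)`, `m ≤ s ≤ Λ`, so the integrand of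
  `c (TT u - TT v)` is `(u - v)(w') (kn κ w - s kn ν w)`, and `0 ≤ kn κ - s kn ν ≤ kn κ - m kn ν` (`KPair.le`, `KPair.nonneg`, `qq_nonneg`), so `|TT u - TT v| ≤ D (c - m c')/c = (1 - m c'/c) D`.
* `theta_lt`: `0 ≤ 1 - m c'/c < 1` (`m ≤ Λ` and `Λ ν ≤ κ` give `m c' ≤ c`).
* `TT_lower`, `TT_upper`: `TT` of the constant `log m` is `≥ log m` (`m - f ≤ 0`) and `TT` is monotone: for `u ≤ v` the integrand `(v-u)(w') (kn κ w - s kn ν w)` is `≥ 0`.  Apply to `log m ≤ u`, and `u ≤ log Λ`.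
* `TT_inv`: `cv_mo`, `f (mo γ w) = f w`, `u (mo γ w) = u w` on `hp` (`cv_congr`).
-/

namespace KW

open Complex MeasureTheory Set Filter Topology
open scoped ContDiff

/-- The map whose fixed points solve the equation. -/
noncomputable def TT (ν κ : ℝ → ℝ) (f u : ℂ → ℝ) (z : ℂ) : ℝ :=
  (cv (kn κ) u z - cv (kn ν) (fun w => Real.exp (u w) - f w) z) / ∫ w, kn κ w

variable {ν κ : ℝ → ℝ} {R C Λ m : ℝ} {f u v : ℂ → ℝ} {z : ℂ}

private theorem FixA_off {ρ : ℝ → ℝ} {w : ℂ} (hw : w ∉ hp) : kn ρ w = 0 := ex_of_not_mem hw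

/-- the comparison of the kernels -/
private theorem FixA_le (h : KPair ν κ R C Λ) {s : ℝ} (hs : s ≤ Λ) (w : ℂ) : s * kn ν w ≤ kn κ w := by
  have h0 : 0 ≤ kn ν w := kn_nonneg h.nonneg w
  have h1 : Λ * kn ν w ≤ kn κ w := by
    by_cases hw : w ∈ hp
    · rw [kn_eq hw, kn_eq hw, ← mul_div_assoc]
      exact div_le_div_of_nonneg_right (h.le _ (qq_nonneg hw)) (sq_nonneg _)
    · rw [FixA_off hw, FixA_off hw, mul_zero]
  exact (mul_le_mul_of_nonneg_right hs h0).trans h1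

private theorem FixA_pos {ρ : ℝ → ℝ} (hi : Integrable (kn ρ)) (h0 : ∀ w, 0 ≤ kn ρ w)
    (hr : ∃ r, 0 < r ∧ ∀ q, 0 < q → q < r → 0 < ρ q) : 0 < ∫ w, kn ρ w := by
  obtain ⟨r, hr, hρ⟩ := hr
  rw [integral_pos_iff_support_of_nonneg h0 hi]
  have hU : IsOpen (hp ∩ qq ⁻¹' Ioo 0 r) :=
    (qq_contDiffOn.continuousOn).isOpen_inter_preimage isOpen_hp isOpen_Ioo
  have hne : (hp ∩ qq ⁻¹' Ioo 0 r).Nonempty := by
    obtain ⟨d, hd0, hd1, hdr⟩ : ∃ d : ℝ, 0 < d ∧ d ≤ 1 ∧ d ≤ r := ⟨min 1 r, lt_min one_pos hr, min_le_left _ _, min_le_right _ _⟩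
    have him : (⟨0, 1 + d⟩ : ℂ) ∈ hp := by
      rw [mem_hp]
      show 0 < 1 + d
      linarith
    refine ⟨⟨0, 1 + d⟩, him, ?_⟩
    have hq : qq (⟨0, 1 + d⟩ : ℂ) = d ^ 2 / (4 * (1 + d)) := by
      rw [qq_eq him]
      show ((0 : ℝ) ^ 2 + (1 + d - 1) ^ 2) / (4 * (1 + d)) = d ^ 2 / (4 * (1 + d))
      congr 1
      ring
    rw [mem_preimage, hq, mem_Ioo]
    refine ⟨by positivity, ?_⟩
    rw [div_lt_iff₀ (by positivity)]
    nlinarith [mul_pos hr hd0]
  refine lt_of_lt_of_le (hU.measure_pos volume hne) (measure_mono ?_)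
  rintro w ⟨hw, hq⟩
  rw [Function.mem_support, kn_eq hw]
  have h1 : 0 < ρ (qq w) := hρ _ hq.1 hq.2
  have h2 : 0 < w.im := hw
  positivity

theorem massK_pos (h : KPair ν κ R C Λ) : 0 < ∫ w, kn κ w :=
  FixA_pos (gker_kn h.profK).int (kn_nonneg h.nonnegK) h.posK

theorem massN_pos (h : KPair ν κ R C Λ) : 0 < ∫ w, kn ν w :=
  FixA_pos (gker_kn h.profN).int (kn_nonneg h.nonneg) h.posN

theorem mass_le (h : KPair ν κ R C Λ) {m : ℝ} (hm : m ≤ Λ) : m * ∫ w, kn ν w ≤ ∫ w, kn κ w := by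
  rw [← integral_const_mul]
  exact integral_mono ((gker_kn h.profN).int.const_mul m) (gker_kn h.profK).int fun w => FixA_le h hm w

private theorem FixA_cont (hf : ContinuousOn f hp) (hu : ContinuousOn u hp) : ContinuousOn (fun w => Real.exp (u w) - f w) hp :=
  (Real.continuous_exp.comp_continuousOn hu).sub hf

theorem TT_contOn (h : KPair ν κ R C Λ) (hf : ContinuousOn f hp) (hu : ContinuousOn u hp) : ContinuousOn (TT ν κ f u) hp := by
  have h1 := (cv_continuousOn (gker_kn h.profK) hu).sub (cv_continuousOn (gker_kn h.profN) (FixA_cont hf hu))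
  exact h1.div_const _

/-- the exponential function between two bounds -/
private theorem FixA_exp {m Λ x y : ℝ} (hm : 0 < m) (hL : 0 < Λ) (hy : Real.log m ≤ y) (hx : x ≤ Real.log Λ) (hxy : y ≤ x) :
    m * (x - y) ≤ Real.exp x - Real.exp y ∧ Real.exp x - Real.exp y ≤ Λ * (x - y) := by
  have h1 : m ≤ Real.exp y := by
    rw [← Real.exp_log hm]
    exact Real.exp_le_exp.2 hy
  have h2 : Real.exp x ≤ Λ := by
    rw [← Real.exp_log hL]
    exact Real.exp_le_exp.2 hx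
  have h3 : Real.exp x = Real.exp y * Real.exp (x - y) := by
    rw [← Real.exp_add]
    congr 1
    ring
  have h4 : Real.exp y = Real.exp x * Real.exp (y - x) := by
    rw [← Real.exp_add]
    congr 1
    ring
  have h5 := Real.add_one_le_exp (x - y)
  have h6 := Real.add_one_le_exp (y - x)
  have h7 : 0 ≤ x - y := by linarith
  constructor
  · have h8 : Real.exp y * (x - y + 1) ≤ Real.exp x := by
      rw [h3]
      exact mul_le_mul_of_nonneg_left h5 (Real.exp_pos y).le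
    have h9 : m * (x - y) ≤ Real.exp y * (x - y) := mul_le_mul_of_nonneg_right h1 h7
    linarith
  · have h8 : Real.exp x * (y - x + 1) ≤ Real.exp y := by
      rw [h4]
      exact mul_le_mul_of_nonneg_left h6 (Real.exp_pos x).le
    have h9 : Real.exp x * (x - y) ≤ Λ * (x - y) := mul_le_mul_of_nonneg_right h2 h7
    linarith

/-- the pointwise estimate for ordered values -/
private theorem FixA_ord {m Λ x y K N : ℝ} (hm : 0 < m) (hL : 0 < Λ) (hy : Real.log m ≤ y) (hx : x ≤ Real.log Λ) (hxy : y ≤ x)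
    (hN : 0 ≤ N) (hK : Λ * N ≤ K) :
    0 ≤ (x - y) * K - (Real.exp x - Real.exp y) * N ∧
      (x - y) * K - (Real.exp x - Real.exp y) * N ≤ (x - y) * (K - m * N) := by
  obtain ⟨h1, h2⟩ := FixA_exp hm hL hy hx hxy
  have h3 : 0 ≤ x - y := by linarith
  have h4 := mul_le_mul_of_nonneg_right h1 hN
  have h5 := mul_le_mul_of_nonneg_right h2 hN
  have h6 := mul_le_mul_of_nonneg_left hK h3
  constructor
  · nlinarith
  · nlinarith

private theorem FixA_pt {m Λ x y K N D : ℝ} (hm : 0 < m) (hL : 0 < Λ) (hx : Real.log m ≤ x ∧ x ≤ Real.log Λ)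
    (hy : Real.log m ≤ y ∧ y ≤ Real.log Λ) (hN : 0 ≤ N) (hK : Λ * N ≤ K) (hmK : m * N ≤ K) (hD : |x - y| ≤ D) :
    |(x - y) * K - (Real.exp x - Real.exp y) * N| ≤ D * (K - m * N) := by
  have h0 : 0 ≤ K - m * N := by linarith
  have h9 : |x - y| * (K - m * N) ≤ D * (K - m * N) := mul_le_mul_of_nonneg_right hD h0
  refine le_trans ?_ h9
  rcases le_total y x with hxy | hxy
  · obtain ⟨h1, h2⟩ := FixA_ord hm hL hy.1 hx.2 hxy hN hK
    rw [abs_of_nonneg h1, abs_of_nonneg (by linarith)]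
    exact h2
  · obtain ⟨h1, h2⟩ := FixA_ord hm hL hx.1 hy.2 hxy hN hK
    have h3 : (x - y) * K - (Real.exp x - Real.exp y) * N = -((y - x) * K - (Real.exp y - Real.exp x) * N) := by ring
    rw [h3, abs_neg, abs_of_nonneg h1, abs_sub_comm, abs_of_nonneg (by linarith)]
    exact h2

theorem TT_contr (h : KPair ν κ R C Λ) (hm : 0 < m) (hmL : m ≤ Λ) (hf : ContinuousOn f hp) (hu : ContinuousOn u hp) (hv : ContinuousOn v hp)
    (hu1 : ∀ w ∈ hp, Real.log m ≤ u w ∧ u w ≤ Real.log Λ) (hv1 : ∀ w ∈ hp, Real.log m ≤ v w ∧ v w ≤ Real.log Λ)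
    {D : ℝ} (hD : ∀ w ∈ hp, |u w - v w| ≤ D) (hz : z ∈ hp) :
    |TT ν κ f u z - TT ν κ f v z| ≤ (1 - m * (∫ w, kn ν w) / ∫ w, kn κ w) * D := by
  have hgK := gker_kn h.profK
  have hgN := gker_kn h.profN
  have hc : 0 < ∫ w, kn κ w := massK_pos h
  have hL : 0 < Λ := lt_of_lt_of_le hm hmL
  have i1 := cv_integrable hgK hu hz
  have i2 := cv_integrable hgK hv hz
  have i3 := cv_integrable hgN (FixA_cont hf hu) hz
  have i4 := cv_integrable hgN (FixA_cont hf hv) hz
  have key : (cv (kn κ) u z - cv (kn ν) (fun w => Real.exp (u w) - f w) z) -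
      (cv (kn κ) v z - cv (kn ν) (fun w => Real.exp (v w) - f w) z) =
      ∫ w, ((u (aff z w) - v (aff z w)) * kn κ w - (Real.exp (u (aff z w)) - Real.exp (v (aff z w))) * kn ν w) := by
    have i13 : Integrable (fun w => u (aff z w) * kn κ w - (Real.exp (u (aff z w)) - f (aff z w)) * kn ν w) := i1.sub i3
    have i24 : Integrable (fun w => v (aff z w) * kn κ w - (Real.exp (v (aff z w)) - f (aff z w)) * kn ν w) := i2.sub i4
    unfold cv
    rw [← integral_sub i1 i3, ← integral_sub i2 i4, ← integral_sub i13 i24]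
    congr 1
    funext w
    ring
  have hb : |∫ w, ((u (aff z w) - v (aff z w)) * kn κ w - (Real.exp (u (aff z w)) - Real.exp (v (aff z w))) * kn ν w)| ≤
      D * ((∫ w, kn κ w) - m * ∫ w, kn ν w) := by
    rw [← integral_const_mul m, ← integral_sub hgK.int (hgN.int.const_mul m), ← integral_const_mul, ← Real.norm_eq_abs]
    refine norm_integral_le_of_norm_le ((hgK.int.sub (hgN.int.const_mul m)).const_mul D) (Eventually.of_forall fun w => ?_)
    rw [Real.norm_eq_abs]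
    by_cases hw : w ∈ hp
    · have ha := aff_mem hz hw
      exact FixA_pt hm hL (hu1 _ ha) (hv1 _ ha) (kn_nonneg h.nonneg w) (FixA_le h le_rfl w) (FixA_le h hmL w) (hD _ ha)
    · rw [FixA_off hw, FixA_off hw]
      simp
  unfold TT
  rw [← sub_div, key, abs_div, abs_of_pos hc, div_le_iff₀ hc]
  refine hb.trans (le_of_eq ?_)
  field_simp

theorem theta_bd (h : KPair ν κ R C Λ) (hm : 0 < m) (hmL : m ≤ Λ) :
    0 ≤ 1 - m * (∫ w, kn ν w) / (∫ w, kn κ w) ∧ 1 - m * (∫ w, kn ν w) / (∫ w, kn κ w) < 1 := by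
  have hc := massK_pos h
  have hn := massN_pos h
  have h1 := mass_le h hmL
  constructor
  · rw [sub_nonneg, div_le_one hc]
    exact h1
  · have : 0 < m * (∫ w, kn ν w) / (∫ w, kn κ w) := by positivity
    linarith

theorem TT_range (h : KPair ν κ R C Λ) (hm : 0 < m) (hf : ContinuousOn f hp) (hf1 : ∀ w ∈ hp, m ≤ f w ∧ f w ≤ Λ) (hu : ContinuousOn u hp)
    (hu1 : ∀ w ∈ hp, Real.log m ≤ u w ∧ u w ≤ Real.log Λ) (hz : z ∈ hp) : Real.log m ≤ TT ν κ f u z ∧ TT ν κ f u z ≤ Real.log Λ := by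
  have hgK := gker_kn h.profK
  have hgN := gker_kn h.profN
  have hc : 0 < ∫ w, kn κ w := massK_pos h
  have hmL : m ≤ Λ := (hf1 z hz).1.trans (hf1 z hz).2
  have hL : 0 < Λ := lt_of_lt_of_le hm hmL
  have hlog : Real.log m ≤ Real.log Λ := Real.log_le_log hm hmL
  have i1 := cv_integrable hgK hu hz
  have i3 := cv_integrable hgN (FixA_cont hf hu) hz
  have key : ∀ a : ℝ, (cv (kn κ) u z - cv (kn ν) (fun w => Real.exp (u w) - f w) z) - a * ∫ w, kn κ w =
      ∫ w, ((u (aff z w) - a) * kn κ w - (Real.exp (u (aff z w)) - f (aff z w)) * kn ν w) := by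
    intro a
    have i13 : Integrable (fun w => u (aff z w) * kn κ w - (Real.exp (u (aff z w)) - f (aff z w)) * kn ν w) := i1.sub i3
    unfold cv
    rw [← integral_sub i1 i3, ← integral_const_mul, ← integral_sub i13 (hgK.int.const_mul a)]
    congr 1
    funext w
    ring
  constructor
  · unfold TT
    rw [le_div_iff₀ hc, ← sub_nonneg, key]
    refine integral_nonneg fun w => ?_
    show 0 ≤ (u (aff z w) - Real.log m) * kn κ w - (Real.exp (u (aff z w)) - f (aff z w)) * kn ν w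
    by_cases hw : w ∈ hp
    · have ha := aff_mem hz hw
      have hN := kn_nonneg h.nonneg w
      obtain ⟨h1, -⟩ := FixA_ord hm hL (le_refl (Real.log m)) (hu1 _ ha).2 (hu1 _ ha).1 hN (FixA_le h le_rfl w)
      rw [Real.exp_log hm] at h1
      have h2 := mul_le_mul_of_nonneg_right (hf1 _ ha).1 hN
      nlinarith
    · rw [FixA_off hw, FixA_off hw]
      simp
  · unfold TT
    rw [div_le_iff₀ hc, ← sub_nonpos, key]
    refine integral_nonpos fun w => ?_
    show (u (aff z w) - Real.log Λ) * kn κ w - (Real.exp (u (aff z w)) - f (aff z w)) * kn ν w ≤ 0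
    by_cases hw : w ∈ hp
    · have ha := aff_mem hz hw
      have hN := kn_nonneg h.nonneg w
      obtain ⟨h1, -⟩ := FixA_ord hm hL (hu1 _ ha).1 (le_refl (Real.log Λ)) (hu1 _ ha).2 hN (FixA_le h le_rfl w)
      rw [Real.exp_log hL] at h1
      have h2 := mul_le_mul_of_nonneg_right (hf1 _ ha).2 hN
      nlinarith
    · rw [FixA_off hw, FixA_off hw]
      simp

theorem TT_inv (h : KPair ν κ R C Λ) {γ : Matrix.SpecialLinearGroup (Fin 2) ℝ} (hf : ContinuousOn f hp) (hu : ContinuousOn u hp)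
    (hfi : ∀ w ∈ hp, f (mo γ w) = f w) (hui : ∀ w ∈ hp, u (mo γ w) = u w) (hz : z ∈ hp) : TT ν κ f u (mo γ z) = TT ν κ f u z := by
  have h1 : cv (kn κ) u (mo γ z) = cv (kn κ) u z := by
    rw [← cv_mo γ κ u hz]
    exact cv_congr (gker_kn h.profK) hui hz
  have h2 : cv (kn ν) (fun w => Real.exp (u w) - f w) (mo γ z) = cv (kn ν) (fun w => Real.exp (u w) - f w) z := by
    rw [← cv_mo γ ν (fun w => Real.exp (u w) - f w) hz]
    refine cv_congr (gker_kn h.profN) (fun w hw => ?_) hz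
    rw [hui w hw, hfi w hw]
  unfold TT
  rw [h1, h2]

end KW
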