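import Pool.Agent.Lib.MP_464db4_gt.KW.FixA

/-!
# KW-FixB: the fixed point
-/

namespace KW

open Complex MeasureTheory Set Filter Topology
open scoped ContDiff

variable {ν κ : ℝ → ℝ} {R C Λ m : ℝ} {f : ℂ → ℝ}

/-- the iterates -/
private noncomputable def fixU (ν κ : ℝ → ℝ) (f : ℂ → ℝ) (m : ℝ) : ℕ → ℂ → ℝ
  | 0 => fun _ => Real.log m
  | k + 1 => TT ν κ f (fixU ν κ f m k)

private theorem fixU_cont (h : KPair ν κ R C Λ) (hf : ContinuousOn f hp) (k : ℕ) :
    ContinuousOn (fixU ν κ f m k) hp := by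
  induction k with
  | zero => exact continuousOn_const
  | succ k ih => exact TT_contOn h hf ih

private theorem fixU_range (h : KPair ν κ R C Λ) (hm : 0 < m) (hmL : m ≤ Λ)
    (hf : ContinuousOn f hp) (hf1 : ∀ w ∈ hp, m ≤ f w ∧ f w ≤ Λ) (k : ℕ) :
    ∀ w ∈ hp, Real.log m ≤ fixU ν κ f m k w ∧ fixU ν κ f m k w ≤ Real.log Λ := by
  induction k with
  | zero => exact fun w _ => ⟨le_rfl, Real.log_le_log hm hmL⟩
  | succ k ih => exact fun w hw => TT_range h hm hf hf1 (fixU_cont h hf k) ih hw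

private theorem fixU_inv (h : KPair ν κ R C Λ) (hf : ContinuousOn f hp)
    {γ : Matrix.SpecialLinearGroup (Fin 2) ℝ} (hfi : ∀ w ∈ hp, f (mo γ w) = f w) (k : ℕ) :
    ∀ w ∈ hp, fixU ν κ f m k (mo γ w) = fixU ν κ f m k w := by
  induction k with
  | zero => exact fun w _ => rfl
  | succ k ih => exact fun w hw => TT_inv h hf (fixU_cont h hf k) hfi ih hw

private theorem fixU_dist (h : KPair ν κ R C Λ) (hm : 0 < m) (hmL : m ≤ Λ)
    (hf : ContinuousOn f hp) (hf1 : ∀ w ∈ hp, m ≤ f w ∧ f w ≤ Λ) (k : ℕ) :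
    ∀ w ∈ hp, |fixU ν κ f m k w - fixU ν κ f m (k + 1) w| ≤
      (Real.log Λ - Real.log m) * (1 - m * (∫ w, kn ν w) / ∫ w, kn κ w) ^ k := by
  induction k with
  | zero =>
    intro w hw
    have h1 := fixU_range h hm hmL hf hf1 1 w hw
    rw [pow_zero, mul_one, abs_sub_comm]
    change |fixU ν κ f m 1 w - Real.log m| ≤ _
    rw [abs_of_nonneg (by linarith)]
    linarith
  | succ k ih =>
    intro w hw
    have h1 := TT_contr h hm hmL hf (fixU_cont h hf k) (fixU_cont h hf (k + 1))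
      (fixU_range h hm hmL hf hf1 k) (fixU_range h hm hmL hf hf1 (k + 1)) ih hw
    rw [pow_succ]
    refine h1.trans (le_of_eq ?_)
    ring

theorem exists_fixed (h : KPair ν κ R C Λ) (hm : 0 < m) (hmL : m ≤ Λ) (hf : ContinuousOn f hp) (hf1 : ∀ w ∈ hp, m ≤ f w ∧ f w ≤ Λ)
    (S : Set (Matrix.SpecialLinearGroup (Fin 2) ℝ)) (hfi : ∀ γ ∈ S, ∀ w ∈ hp, f (mo γ w) = f w) :
    ∃ u : ℂ → ℝ, ContinuousOn u hp ∧ (∀ w ∈ hp, Real.log m ≤ u w ∧ u w ≤ Real.log Λ) ∧ (∀ γ ∈ S, ∀ w ∈ hp, u (mo γ w) = u w) ∧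
      ∀ z ∈ hp, TT ν κ f u z = u z := by
  obtain ⟨hθ0, hθ1⟩ := theta_bd h hm hmL
  have hdist := fixU_dist h hm hmL hf hf1
  obtain ⟨θ, hθ⟩ : ∃ θ, θ = 1 - m * (∫ w, kn ν w) / ∫ w, kn κ w := ⟨_, rfl⟩
  obtain ⟨U, hU⟩ : ∃ U, U = fixU ν κ f m := ⟨_, rfl⟩
  rw [← hθ] at hθ0 hθ1 hdist
  have hcont : ∀ k, ContinuousOn (U k) hp := fun k => by rw [hU]; exact fixU_cont h hf k
  have hrange : ∀ k, ∀ w ∈ hp, Real.log m ≤ U k w ∧ U k w ≤ Real.log Λ := fun k => by
    rw [hU]; exact fixU_range h hm hmL hf hf1 k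
  have hinv : ∀ k, ∀ γ ∈ S, ∀ w ∈ hp, U k (mo γ w) = U k w := fun k γ hγ => by
    rw [hU]; exact fixU_inv h hf (hfi γ hγ) k
  have hsucc : ∀ k, U (k + 1) = TT ν κ f (U k) := fun k => by rw [hU]; rfl
  obtain ⟨D, hD⟩ : ∃ D, D = Real.log Λ - Real.log m := ⟨_, rfl⟩
  rw [← hU, ← hD] at hdist
  have hdist' : ∀ w ∈ hp, ∀ k, dist (U k w) (U (k + 1) w) ≤ D * θ ^ k := fun w hw k => by
    rw [Real.dist_eq]; exact hdist k w hw
  -- the limit
  have hlim : ∀ w, ∃ l, w ∈ hp → Tendsto (fun k => U k w) atTop (𝓝 l) := by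
    intro w
    by_cases hw : w ∈ hp
    · obtain ⟨l, hl⟩ := cauchySeq_tendsto_of_complete
        (cauchySeq_of_le_geometric θ D hθ1 (hdist' w hw))
      exact ⟨l, fun _ => hl⟩
    · exact ⟨0, fun h => absurd h hw⟩
  choose u hu using hlim
  have htail : ∀ w ∈ hp, ∀ k, dist (U k w) (u w) ≤ D * θ ^ k / (1 - θ) := fun w hw k =>
    dist_le_of_le_geometric_of_tendsto θ D hθ1 (hdist' w hw) (hu w hw) k
  have hgeo : Tendsto (fun k : ℕ => D * θ ^ k / (1 - θ)) atTop (𝓝 0) := by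
    have h1 := (tendsto_pow_atTop_nhds_zero_of_lt_one hθ0 hθ1).const_mul D |>.div_const (1 - θ)
    simpa using h1
  have hunif : TendstoUniformlyOn U u atTop hp := by
    rw [Metric.tendstoUniformlyOn_iff]
    intro ε hε
    filter_upwards [hgeo.eventually_lt_const hε] with k hk w hw
    rw [dist_comm]
    exact (htail w hw k).trans_lt hk
  have hucont : ContinuousOn u hp :=
    hunif.continuousOn (Filter.Eventually.frequently (Eventually.of_forall hcont))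
  have hurange : ∀ w ∈ hp, Real.log m ≤ u w ∧ u w ≤ Real.log Λ := fun w hw =>
    ⟨ge_of_tendsto' (hu w hw) fun k => (hrange k w hw).1,
      le_of_tendsto' (hu w hw) fun k => (hrange k w hw).2⟩
  refine ⟨u, hucont, hurange, ?_, ?_⟩
  · intro γ hγ w hw
    have h1 := hu (mo γ w) (mo_mem γ hw)
    have h2 : (fun k => U k (mo γ w)) = fun k => U k w := by
      funext k
      exact hinv k γ hγ w hw
    rw [h2] at h1
    exact tendsto_nhds_unique h1 (hu w hw)
  · intro z hz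
    have h1 : ∀ k, dist (U (k + 1) z) (TT ν κ f u z) ≤ θ * (D * θ ^ k / (1 - θ)) := by
      intro k
      rw [Real.dist_eq, hsucc, hθ]
      refine TT_contr h hm hmL hf (hcont k) hucont (hrange k) hurange ?_ hz
      intro w hw
      rw [← hθ, ← Real.dist_eq]
      exact htail w hw k
    have h2 : Tendsto (fun k => U (k + 1) z) atTop (𝓝 (TT ν κ f u z)) := by
      rw [tendsto_iff_dist_tendsto_zero]
      refine squeeze_zero (fun k => dist_nonneg) h1 ?_
      simpa using hgeo.const_mul θ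
    have h3 : Tendsto (fun k => U (k + 1) z) atTop (𝓝 (u z)) :=
      (hu z hz).comp (tendsto_add_atTop_nat 1)
    exact tendsto_nhds_unique h2 h3

end KW
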