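import Pool.Agent.Lib.MP_464db4_gt.KW.QQ

/-!
# KW-LapQ: the Laplacian of a function of `qq`

`lapE (ρ ∘ qq) = ρ''(q) (q_ξ² + q_η²) + ρ'(q) lapE qq = (q(q+1) ρ'' + (2q+1) ρ')/η²` (chain rule; `grad_sq`, `lapE_qq`).  `dx (ρ ∘ qq) = ρ'(qq) dx qq` on `hp`, an open set, so the second derivative can be
computed from this formula.  `ρ` is `C²` on `(a, ∞)`, `a < 0`, and `qq w ≥ 0 > a`.
* `ex_lap`: `n = ex (ρ ∘ qq)`, `ρ q = 0` for `q ≥ R`, is `C²` on `ℂ`, zero off `KR R`, with this Laplacian on `hp`, and `lapE n w = 0` off `KR R`.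
-/

namespace KW

open Complex MeasureTheory Set Filter Topology
open scoped ContDiff

variable {ρ : ℝ → ℝ} {a R : ℝ} {w : ℂ}

private lemma LapQ_diff (hw : w ∈ hp) : DifferentiableAt ℝ qq w :=
  (qq_contDiffOn.contDiffAt (isOpen_hp.mem_nhds hw)).differentiableAt (by simp)

private lemma LapQ_comp {v : ℂ} (hρ : DifferentiableAt ℝ ρ (qq w)) (hw : w ∈ hp) :
    fderiv ℝ (fun w => ρ (qq w)) w v = deriv ρ (qq w) * fderiv ℝ qq w v := by
  have h := hρ.hasDerivAt.comp_hasFDerivAt w (LapQ_diff hw).hasFDerivAt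
  have h1 : fderiv ℝ (fun w => ρ (qq w)) w = deriv ρ (qq w) • fderiv ℝ qq w := h.fderiv
  rw [h1]
  rfl

theorem dx_comp_qq (hρ : DifferentiableAt ℝ ρ (qq w)) (hw : w ∈ hp) : dx (fun w => ρ (qq w)) w = deriv ρ (qq w) * dx qq w := by
  exact LapQ_comp hρ hw

theorem dy_comp_qq (hρ : DifferentiableAt ℝ ρ (qq w)) (hw : w ∈ hp) : dy (fun w => ρ (qq w)) w = deriv ρ (qq w) * dy qq w := by
  exact LapQ_comp hρ hw

private lemma LapQ_gdiff (v : ℂ) (hw : w ∈ hp) : DifferentiableAt ℝ (fun z => fderiv ℝ qq z v) w := by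
  have h := (qq_contDiffOn.contDiffAt (isOpen_hp.mem_nhds hw)).fderiv_right (m := 1) (by norm_cast)
  exact (h.differentiableAt (by simp)).clm_apply (differentiableAt_const _)

private lemma LapQ_two (v : ℂ) (ha : a < 0) (hρ : ContDiffOn ℝ 2 ρ (Ioi a)) (hw : w ∈ hp) :
    fderiv ℝ (fun z => fderiv ℝ (fun w => ρ (qq w)) z v) w v =
      deriv (deriv ρ) (qq w) * fderiv ℝ qq w v * fderiv ℝ qq w v +
        deriv ρ (qq w) * fderiv ℝ (fun z => fderiv ℝ qq z v) w v := by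
  have hd1 : ∀ q, 0 ≤ q → DifferentiableAt ℝ ρ q := fun q hq =>
    (hρ.contDiffAt (Ioi_mem_nhds (lt_of_lt_of_le ha hq))).differentiableAt (by simp)
  have hd2 : ∀ q, 0 ≤ q → DifferentiableAt ℝ (deriv ρ) q := fun q hq => by
    have h1 : ContDiffOn ℝ 1 (deriv ρ) (Ioi a) := hρ.deriv_of_isOpen isOpen_Ioi (by norm_num)
    exact (h1.contDiffAt (Ioi_mem_nhds (lt_of_lt_of_le ha hq))).differentiableAt (by simp)
  have e : (fun z => fderiv ℝ (fun w => ρ (qq w)) z v) =ᶠ[𝓝 w]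
      fun z => deriv ρ (qq z) * fderiv ℝ qq z v := by
    filter_upwards [isOpen_hp.mem_nhds hw] with z hz
    exact LapQ_comp (hd1 _ (qq_nonneg hz)) hz
  rw [e.fderiv_eq]
  have hf := (hd2 _ (qq_nonneg hw)).hasDerivAt.comp_hasFDerivAt w (LapQ_diff hw).hasFDerivAt
  have hg := (LapQ_gdiff v hw).hasFDerivAt
  have h := (hf.mul hg).fderiv
  have h' : fderiv ℝ (fun z => deriv ρ (qq z) * fderiv ℝ qq z v) w =
      (deriv ρ ∘ qq) w • fderiv ℝ (fun z => fderiv ℝ qq z v) w +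
        (fderiv ℝ qq w v) • (deriv (deriv ρ) (qq w) • fderiv ℝ qq w) := h
  rw [h']
  simp only [Function.comp, add_apply, smul_apply, smul_eq_mul]
  ring

theorem lapE_comp_qq (ha : a < 0) (hρ : ContDiffOn ℝ 2 ρ (Ioi a)) (hw : w ∈ hp) :
    lapE (fun w => ρ (qq w)) w = (qq w * (qq w + 1) * deriv (deriv ρ) (qq w) + (2 * qq w + 1) * deriv ρ (qq w)) / w.im ^ 2 := by
  have h1 : dx (dx (fun w => ρ (qq w))) w = deriv (deriv ρ) (qq w) * dx qq w * dx qq w + deriv ρ (qq w) * dx (dx qq) w :=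
    LapQ_two 1 ha hρ hw
  have h2 : dy (dy (fun w => ρ (qq w))) w = deriv (deriv ρ) (qq w) * dy qq w * dy qq w + deriv ρ (qq w) * dy (dy qq) w :=
    LapQ_two I ha hρ hw
  have h3 := grad_sq hw
  have h4 := lapE_qq hw
  unfold lapE at h4 ⊢
  rw [h1, h2]
  have h5 : deriv (deriv ρ) (qq w) * dx qq w * dx qq w + deriv ρ (qq w) * dx (dx qq) w +
      (deriv (deriv ρ) (qq w) * dy qq w * dy qq w + deriv ρ (qq w) * dy (dy qq) w) =
      deriv (deriv ρ) (qq w) * (dx qq w ^ 2 + dy qq w ^ 2) + deriv ρ (qq w) * (dx (dx qq) w + dy (dy qq) w) := by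
    ring
  rw [h5, h3, h4]
  ring

private lemma LapQ_congr {f g : ℂ → ℝ} (h : f =ᶠ[𝓝 w] g) : lapE f w = lapE g w := by
  have h1 : dx f =ᶠ[𝓝 w] dx g := by
    filter_upwards [h.fderiv (𝕜 := ℝ)] with z hz
    unfold dx
    rw [hz]
  have h2 : dy f =ᶠ[𝓝 w] dy g := by
    filter_upwards [h.fderiv (𝕜 := ℝ)] with z hz
    unfold dy
    rw [hz]
  unfold lapE
  have e1 : dx (dx f) w = dx (dx g) w := by
    unfold dx at h1 ⊢
    rw [h1.fderiv_eq]
  have e2 : dy (dy f) w = dy (dy g) w := by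
    unfold dy at h2 ⊢
    rw [h2.fderiv_eq]
  rw [e1, e2]

theorem ex_lap (ha : a < 0) (hR : 0 ≤ R) (hρ : ContDiffOn ℝ 2 ρ (Ioi a)) (h0 : ∀ q, R ≤ q → ρ q = 0) :
    ContDiff ℝ 2 (ex (fun w => ρ (qq w))) ∧ (∀ w ∉ KR R, ex (fun w => ρ (qq w)) w = 0) ∧
      (∀ w ∈ hp, lapE (ex (fun w => ρ (qq w))) w = (qq w * (qq w + 1) * deriv (deriv ρ) (qq w) + (2 * qq w + 1) * deriv ρ (qq w)) / w.im ^ 2) ∧
      ∀ w ∉ KR R, lapE (ex (fun w => ρ (qq w))) w = 0 := by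
  have hz : ∀ w ∈ hp, w ∉ KR R → (fun w => ρ (qq w)) w = 0 := by
    intro w hw hK
    refine h0 _ ?_
    by_contra hlt
    exact hK ((mem_KR_iff hw).2 (not_le.1 hlt).le)
  have hc : ContDiffOn ℝ 2 (fun w => ρ (qq w)) hp := by
    refine hρ.comp (qq_contDiffOn.of_le ?_) ?_
    · norm_cast
    · intro w hw
      exact lt_of_lt_of_le ha (qq_nonneg hw)
  refine ⟨?_, ?_, ?_, ?_⟩
  · exact ex_contDiff (k := 2) hR hc hz
  · intro w hw
    exact ex_zero hz hw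
  · intro w hw
    rw [← lapE_comp_qq ha hρ hw]
    refine LapQ_congr ?_
    filter_upwards [isOpen_hp.mem_nhds hw] with z hz'
    exact ex_of_mem hz'
  · intro w hw
    have hn : (KR R)ᶜ ∈ 𝓝 w := (isCompact_KR R).isClosed.isOpen_compl.mem_nhds hw
    have e : ex (fun w => ρ (qq w)) =ᶠ[𝓝 w] fun _ => (0 : ℝ) := by
      filter_upwards [hn] with z hz'
      exact ex_zero hz hz'
    rw [LapQ_congr e]
    have e1 : dx (fun _ : ℂ => (0 : ℝ)) = fun _ => 0 := by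
      funext z
      simp [dx]
    have e2 : dy (fun _ : ℂ => (0 : ℝ)) = fun _ => 0 := by
      funext z
      simp [dy]
    unfold lapE
    rw [e1, e2, e1, e2]
    simp

end KW
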