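import Pool.Agent.Lib.MP_464db4_gt.KW.QQ

/-!
# KW-QInt: integrability of `qq ^ (-s)`, `s < 1`

On `KR R`: `qq w ≥ c ‖w - I‖² ≥ 2 c |ξ| |η - 1|` (`w = ξ + i η`), so `qq w ^ (-s) ≤ (2c)^(-s) |ξ|^(-s) |η-1|^(-s)`, almost everywhere (`ξ ≠ 0`, `η ≠ 1`), and the right side is
integrable on a square containing the bounded set `KR R` as a product of functions of one variable integrable on bounded intervals (`s < 1`: `intervalIntegral.intervalIntegrable_rpow'`,
`MeasureTheory.Integrable.mul_prod` or `Integrable.prod_mul`, measure preserving equivalence `Complex.volume_preserving_equiv_real_prod`).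
* `integrable_ex`: a measurable function on `ℂ` which is zero off `KR R` and bounded by `C * qq w ^ (-s)` at all `w ∈ KR R`, `w ≠ I`, is integrable (`Integrable.mono'` with the indicator
  of `KR R` of `C * qq ^ (-s)`; `{I}` is a null set).
-/

namespace KW

open Complex MeasureTheory Set Filter Topology
open scoped ContDiff

variable {R : ℝ}

private theorem QInt_loc {s : ℝ} (hs1 : s < 1) : LocallyIntegrable (fun u : ℂ => ‖u‖ ^ (-(2 * s))) := by
  have hd : Module.finrank ℝ ℂ = 2 := Complex.finrank_real_complex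
  refine locallyIntegrable_of_norm_le_rpow (C := 1) (α := 2 * s) (by rw [hd]; norm_num) (by rw [hd]; push_cast; linarith) ?_ ?_
  · refine Eventually.of_forall (fun u => ?_)
    rw [Real.norm_of_nonneg (Real.rpow_nonneg (norm_nonneg _) _), one_mul]
  · exact (measurable_norm.pow_const _).aestronglyMeasurable

private theorem QInt_meas (s : ℝ) : Measurable (fun w : ℂ => qq w ^ (-s)) := by
  have h : Measurable qq := by
    unfold qq
    have h1 : Measurable (fun w : ℂ => w.re) := Complex.measurable_re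
    have h2 : Measurable (fun w : ℂ => w.im) := Complex.measurable_im
    exact ((((h1.pow_const 2).add (h2.pow_const 2)).add_const 1).div (h2.const_mul 4)).sub_const _
  exact h.pow_const _

private theorem QInt_trans {s : ℝ} (hs1 : s < 1) {K : Set ℂ} (hK : IsCompact K) :
    IntegrableOn (fun w : ℂ => ‖w - I‖ ^ (-(2 * s))) K := by
  have hK' : IsCompact ((fun w : ℂ => w - I) '' K) := hK.image (by fun_prop)
  have h1 := (QInt_loc hs1).integrableOn_isCompact hK'
  have h2 : Integrable (indicator ((fun w : ℂ => w - I) '' K) (fun u : ℂ => ‖u‖ ^ (-(2 * s)))) :=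
    (integrable_indicator_iff hK'.measurableSet).2 h1
  have h3 := h2.comp_sub_right I
  rw [← integrable_indicator_iff hK.measurableSet]
  refine h3.congr (Eventually.of_forall (fun w => ?_))
  by_cases hw : w ∈ K
  · show indicator _ _ (w - I) = indicator _ _ w
    rw [indicator_of_mem hw, indicator_of_mem (mem_image_of_mem _ hw)]
  · have hw' : w - I ∉ (fun w : ℂ => w - I) '' K := by
      rintro ⟨u, hu, he⟩
      have : u = w := sub_left_injective he
      exact hw (this ▸ hu)
    show indicator _ _ (w - I) = indicator _ _ w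
    rw [indicator_of_notMem hw, indicator_of_notMem hw']

theorem integrableOn_qq (hR : 0 ≤ R) {s : ℝ} (hs : 0 ≤ s) (hs1 : s < 1) : IntegrableOn (fun w : ℂ => qq w ^ (-s)) (KR R) := by
  obtain ⟨c, hc, hcq⟩ := qq_lower hR
  have h1 := (QInt_trans hs1 (isCompact_KR R)).const_mul (c ^ (-s))
  refine Integrable.mono' h1 (QInt_meas s).aestronglyMeasurable ?_
  refine (ae_restrict_iff' (isCompact_KR R).measurableSet).2 ?_
  have hne : ∀ᵐ w : ℂ ∂volume, w ≠ I := compl_mem_ae_iff.2 (measure_singleton I)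
  filter_upwards [hne] with w hw hwK
  have hn : 0 < ‖w - I‖ := norm_pos_iff.2 (sub_ne_zero.2 hw)
  have hq0 : 0 < c * ‖w - I‖ ^ 2 := by positivity
  have hq : 0 < qq w := lt_of_lt_of_le hq0 (hcq w hwK)
  rw [Real.norm_of_nonneg (Real.rpow_nonneg hq.le _)]
  calc qq w ^ (-s) ≤ (c * ‖w - I‖ ^ 2) ^ (-s) :=
        Real.rpow_le_rpow_of_nonpos hq0 (hcq w hwK) (by linarith)
    _ = c ^ (-s) * ‖w - I‖ ^ (-(2 * s)) := by
        rw [Real.mul_rpow hc.le (by positivity), ← Real.rpow_natCast, ← Real.rpow_mul hn.le]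
        congr 2
        push_cast
        ring

theorem integrable_ind (hR : 0 ≤ R) {s : ℝ} (hs : 0 ≤ s) (hs1 : s < 1) (C : ℝ) :
    Integrable (indicator (KR R) (fun w : ℂ => C * qq w ^ (-s))) :=
  (integrable_indicator_iff (isCompact_KR R).measurableSet).2 ((integrableOn_qq hR hs hs1).const_mul C)

private theorem QInt_ne : ∀ᵐ w : ℂ ∂volume, w ≠ I := compl_mem_ae_iff.2 (measure_singleton I)

theorem integrable_of_bd (hR : 0 ≤ R) {s : ℝ} (hs : 0 ≤ s) (hs1 : s < 1) {C : ℝ} {n : ℂ → ℝ} (hm : AEStronglyMeasurable n volume)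
    (h0 : ∀ w ∉ KR R, n w = 0) (hb : ∀ w ∈ KR R, w ≠ I → |n w| ≤ C * qq w ^ (-s)) : Integrable n := by
  refine Integrable.mono' (integrable_ind hR hs hs1 C) hm ?_
  filter_upwards [QInt_ne] with w hw
  rw [Real.norm_eq_abs]
  by_cases hK : w ∈ KR R
  · rw [indicator_of_mem hK]
    exact hb w hK hw
  · rw [indicator_of_notMem hK, h0 w hK, abs_zero]

/-- Dominated convergence for kernels. -/
theorem tendsto_int_of_bd (hR : 0 ≤ R) {s : ℝ} (hs : 0 ≤ s) (hs1 : s < 1) {C : ℝ} {n : ℂ → ℝ} {N : ℕ → ℂ → ℝ}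
    (hm : ∀ j, AEStronglyMeasurable (N j) volume) (h0 : ∀ j, ∀ w ∉ KR R, N j w = 0) (hn0 : ∀ w ∉ KR R, n w = 0)
    (hb : ∀ j, ∀ w ∈ KR R, w ≠ I → |N j w| ≤ C * qq w ^ (-s))
    (hl : ∀ w ∈ KR R, w ≠ I → Tendsto (fun j => N j w) atTop (𝓝 (n w))) :
    Integrable n ∧ Tendsto (fun j => ∫ w, N j w) atTop (𝓝 (∫ w, n w)) ∧ Tendsto (fun j => ∫ w, |N j w - n w|) atTop (𝓝 0) := by
  have hlim : ∀ᵐ w : ℂ ∂volume, Tendsto (fun j => N j w) atTop (𝓝 (n w)) := by
    filter_upwards [QInt_ne] with w hw
    by_cases hK : w ∈ KR R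
    · exact hl w hK hw
    · rw [hn0 w hK]
      have : (fun j => N j w) = fun _ => (0 : ℝ) := funext (fun j => h0 j w hK)
      rw [this]
      exact tendsto_const_nhds
  have hnm : AEStronglyMeasurable n volume := aestronglyMeasurable_of_tendsto_ae atTop hm hlim
  have hnb : ∀ w ∈ KR R, w ≠ I → |n w| ≤ C * qq w ^ (-s) := by
    intro w hK hw
    exact le_of_tendsto (hl w hK hw).abs (Eventually.of_forall (fun j => hb j w hK hw))
  have hni : Integrable n := integrable_of_bd hR hs hs1 hnm hn0 hnb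
  refine ⟨hni, ?_, ?_⟩
  · refine tendsto_integral_of_dominated_convergence (indicator (KR R) (fun w : ℂ => C * qq w ^ (-s)))
      hm (integrable_ind hR hs hs1 C) (fun j => ?_) hlim
    filter_upwards [QInt_ne] with w hw
    rw [Real.norm_eq_abs]
    by_cases hK : w ∈ KR R
    · rw [indicator_of_mem hK]
      exact hb j w hK hw
    · rw [indicator_of_notMem hK, h0 j w hK, abs_zero]
  · have h1 : Tendsto (fun j => ∫ w, |N j w - n w|) atTop (𝓝 (∫ _w : ℂ, (0 : ℝ))) := by
      refine tendsto_integral_of_dominated_convergence (indicator (KR R) (fun w : ℂ => (2 * C) * qq w ^ (-s)))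
        (fun j => ((hm j).sub hnm).norm) (integrable_ind hR hs hs1 (2 * C)) (fun j => ?_) ?_
      · filter_upwards [QInt_ne] with w hw
        rw [Real.norm_eq_abs, abs_abs]
        by_cases hK : w ∈ KR R
        · rw [indicator_of_mem hK]
          have h2 := hb j w hK hw
          have h3 := hnb w hK hw
          have h4 := abs_sub (N j w) (n w)
          linarith
        · rw [indicator_of_notMem hK, h0 j w hK, hn0 w hK, sub_zero, abs_zero]
      · filter_upwards [hlim] with w hw
        have h5 := (hw.sub_const (n w)).abs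
        rwa [sub_self, abs_zero] at h5
    rwa [integral_zero] at h1

end KW
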