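import Pool.Agent.Lib.MP_464db4_gt.KW.PrA
import Pool.Agent.Lib.MP_464db4_gt.KW.QInt
import Pool.Agent.Lib.MP_464db4_gt.KW.CvS

/-!
# KW-PrB: kernels with a profile of class `Prof` are of class `WKer`

`N j = sh ν (1/(j+1))`.  On `KR R`, `w ≠ I` (so `q = qq w > 0`), with `m ≤ η = w.im` (`im_bd`) and `|q_ξ|, |q_η| ≤ C' q^(1/2)` (`grad_bd`):
`|N j w| ≤ C (q + ε)^(-1/4) / m² ≤ (C/m²) q^(-1/4)` and `|kA (N j) w|, |kE (N j) w| ≤ C (q+ε)^(-5/4) C'' q^(1/2) / m² ≤ C''' q^(-3/4)`; the functions converge at `w` (`ν`, `deriv ν` are continuous at `q > 0`).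
`tendsto_int_of_bd` with `s = 3/4` or `s = 1/4` (a profile bounded by `q^(-1/4)` is, on `KR R`, also bounded by a constant times `q^(-3/4)`, or use `s = 1/4`) gives the integrability of the limits and the
`L¹` convergence.  The kernels vanish off `KR R` (`sh_zero`, `kA_zero`, `kE_zero`, `kn_zero`, `ex_zero` with `deriv_zero`, `mem_KR_iff`).
-/

namespace KW

open Complex MeasureTheory Set Filter Topology
open scoped ContDiff

variable {ν : ℝ → ℝ} {R C : ℝ}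

private theorem PrB_eps_pos (j : ℕ) : (0 : ℝ) < 1 / ((j : ℝ) + 1) := by positivity

private theorem PrB_lim (q : ℝ) : Tendsto (fun j : ℕ => q + 1 / ((j : ℝ) + 1)) atTop (𝓝 q) := by
  have h := (tendsto_const_nhds (x := q)).add (tendsto_one_div_add_atTop_nhds_zero_nat (𝕜 := ℝ))
  simpa using h

/-- Bounds on `KR R`, uniform in the shift. -/
private theorem PrB_bds (hν : Prof ν R C) : ∃ K : ℝ, ∀ w ∈ KR R, w ≠ I → ∀ ε : ℝ, 0 ≤ ε →
    |ν (qq w + ε) / w.im ^ 2| ≤ K * qq w ^ (-(1 / 4) : ℝ) ∧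
    |deriv ν (qq w + ε) * dx qq w / w.im ^ 2| ≤ K * qq w ^ (-(3 / 4) : ℝ) ∧
    |deriv ν (qq w + ε) * L0 qq w / w.im ^ 2| ≤ K * qq w ^ (-(3 / 4) : ℝ) := by
  have hR := hν.R_pos.le
  obtain ⟨m, hm, hmb⟩ := im_bd hR
  obtain ⟨C', hC', hgb⟩ := grad_bd hR
  have hC := hν.C_pos
  refine ⟨C / m ^ 2 + C * C' / m ^ 2 + C * (2 * C' / m) / m ^ 2, fun w hw hwI ε hε => ?_⟩
  have hwh : w ∈ hp := KR_sub hR hw
  have hq : 0 < qq w := qq_pos hwh hwI
  obtain ⟨him, hno⟩ := hmb w hw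
  obtain ⟨hgx, hgy⟩ := hgb w hw
  have him0 : 0 < w.im := hwh
  have hm2 : m ^ 2 ≤ w.im ^ 2 := pow_le_pow_left₀ hm.le him 2
  have hm20 : 0 < m ^ 2 := by positivity
  have hi20 : 0 < w.im ^ 2 := by positivity
  have hqe : 0 < qq w + ε := by linarith
  have e1 : |ν (qq w + ε)| ≤ C * qq w ^ (-(1 / 4) : ℝ) :=
    (hν.bd _ hqe).trans (mul_le_mul_of_nonneg_left
      (Real.rpow_le_rpow_of_nonpos hq (by linarith) (by norm_num)) hC.le)
  have e2 : |deriv ν (qq w + ε)| ≤ C * qq w ^ (-(5 / 4) : ℝ) :=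
    (hν.bd' _ hqe).trans (mul_le_mul_of_nonneg_left
      (Real.rpow_le_rpow_of_nonpos hq (by linarith) (by norm_num)) hC.le)
  have hp1 : 0 < qq w ^ (-(1 / 4) : ℝ) := Real.rpow_pos_of_pos hq _
  have hp3 : 0 < qq w ^ (-(3 / 4) : ℝ) := Real.rpow_pos_of_pos hq _
  have hp5 : 0 < qq w ^ (-(5 / 4) : ℝ) := Real.rpow_pos_of_pos hq _
  have hp2 : 0 < qq w ^ (1 / 2 : ℝ) := Real.rpow_pos_of_pos hq _
  have hprod : qq w ^ (-(5 / 4) : ℝ) * qq w ^ (1 / 2 : ℝ) = qq w ^ (-(3 / 4) : ℝ) := by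
    rw [← Real.rpow_add hq]
    norm_num
  have hL0 : |L0 qq w| ≤ (2 * C' / m) * qq w ^ (1 / 2 : ℝ) := by
    have h1 : |w.re| ≤ 1 / m := (Complex.abs_re_le_norm w).trans hno
    have h2 : |w.im| ≤ 1 / m := (Complex.abs_im_le_norm w).trans hno
    calc |L0 qq w| = |w.re * dx qq w + w.im * dy qq w| := rfl
      _ ≤ |w.re * dx qq w| + |w.im * dy qq w| := abs_add_le _ _
      _ = |w.re| * |dx qq w| + |w.im| * |dy qq w| := by rw [abs_mul, abs_mul]
      _ ≤ (1 / m) * (C' * qq w ^ (1 / 2 : ℝ)) + (1 / m) * (C' * qq w ^ (1 / 2 : ℝ)) := by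
          gcongr
      _ = (2 * C' / m) * qq w ^ (1 / 2 : ℝ) := by ring
  have key : ∀ x D s : ℝ, 0 ≤ D → 0 < s → |x| ≤ D * s → |x / w.im ^ 2| ≤ (D / m ^ 2) * s := by
    intro x D s hD hs hx
    rw [abs_div, abs_of_pos hi20]
    calc |x| / w.im ^ 2 ≤ (D * s) / m ^ 2 :=
          div_le_div₀ (by positivity) hx hm20 hm2
      _ = (D / m ^ 2) * s := by ring
  have hA : 0 ≤ C / m ^ 2 := by positivity
  have hB : 0 ≤ C * C' / m ^ 2 := by positivity
  have hD : 0 ≤ C * (2 * C' / m) / m ^ 2 := by positivity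
  refine ⟨?_, ?_, ?_⟩
  · refine (key _ C _ hC.le hp1 e1).trans (mul_le_mul_of_nonneg_right ?_ hp1.le)
    linarith
  · refine (key _ (C * C') _ (by positivity) hp3 ?_).trans (mul_le_mul_of_nonneg_right ?_ hp3.le)
    · rw [abs_mul, ← hprod]
      calc |deriv ν (qq w + ε)| * |dx qq w|
          ≤ (C * qq w ^ (-(5 / 4) : ℝ)) * (C' * qq w ^ (1 / 2 : ℝ)) := by gcongr
        _ = C * C' * (qq w ^ (-(5 / 4) : ℝ) * qq w ^ (1 / 2 : ℝ)) := by ring
    · linarith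
  · refine (key _ (C * (2 * C' / m)) _ (by positivity) hp3 ?_).trans
      (mul_le_mul_of_nonneg_right ?_ hp3.le)
    · rw [abs_mul, ← hprod]
      calc |deriv ν (qq w + ε)| * |L0 qq w|
          ≤ (C * qq w ^ (-(5 / 4) : ℝ)) * ((2 * C' / m) * qq w ^ (1 / 2 : ℝ)) := by gcongr
        _ = C * (2 * C' / m) * (qq w ^ (-(5 / 4) : ℝ) * qq w ^ (1 / 2 : ℝ)) := by ring
    · linarith

private theorem PrB_lA_zero (hν : Prof ν R C) {w : ℂ} (hw : w ∉ KR R) : lA ν w = 0 := by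
  refine ex_zero (R := R) (fun v hv hvR => ?_) hw
  have : R ≤ qq v := le_of_lt (not_le.1 fun h => hvR ((mem_KR_iff hv).2 h))
  rw [deriv_zero hν this]
  simp

private theorem PrB_lE_zero (hν : Prof ν R C) {w : ℂ} (hw : w ∉ KR R) : lE ν w = 0 := by
  refine ex_zero (R := R) (fun v hv hvR => ?_) hw
  have : R ≤ qq v := le_of_lt (not_le.1 fun h => hvR ((mem_KR_iff hv).2 h))
  rw [deriv_zero hν this]
  simp

private theorem PrB_n (hν : Prof ν R C) : Integrable (kn ν) ∧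
    Tendsto (fun j : ℕ => ∫ w, |sh ν (1 / ((j : ℝ) + 1)) w - kn ν w|) atTop (𝓝 0) := by
  have hR := hν.R_pos.le
  obtain ⟨K, hK⟩ := PrB_bds hν
  have h := tendsto_int_of_bd (s := 1 / 4) (C := K) (n := kn ν)
    (N := fun j : ℕ => sh ν (1 / ((j : ℝ) + 1))) hR (by norm_num) (by norm_num)
    (fun j => (sh_contDiff hν (PrB_eps_pos j)).continuous.aestronglyMeasurable)
    (fun j w hw => sh_zero hν (PrB_eps_pos j) hw) (fun w hw => kn_zero hR hν.zero hw)
    (fun j w hw hwI => by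
      have hwh : w ∈ hp := KR_sub hR hw
      show |kn (fun q => ν (q + 1 / ((j : ℝ) + 1))) w| ≤ _
      rw [kn_eq hwh]
      exact (hK w hw hwI _ (PrB_eps_pos j).le).1)
    (fun w hw hwI => by
      have hwh : w ∈ hp := KR_sub hR hw
      have hq : 0 < qq w := qq_pos hwh hwI
      have hc : ContinuousAt ν (qq w) := hν.smooth.continuousOn.continuousAt (Ioi_mem_nhds hq)
      have h1 : (fun j : ℕ => sh ν (1 / ((j : ℝ) + 1)) w) =
          fun j : ℕ => ν (qq w + 1 / ((j : ℝ) + 1)) / w.im ^ 2 := by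
        funext j
        exact kn_eq hwh
      show Tendsto (fun j : ℕ => sh ν (1 / ((j : ℝ) + 1)) w) atTop (𝓝 (kn ν w))
      rw [h1, kn_eq hwh]
      exact (hc.tendsto.comp (PrB_lim (qq w))).div_const _)
  exact ⟨h.1, h.2.2⟩

private theorem PrB_contDeriv (hν : Prof ν R C) {q : ℝ} (hq : 0 < q) : ContinuousAt (deriv ν) q :=
  (hν.smooth.continuousOn_deriv_of_isOpen isOpen_Ioi le_rfl).continuousAt (Ioi_mem_nhds hq)

private theorem PrB_a (hν : Prof ν R C) : Integrable (lA ν) ∧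
    Tendsto (fun j : ℕ => ∫ w, |kA (sh ν (1 / ((j : ℝ) + 1))) w - lA ν w|) atTop (𝓝 0) := by
  have hR := hν.R_pos.le
  obtain ⟨K, hK⟩ := PrB_bds hν
  have h := tendsto_int_of_bd (s := 3 / 4) (C := K) (n := lA ν)
    (N := fun j : ℕ => kA (sh ν (1 / ((j : ℝ) + 1)))) hR (by norm_num) (by norm_num)
    (fun j => (GKer.of_contDiff hR (sh_contDiff hν (PrB_eps_pos j))
      (fun w hw => sh_zero hν (PrB_eps_pos j) hw)).2.1.int.aestronglyMeasurable)
    (fun j w hw => kA_zero (fun w hw => sh_zero hν (PrB_eps_pos j) hw) hw)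
    (fun w hw => PrB_lA_zero hν hw)
    (fun j w hw hwI => by
      have hwh : w ∈ hp := KR_sub hR hw
      show |kA (sh ν (1 / ((j : ℝ) + 1))) w| ≤ _
      rw [kA_sh hν (PrB_eps_pos j) hwh]
      exact (hK w hw hwI _ (PrB_eps_pos j).le).2.1)
    (fun w hw hwI => by
      have hwh : w ∈ hp := KR_sub hR hw
      have hq : 0 < qq w := qq_pos hwh hwI
      have hc : ContinuousAt (deriv ν) (qq w) := PrB_contDeriv hν hq
      have h1 : (fun j : ℕ => kA (sh ν (1 / ((j : ℝ) + 1))) w) =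
          fun j : ℕ => deriv ν (qq w + 1 / ((j : ℝ) + 1)) * dx qq w / w.im ^ 2 := by
        funext j
        exact kA_sh hν (PrB_eps_pos j) hwh
      have h2 : lA ν w = deriv ν (qq w) * dx qq w / w.im ^ 2 := ex_of_mem hwh
      show Tendsto (fun j : ℕ => kA (sh ν (1 / ((j : ℝ) + 1))) w) atTop (𝓝 (lA ν w))
      rw [h1, h2]
      exact ((hc.tendsto.comp (PrB_lim (qq w))).mul_const _).div_const _)
  exact ⟨h.1, h.2.2⟩

private theorem PrB_e (hν : Prof ν R C) : Integrable (lE ν) ∧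
    Tendsto (fun j : ℕ => ∫ w, |kE (sh ν (1 / ((j : ℝ) + 1))) w - lE ν w|) atTop (𝓝 0) := by
  have hR := hν.R_pos.le
  obtain ⟨K, hK⟩ := PrB_bds hν
  have h := tendsto_int_of_bd (s := 3 / 4) (C := K) (n := lE ν)
    (N := fun j : ℕ => kE (sh ν (1 / ((j : ℝ) + 1)))) hR (by norm_num) (by norm_num)
    (fun j => (GKer.of_contDiff hR (sh_contDiff hν (PrB_eps_pos j))
      (fun w hw => sh_zero hν (PrB_eps_pos j) hw)).2.2.int.aestronglyMeasurable)
    (fun j w hw => kE_zero (fun w hw => sh_zero hν (PrB_eps_pos j) hw) hw)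
    (fun w hw => PrB_lE_zero hν hw)
    (fun j w hw hwI => by
      have hwh : w ∈ hp := KR_sub hR hw
      show |kE (sh ν (1 / ((j : ℝ) + 1))) w| ≤ _
      rw [kE_sh hν (PrB_eps_pos j) hwh]
      exact (hK w hw hwI _ (PrB_eps_pos j).le).2.2)
    (fun w hw hwI => by
      have hwh : w ∈ hp := KR_sub hR hw
      have hq : 0 < qq w := qq_pos hwh hwI
      have hc : ContinuousAt (deriv ν) (qq w) := PrB_contDeriv hν hq
      have h1 : (fun j : ℕ => kE (sh ν (1 / ((j : ℝ) + 1))) w) =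
          fun j : ℕ => deriv ν (qq w + 1 / ((j : ℝ) + 1)) * L0 qq w / w.im ^ 2 := by
        funext j
        exact kE_sh hν (PrB_eps_pos j) hwh
      have h2 : lE ν w = deriv ν (qq w) * L0 qq w / w.im ^ 2 := ex_of_mem hwh
      show Tendsto (fun j : ℕ => kE (sh ν (1 / ((j : ℝ) + 1))) w) atTop (𝓝 (lE ν w))
      rw [h1, h2]
      exact ((hc.tendsto.comp (PrB_lim (qq w))).mul_const _).div_const _)
  exact ⟨h.1, h.2.2⟩

theorem gker_kn (hν : Prof ν R C) : GKer (kn ν) :=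
  ⟨⟨R, hν.R_pos.le, fun _ hw => kn_zero hν.R_pos.le hν.zero hw⟩, (PrB_n hν).1⟩

theorem wker (hν : Prof ν R C) : WKer (kn ν) (lA ν) (lE ν) R (fun j => sh ν (1 / (j + 1))) where
  R_nonneg := hν.R_pos.le
  gn := gker_kn hν
  ga := ⟨⟨R, hν.R_pos.le, fun _ hw => PrB_lA_zero hν hw⟩, (PrB_a hν).1⟩
  gb := ⟨⟨R, hν.R_pos.le, fun _ hw => PrB_lE_zero hν hw⟩, (PrB_e hν).1⟩
  n_zero := fun _ hw => kn_zero hν.R_pos.le hν.zero hw
  a_zero := fun _ hw => PrB_lA_zero hν hw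
  b_zero := fun _ hw => PrB_lE_zero hν hw
  N_smooth := fun j => sh_contDiff hν (PrB_eps_pos j)
  N_zero := fun j _ hw => sh_zero hν (PrB_eps_pos j) hw
  lim := (PrB_n hν).2
  limA := (PrB_a hν).2
  limE := (PrB_e hν).2

end KW
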