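import Pool.Agent.Lib.MP_464db4_gt.KW.Div
import Pool.Agent.Lib.MP_464db4_gt.KW.LapQ
import Pool.Agent.Lib.MP_464db4_gt.KW.PrB

/-!
# KW-IdA: the fundamental solution property of `ν`, at the point `i`

`KPair ν κ R C Λ`, `g` of class `C²` on `hp`.  Put `G = g - g I`, `ν_ε q = ν (q + ε)` (`C²` on `(-ε, ∞)`), `n = ex (ν_ε ∘ qq)`.
`green` for `G`: `∫ lapE g * n = ∫ G * lapE n` (`lapE G = lapE g`), and on `hp` (`ex_lap`)
`η² lapE n = q(q+1) ν''(q+ε) + (2q+1) ν'(q+ε)`.
On `KR R`, `|G w| ≤ L q^(1/2)` (mean value inequality on the convex compact disc `KR R`), so for `w ≠ I`: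
`|G w lapE n w| ≤ L q^(1/2) ((R+1) C / q + (2R+1) C / q) / m² ≤ C₂ q^(-1/2)`, and it converges to `G w κ q / η²` as `ε → 0`.
`|lapE g w n w| ≤ M C q^(-1/4)` converges to `lapE g w ν (qq w) = lapH g w * kn ν w`.  `tendsto_int_of_bd` (`ε = 1/(j+1)`) for both sides gives
`∫ lapH g * kn ν = ∫ G * kn κ = ∫ g * kn κ - g I * ∫ kn κ`.
-/

namespace KW

open Complex MeasureTheory Set Filter Topology
open scoped ContDiff

variable {ν κ : ℝ → ℝ} {R C Λ : ℝ} {g : ℂ → ℝ}

private theorem IdA_convex (R : ℝ) : Convex ℝ (KR R) := by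
  intro w hw z hz a b ha hb hab
  simp only [KR, mem_ofPred_eq] at *
  simp only [add_re, add_im, real_smul, re_ofReal_mul, im_ofReal_mul]
  have hb' : b = 1 - a := by linarith
  subst hb'
  nlinarith [mul_nonneg (mul_nonneg ha hb) (sq_nonneg (w.re - z.re)),
    mul_nonneg (mul_nonneg ha hb) (sq_nonneg (w.im - z.im)),
    mul_le_mul_of_nonneg_left hw ha, mul_le_mul_of_nonneg_left hz hb]

theorem g_lip (hR : 0 ≤ R) (hg : ContDiffOn ℝ 1 g hp) : ∃ L : ℝ, 0 < L ∧ ∀ w ∈ KR R, |g w - g I| ≤ L * qq w ^ (1 / 2 : ℝ) := by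
  obtain ⟨c, hc, hcq⟩ := qq_lower hR
  have hcont : ContinuousOn (fderiv ℝ g) hp := hg.continuousOn_fderiv_of_isOpen isOpen_hp le_rfl
  obtain ⟨M, hM⟩ := (isCompact_KR R).exists_bound_of_continuousOn (hcont.mono (KR_sub hR))
  have hM0 : 0 ≤ M := (norm_nonneg _).trans (hM I (I_mem_KR hR))
  refine ⟨(M + 1) * Real.sqrt (1 / c), by positivity, fun w hw => ?_⟩
  have h1 : ‖g w - g I‖ ≤ M * ‖w - I‖ := by
    refine (IdA_convex R).norm_image_sub_le_of_norm_fderiv_le (𝕜 := ℝ) (fun x hx => ?_) (fun x hx => hM x hx)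
      (I_mem_KR hR) hw
    exact (hg.differentiableOn one_ne_zero).differentiableAt (isOpen_hp.mem_nhds (KR_sub hR hx))
  have h2 := hcq w hw
  have hq0 : 0 ≤ qq w := qq_nonneg (KR_sub hR hw)
  have h3 : ‖w - I‖ ≤ Real.sqrt (1 / c) * qq w ^ (1 / 2 : ℝ) := by
    rw [← Real.sqrt_eq_rpow, ← Real.sqrt_mul (by positivity)]
    apply Real.le_sqrt_of_sq_le
    rw [one_div, inv_mul_eq_div, le_div_iff₀ hc]
    linarith
  rw [← Real.norm_eq_abs]
  calc ‖g w - g I‖ ≤ M * ‖w - I‖ := h1
    _ ≤ (M + 1) * (Real.sqrt (1 / c) * qq w ^ (1 / 2 : ℝ)) :=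
      mul_le_mul (by linarith) h3 (norm_nonneg _) (by linarith)
    _ = _ := by ring

private theorem IdA_dx (hg : ContDiffOn ℝ 2 g hp) : ContDiffOn ℝ 1 (dx g) hp :=
  (hg.fderiv_of_isOpen isOpen_hp (m := 1) (by norm_num)).clm_apply contDiffOn_const

private theorem IdA_dy (hg : ContDiffOn ℝ 2 g hp) : ContDiffOn ℝ 1 (dy g) hp :=
  (hg.fderiv_of_isOpen isOpen_hp (m := 1) (by norm_num)).clm_apply contDiffOn_const

private theorem IdA_lap (hg : ContDiffOn ℝ 2 g hp) : ContinuousOn (lapE g) hp := by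
  have h1 : ContinuousOn (dx (dx g)) hp :=
    ((IdA_dx hg).continuousOn_fderiv_of_isOpen isOpen_hp le_rfl).clm_apply continuousOn_const
  have h2 : ContinuousOn (dy (dy g)) hp :=
    ((IdA_dy hg).continuousOn_fderiv_of_isOpen isOpen_hp le_rfl).clm_apply continuousOn_const
  exact h1.add h2

private theorem IdA_sub (a : ℝ) : lapE (fun w => g w - a) = lapE g := by
  have h1 : dx (fun w => g w - a) = dx g := by
    funext w; simp only [dx, fderiv_sub_const]
  have h2 : dy (fun w => g w - a) = dy g := by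
    funext w; simp only [dy, fderiv_sub_const]
  funext w
  simp only [lapE, h1, h2]

private theorem IdA_lim : Tendsto (fun j : ℕ => 1 / ((j : ℝ) + 1)) atTop (𝓝 0) :=
  tendsto_one_div_add_atTop_nhds_zero_nat

private theorem IdA_contAt {f : ℝ → ℝ} (hf : ContinuousOn f (Ioi 0)) {q : ℝ} (hq : 0 < q) :
    Tendsto (fun j : ℕ => f (q + 1 / ((j : ℝ) + 1))) atTop (𝓝 (f q)) := by
  have h1 : ContinuousAt f q := hf.continuousAt (Ioi_mem_nhds hq)
  have h2 : Tendsto (fun j : ℕ => q + 1 / ((j : ℝ) + 1)) atTop (𝓝 (q + 0)) :=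
    tendsto_const_nhds.add IdA_lim
  rw [add_zero] at h2
  exact h1.tendsto.comp h2

theorem id0 (h : KPair ν κ R C Λ) (hg : ContDiffOn ℝ 2 g hp) :
    ∫ w, lapH g w * kn ν w = (∫ w, g w * kn κ w) - g I * ∫ w, kn κ w := by
  have hR : 0 < R := h.profN.R_pos
  have hC : 0 < C := h.profN.C_pos
  obtain ⟨L, hL, hLg⟩ := g_lip (g := g) hR.le (hg.of_le (by norm_num))
  obtain ⟨m, hm, hmi⟩ := im_bd (R := R) hR.le
  obtain ⟨M, hM⟩ := (isCompact_KR R).exists_bound_of_continuousOn ((IdA_lap hg).mono (KR_sub hR.le))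
  have hM0 : 0 ≤ M := (norm_nonneg _).trans (hM I (I_mem_KR hR.le))
  have hε : ∀ j : ℕ, 0 < 1 / ((j : ℝ) + 1) := fun j => by positivity
  -- the smooth kernels
  have hex : ∀ j : ℕ, _ := fun j => ex_lap (ρ := fun q => ν (q + 1 / ((j : ℝ) + 1))) (a := -(1 / ((j : ℝ) + 1))) (R := R)
    (neg_lt_zero.2 (hε j)) hR.le
    (h.smooth2.comp (contDiff_id.add contDiff_const).contDiffOn (fun q hq => by
      simp only [mem_Ioi] at hq ⊢; linarith))
    (fun q hq => h.profN.zero _ (by have := hε j; linarith))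
  have hd1 : ∀ (j : ℕ) (q : ℝ), deriv (fun q => ν (q + 1 / ((j : ℝ) + 1))) q = deriv ν (q + 1 / ((j : ℝ) + 1)) :=
    fun j q => deriv_comp_add_const _ _ _
  have hd2 : ∀ (j : ℕ) (q : ℝ), deriv (deriv (fun q => ν (q + 1 / ((j : ℝ) + 1)))) q = deriv (deriv ν) (q + 1 / ((j : ℝ) + 1)) := by
    intro j q
    have h1 : deriv (fun q => ν (q + 1 / ((j : ℝ) + 1))) = fun q => deriv ν (q + 1 / ((j : ℝ) + 1)) := funext (hd1 j)
    rw [h1]
    exact deriv_comp_add_const _ _ _
  have hgG : ContDiffOn ℝ 2 (fun w => g w - g I) hp := hg.sub contDiffOn_const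
  have hgreen : ∀ j : ℕ, ∫ w, lapE g w * ex (fun w => ν (qq w + 1 / ((j : ℝ) + 1))) w =
      ∫ w, (g w - g I) * lapE (ex (fun w => ν (qq w + 1 / ((j : ℝ) + 1)))) w := by
    intro j
    have h1 := green hR.le (hex j).1 (hex j).2.1 hgG
    rw [IdA_sub] at h1
    exact h1
  -- the left side
  have hleft := tendsto_int_of_bd (R := R) hR.le (s := 1 / 4) (by norm_num) (by norm_num) (C := M * C)
    (n := fun w => lapH g w * kn ν w)
    (N := fun j w => lapE g w * ex (fun w => ν (qq w + 1 / ((j : ℝ) + 1))) w)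
    (fun j => (integrable_of_contOn hR.le ((IdA_lap hg).mul (hex j).1.continuous.continuousOn)
      (fun w hw => by
        have := (hex j).2.1 w hw
        rw [Pi.mul_apply, this, mul_zero])).aestronglyMeasurable)
    (fun j w hw => by
        have := (hex j).2.1 w hw
        rw [this, mul_zero])
    (fun w hw => by
      rw [kn_zero hR.le h.profN.zero hw, mul_zero])
    (fun j w hw hwI => by
      have hwp : w ∈ hp := KR_sub hR.le hw
      have hq : 0 < qq w := qq_pos hwp hwI
      rw [ex_of_mem hwp, abs_mul, mul_assoc]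
      refine mul_le_mul (hM w hw) ?_ (abs_nonneg _) hM0
      refine (h.profN.bd _ (by have := hε j; linarith)).trans ?_
      exact mul_le_mul_of_nonneg_left
        (Real.rpow_le_rpow_of_nonpos hq (by have := hε j; linarith) (by norm_num)) hC.le)
    (fun w hw hwI => by
      have hwp : w ∈ hp := KR_sub hR.le hw
      have hq : 0 < qq w := qq_pos hwp hwI
      have him : w.im ≠ 0 := ne_of_gt hwp
      have e : lapH g w * kn ν w = lapE g w * ν (qq w) := by
        rw [kn_eq hwp, lapH]; field_simp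
      simp only [ex_of_mem hwp]
      rw [e]
      exact (IdA_contAt h.smooth2.continuousOn hq).const_mul _)
  -- the right side
  have hright := tendsto_int_of_bd (R := R) hR.le (s := 1 / 2) (by norm_num) (by norm_num)
    (C := L * (((R + 1) * C + (2 * R + 1) * C) / m ^ 2))
    (n := fun w => (g w - g I) * kn κ w)
    (N := fun j w => (g w - g I) * lapE (ex (fun w => ν (qq w + 1 / ((j : ℝ) + 1)))) w)
    (fun j => (integrable_of_contOn hR.le (hgG.continuousOn.mul (IdA_lap (hex j).1.contDiffOn))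
      (fun w hw => by
        have := (hex j).2.2.2 w hw
        rw [Pi.mul_apply, this, mul_zero])).aestronglyMeasurable)
    (fun j w hw => by
        have := (hex j).2.2.2 w hw
        rw [this, mul_zero])
    (fun w hw => by
      rw [kn_zero hR.le h.profK.zero hw, mul_zero])
    (fun j w hw hwI => by
      have hwp : w ∈ hp := KR_sub hR.le hw
      have hq : 0 < qq w := qq_pos hwp hwI
      have hqR : qq w ≤ R := (mem_KR_iff hwp).1 hw
      have hmi1 : m ≤ w.im := (hmi w hw).1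
      have hej := hε j
      have h1 := (hex j).2.2.1 w hwp
      rw [h1, hd1, hd2, abs_mul]
      have hb1 := h.bd1 (qq w + 1 / ((j : ℝ) + 1)) (by linarith)
      have hb2 := h.bd2 (qq w + 1 / ((j : ℝ) + 1)) (by linarith)
      have hb1' : |deriv ν (qq w + 1 / ((j : ℝ) + 1))| ≤ C / qq w :=
        hb1.trans (div_le_div_of_nonneg_left hC.le hq (by linarith))
      have hb2' : |deriv (deriv ν) (qq w + 1 / ((j : ℝ) + 1))| ≤ C / qq w ^ 2 :=
        hb2.trans (div_le_div_of_nonneg_left hC.le (by positivity) (by gcongr; linarith))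
      have hnum : |(qq w * (qq w + 1) * deriv (deriv ν) (qq w + 1 / ((j : ℝ) + 1)) +
          (2 * qq w + 1) * deriv ν (qq w + 1 / ((j : ℝ) + 1))) / w.im ^ 2| ≤
          ((R + 1) * C + (2 * R + 1) * C) / m ^ 2 / qq w := by
        rw [abs_div, abs_of_nonneg (sq_nonneg w.im), div_div, mul_comm (m ^ 2), ← div_div]
        refine div_le_div₀ (by positivity) ?_ (by positivity) (by gcongr)
        refine (abs_add_le _ _).trans ?_
        rw [abs_mul (qq w * (qq w + 1)), abs_mul (2 * qq w + 1), abs_of_nonneg (by positivity : 0 ≤ qq w * (qq w + 1)),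
          abs_of_nonneg (by positivity : 0 ≤ 2 * qq w + 1)]
        calc qq w * (qq w + 1) * |deriv (deriv ν) (qq w + 1 / ((j : ℝ) + 1))| +
              (2 * qq w + 1) * |deriv ν (qq w + 1 / ((j : ℝ) + 1))|
            ≤ qq w * (R + 1) * (C / qq w ^ 2) + (2 * R + 1) * (C / qq w) := by gcongr
          _ = ((R + 1) * C + (2 * R + 1) * C) / qq w := by
              field_simp
      have hqq : qq w ^ (1 / 2 : ℝ) / qq w = qq w ^ (-(1 / 2) : ℝ) := by
        rw [div_eq_mul_inv, ← Real.rpow_neg_one (qq w), ← Real.rpow_add hq]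
        norm_num
      calc |g w - g I| * _ ≤ (L * qq w ^ (1 / 2 : ℝ)) * (((R + 1) * C + (2 * R + 1) * C) / m ^ 2 / qq w) :=
            mul_le_mul (hLg w hw) hnum (abs_nonneg _) (by positivity)
        _ = L * (((R + 1) * C + (2 * R + 1) * C) / m ^ 2) * (qq w ^ (1 / 2 : ℝ) / qq w) := by ring
        _ = _ := by rw [hqq])
    (fun w hw hwI => by
      have hwp : w ∈ hp := KR_sub hR.le hw
      have hq : 0 < qq w := qq_pos hwp hwI
      have h1 : ContinuousOn (deriv ν) (Ioi 0) :=
        (h.smooth2.deriv_of_isOpen isOpen_Ioi (m := 1) (by norm_num)).continuousOn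
      have h2 : ContinuousOn (deriv (deriv ν)) (Ioi 0) :=
        ((h.smooth2.deriv_of_isOpen isOpen_Ioi (m := 1) (by norm_num)).deriv_of_isOpen isOpen_Ioi (m := 0)
          (by norm_num)).continuousOn
      have h3 : ∀ j : ℕ, lapE (ex (fun w => ν (qq w + 1 / ((j : ℝ) + 1)))) w =
          (qq w * (qq w + 1) * deriv (deriv ν) (qq w + 1 / ((j : ℝ) + 1)) +
            (2 * qq w + 1) * deriv ν (qq w + 1 / ((j : ℝ) + 1))) / w.im ^ 2 := by
        intro j
        have h4 := (hex j).2.2.1 w hwp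
        rw [h4, hd1, hd2]
      simp only [h3]
      rw [kn_eq hwp, h.eq _ hq]
      exact ((((IdA_contAt h2 hq).const_mul _).add ((IdA_contAt h1 hq).const_mul _)).div_const _).const_mul _)
  have hlim : ∫ w, lapH g w * kn ν w = ∫ w, (g w - g I) * kn κ w := by
    refine tendsto_nhds_unique hleft.2.1 ?_
    refine hright.2.1.congr (fun j => ?_)
    exact (hgreen j).symm
  rw [hlim]
  have hk : Integrable (kn κ) := (gker_kn h.profK).int
  have hgk : Integrable (fun w => g w * kn κ w) := by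
    have := hright.1.add (hk.const_mul (g I))
    refine this.congr (Eventually.of_forall fun w => ?_)
    simp only [Pi.add_apply]
    ring
  calc ∫ w, (g w - g I) * kn κ w = ∫ w, (g w * kn κ w - g I * kn κ w) := by
        congr 1; funext w; ring
    _ = (∫ w, g w * kn κ w) - ∫ w, g I * kn κ w := integral_sub hgk (hk.const_mul _)
    _ = _ := by rw [integral_const_mul]

end KW
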