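import Pool.Agent.Lib.MP_464db4_gt.KW.IdA
import Pool.Agent.Lib.MP_464db4_gt.KW.Cv

/-!
# KW-IdB: the fundamental solution property at every point

`g = φ ∘ aff z` is `C²` on `hp`, `dx g = z.im * (dx φ) ∘ aff z`, `dy g = z.im * (dy φ) ∘ aff z` (`aff z` is real-affine with linear part multiplication by the real number `z.im`), so
`lapE g w = z.im² * lapE φ (aff z w)` and `lapH g w = lapH φ (aff z w)` (`aff_im`).  Then `id0` and `aff_I`.
-/

namespace KW

open Complex MeasureTheory Set Filter Topology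
open scoped ContDiff

variable {ν κ : ℝ → ℝ} {R C Λ : ℝ} {φ : ℂ → ℝ} {z w : ℂ}

private theorem IdB_isOpen_hp : IsOpen hp := isOpen_lt continuous_const Complex.continuous_im

private theorem IdB_aff_hasFDerivAt (z w : ℂ) : HasFDerivAt (aff z) (z.im • ContinuousLinearMap.id ℝ ℂ) w := by
  have h1 : HasFDerivAt (fun w : ℂ => (z.re : ℂ) + z.im • w) (z.im • ContinuousLinearMap.id ℝ ℂ) w :=
    ((hasFDerivAt_id w).const_smul z.im).const_add (z.re : ℂ)
  have h2 : aff z = fun w : ℂ => (z.re : ℂ) + z.im • w := by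
    funext w
    unfold aff
    rw [Complex.real_smul]
  rw [h2]
  exact h1

private theorem IdB_fderiv {ψ : ℂ → ℝ} (h : DifferentiableAt ℝ ψ (aff z w)) (v : ℂ) :
    fderiv ℝ (fun w => ψ (aff z w)) w v = z.im * fderiv ℝ ψ (aff z w) v := by
  have h1 : HasFDerivAt (fun w => ψ (aff z w)) ((fderiv ℝ ψ (aff z w)).comp (z.im • ContinuousLinearMap.id ℝ ℂ)) w :=
    h.hasFDerivAt.comp w (IdB_aff_hasFDerivAt z w)
  rw [h1.fderiv]
  simp

private theorem IdB_second (hφ : ContDiffOn ℝ 2 φ hp) (hz : z ∈ hp) (hw : w ∈ hp) (v : ℂ) :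
    fderiv ℝ (fun u => fderiv ℝ (fun w => φ (aff z w)) u v) w v =
      z.im ^ 2 * fderiv ℝ (fun u => fderiv ℝ φ u v) (aff z w) v := by
  have h0 : ContDiffOn ℝ 1 (fun u => fderiv ℝ φ u v) hp :=
    (hφ.fderiv_of_isOpen IdB_isOpen_hp (m := 1) (by norm_num)).clm_apply contDiffOn_const
  have h1 : (fun u => fderiv ℝ (fun w => φ (aff z w)) u v) =ᶠ[𝓝 w]
      fun u => z.im * fderiv ℝ φ (aff z u) v := by
    filter_upwards [IdB_isOpen_hp.mem_nhds hw] with u hu
    exact IdB_fderiv (((hφ.differentiableOn (by norm_num)) _ (aff_mem hz hu)).differentiableAt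
      (IdB_isOpen_hp.mem_nhds (aff_mem hz hu))) v
  have h2 : DifferentiableAt ℝ (fun u => fderiv ℝ φ u v) (aff z w) :=
    ((h0.differentiableOn (by norm_num)) _ (aff_mem hz hw)).differentiableAt
      (IdB_isOpen_hp.mem_nhds (aff_mem hz hw))
  have h3 : HasFDerivAt (fun u => fderiv ℝ φ (aff z u) v)
      ((fderiv ℝ (fun u => fderiv ℝ φ u v) (aff z w)).comp (z.im • ContinuousLinearMap.id ℝ ℂ)) w :=
    HasFDerivAt.comp w (f := aff z) h2.hasFDerivAt (IdB_aff_hasFDerivAt z w)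
  rw [h1.fderiv_eq, (h3.const_mul z.im).fderiv]
  simp
  ring

theorem lapH_aff (hφ : ContDiffOn ℝ 2 φ hp) (hz : z ∈ hp) (hw : w ∈ hp) : lapH (fun w => φ (aff z w)) w = lapH φ (aff z w) := by
  have h1 := IdB_second hφ hz hw 1
  have h2 := IdB_second hφ hz hw I
  unfold lapH lapE
  change w.im ^ 2 * (fderiv ℝ (fun u => fderiv ℝ (fun w => φ (aff z w)) u 1) w 1 +
    fderiv ℝ (fun u => fderiv ℝ (fun w => φ (aff z w)) u I) w I) =
    (aff z w).im ^ 2 * (fderiv ℝ (fun u => fderiv ℝ φ u 1) (aff z w) 1 + fderiv ℝ (fun u => fderiv ℝ φ u I) (aff z w) I)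
  rw [h1, h2, aff_im]
  ring

private theorem IdB_contDiffOn (hφ : ContDiffOn ℝ 2 φ hp) (hz : z ∈ hp) : ContDiffOn ℝ 2 (fun w => φ (aff z w)) hp := by
  have h1 : ContDiff ℝ 2 (aff z) := by
    unfold aff
    fun_prop
  exact hφ.comp h1.contDiffOn (fun w hw => aff_mem hz hw)

theorem id1 (h : KPair ν κ R C Λ) (hφ : ContDiffOn ℝ 2 φ hp) (hz : z ∈ hp) :
    cv (kn ν) (lapH φ) z = cv (kn κ) φ z - (∫ w, kn κ w) * φ z := by
  have h1 := id0 h (IdB_contDiffOn hφ hz)
  rw [aff_I] at h1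
  have h2 : cv (kn ν) (lapH φ) z = ∫ w, lapH (fun w => φ (aff z w)) w * kn ν w := by
    unfold cv
    refine integral_congr_ae (Eventually.of_forall fun w => ?_)
    by_cases hw : w ∈ hp
    · simp only
      rw [lapH_aff hφ hz hw]
    · simp only
      have h3 : kn ν w = 0 := ex_of_not_mem hw
      rw [h3, mul_zero, mul_zero]
  rw [h2, h1]
  unfold cv
  ring

end KW
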