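import Pool.Agent.Lib.MP_464db4_gt.KW.Defs

/-!
# KW-QQ: the function `qq` and the discs `KR R`

With `w = ξ + i η`: `qq w = (ξ² + η² + 1)/(4η) - 1/2 = (ξ² + (η-1)²)/(4η)`.  `KR R = {ξ² + η² + 1 ≤ (4R+2) η} = {ξ² + (η - (2R+1))² ≤ (2R+1)² - 1}` is a closed disc
(closed and bounded); for `0 ≤ R` it forces `η > 0` (the left side is `≥ 1`), and there `qq w ≤ R` is the same condition.
`q_ξ = ξ/(2η)`, `q_η = 1/2 - (ξ²+η²+1)/(4η²)`, `q_ξξ = 1/(2η)`, `q_ηη = -1/(2η) + (ξ²+η²+1)/(2η³)`, so with `ξ²+η²+1 = η(4q+2)`: `lapE qq = (2q+1)/η²` and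
`q_ξ² + q_η² = q(q+1)/η²` (field_simp; ring).
* `im_bd`: a continuous positive function on a compact set has a positive minimum; the disc is bounded (if `KR R` is empty anything works; it is not empty, it contains `I`).
* `qq_lower`: `qq w = ‖w - I‖²/(4 η)` and `η ≤ 1/m`.
* `grad_bd`: from `grad_sq`: `|q_ξ|, |q_η| ≤ sqrt(q(q+1))/η ≤ C sqrt q` on `KR R`.  (`q ^ (1/2 : ℝ)` is `Real.sqrt q`, `Real.sqrt_eq_rpow`.)
* `ex_contDiff`: `ex g` is of class `C^k`: at `w ∈ hp` it is equal to `g` near `w`; at `w ∉ hp` (so `w ∉ KR R`, whose complement is open) it is equal to `0` near `w`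
  because `ex g = 0` off `KR R`.  (`contDiff_iff_contDiffAt`.)
-/

namespace KW

open Complex MeasureTheory Set Filter Topology
open scoped ContDiff

variable {w : ℂ} {R : ℝ}

private lemma QQ_line {φ : ℂ → ℝ} {w v : ℂ} {d : ℝ} (hφ : DifferentiableAt ℝ φ w)
    (h : HasDerivAt (fun t : ℝ => φ (w + t • v)) d 0) : fderiv ℝ φ w v = d :=
  HasDerivAt.unique (hφ.hasFDerivAt.hasLineDerivAt v) h

private lemma QQ_normSq (w : ℂ) : w.re ^ 2 + w.im ^ 2 = ‖w‖ ^ 2 := by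
  rw [← Complex.normSq_eq_norm_sq, Complex.normSq_apply]
  ring

theorem isOpen_hp : IsOpen hp := by
  exact isOpen_lt continuous_const Complex.continuous_im

theorem qq_eq (hw : w ∈ hp) : qq w = (w.re ^ 2 + (w.im - 1) ^ 2) / (4 * w.im) := by
  have h : 0 < w.im := hw
  unfold qq
  field_simp
  ring

theorem qq_norm (hw : w ∈ hp) : qq w = ‖w - I‖ ^ 2 / (4 * w.im) := by
  rw [qq_eq hw, ← QQ_normSq]
  simp

theorem qq_nonneg (hw : w ∈ hp) : 0 ≤ qq w := by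
  have h : 0 < w.im := hw
  rw [qq_norm hw]
  positivity

theorem qq_pos (hw : w ∈ hp) (h : w ≠ I) : 0 < qq w := by
  have h1 : 0 < w.im := hw
  have h2 : 0 < ‖w - I‖ := norm_pos_iff.2 (sub_ne_zero.2 h)
  rw [qq_norm hw]
  positivity

theorem mem_KR_iff (hw : w ∈ hp) : w ∈ KR R ↔ qq w ≤ R := by
  have h : 0 < w.im := hw
  change w.re ^ 2 + w.im ^ 2 + 1 ≤ (4 * R + 2) * w.im ↔
    (w.re ^ 2 + w.im ^ 2 + 1) / (4 * w.im) - 1 / 2 ≤ R
  rw [sub_le_iff_le_add, div_le_iff₀ (by positivity)]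
  constructor
  · intro h1
    linarith
  · intro h1
    linarith

theorem KR_sub (hR : 0 ≤ R) : KR R ⊆ hp := by
  intro w hw
  have h1 : w.re ^ 2 + w.im ^ 2 + 1 ≤ (4 * R + 2) * w.im := hw
  have h2 : 0 < (4 * R + 2) * w.im := by nlinarith [sq_nonneg w.re, sq_nonneg w.im]
  change 0 < w.im
  by_contra h
  have h3 := mul_nonpos_of_nonneg_of_nonpos (show 0 ≤ 4 * R + 2 by linarith) (not_lt.1 h)
  linarith

private lemma QQ_norm_le {R : ℝ} {w : ℂ} (hw : w ∈ KR R) : ‖w‖ ≤ |4 * R + 2| := by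
  have h1 : w.re ^ 2 + w.im ^ 2 + 1 ≤ (4 * R + 2) * w.im := hw
  rw [QQ_normSq] at h1
  have h2 : (4 * R + 2) * w.im ≤ |4 * R + 2| * ‖w‖ := by
    refine (le_abs_self _).trans ?_
    rw [abs_mul]
    exact mul_le_mul_of_nonneg_left (Complex.abs_im_le_norm w) (abs_nonneg _)
  by_contra h
  have h3 : |4 * R + 2| < ‖w‖ := not_le.1 h
  have h4 : 0 ≤ |4 * R + 2| := abs_nonneg _
  nlinarith

theorem isCompact_KR (R : ℝ) : IsCompact (KR R) := by
  refine Metric.isCompact_of_isClosed_isBounded ?_ ?_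
  · exact isClosed_le (by fun_prop) (by fun_prop)
  · refine (Metric.isBounded_closedBall (x := (0 : ℂ)) (r := |4 * R + 2|)).subset ?_
    intro w hw
    rw [mem_closedBall_zero_iff]
    exact QQ_norm_le hw

theorem KR_mono {R' : ℝ} (hR : 0 ≤ R) (h : R ≤ R') : KR R ⊆ KR R' := by
  intro w hw
  have h1 : w.re ^ 2 + w.im ^ 2 + 1 ≤ (4 * R + 2) * w.im := hw
  have h2 : 0 < w.im := KR_sub hR hw
  change w.re ^ 2 + w.im ^ 2 + 1 ≤ (4 * R' + 2) * w.im
  refine h1.trans (mul_le_mul_of_nonneg_right (by linarith) h2.le)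

theorem I_mem_KR (hR : 0 ≤ R) : I ∈ KR R := by
  change I.re ^ 2 + I.im ^ 2 + 1 ≤ (4 * R + 2) * I.im
  rw [I_re, I_im]
  linarith

theorem im_bd (hR : 0 ≤ R) : ∃ m : ℝ, 0 < m ∧ ∀ w ∈ KR R, m ≤ w.im ∧ ‖w‖ ≤ 1 / m := by
  have h0 : 0 < 4 * R + 2 := by linarith
  refine ⟨1 / (4 * R + 2), by positivity, fun w hw => ⟨?_, ?_⟩⟩
  · have h1 : w.re ^ 2 + w.im ^ 2 + 1 ≤ (4 * R + 2) * w.im := hw
    rw [div_le_iff₀ h0]
    nlinarith [sq_nonneg w.re, sq_nonneg w.im]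
  · rw [one_div_one_div, ← abs_of_pos h0]
    exact QQ_norm_le hw

theorem qq_contDiffOn : ContDiffOn ℝ ∞ qq hp := by
  intro w hw
  refine ContDiffAt.contDiffWithinAt ?_
  have h : 0 < w.im := hw
  have h1 : ContDiffAt ℝ ∞ (fun z : ℂ => z.re) w := Complex.reCLM.contDiff.contDiffAt
  have h2 : ContDiffAt ℝ ∞ (fun z : ℂ => z.im) w := Complex.imCLM.contDiff.contDiffAt
  unfold qq
  refine ContDiffAt.sub (ContDiffAt.div ?_ ?_ (by positivity)) contDiffAt_const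
  · exact ((h1.pow 2).add (h2.pow 2)).add contDiffAt_const
  · exact contDiffAt_const.mul h2

private lemma QQ_diff {w : ℂ} (hw : w ∈ hp) : DifferentiableAt ℝ qq w :=
  (qq_contDiffOn.contDiffAt (isOpen_hp.mem_nhds hw)).differentiableAt (by simp)

theorem dx_qq (hw : w ∈ hp) : dx qq w = w.re / (2 * w.im) := by
  have h : 0 < w.im := hw
  refine QQ_line (QQ_diff hw) ?_
  have h1 : (fun t : ℝ => qq (w + t • (1 : ℂ))) =
      fun t : ℝ => ((w.re + t) ^ 2 + w.im ^ 2 + 1) / (4 * w.im) - 1 / 2 := by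
    funext t
    simp [qq]
  rw [h1]
  have h2 := ((((((hasDerivAt_id (0 : ℝ)).const_add w.re).pow 2).add_const (w.im ^ 2)).add_const
    (1 : ℝ)).div_const (4 * w.im)).sub_const (1 / 2 : ℝ)
  convert! h2 using 1
  simp only [id, add_zero, Nat.cast_ofNat, mul_one]
  field_simp
  ring

theorem dy_qq (hw : w ∈ hp) : dy qq w = 1 / 2 - (w.re ^ 2 + w.im ^ 2 + 1) / (4 * w.im ^ 2) := by
  have h : 0 < w.im := hw
  refine QQ_line (QQ_diff hw) ?_
  have h1 : (fun t : ℝ => qq (w + t • I)) =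
      fun t : ℝ => (w.re ^ 2 + (w.im + t) ^ 2 + 1) / (4 * (w.im + t)) - 1 / 2 := by
    funext t
    simp [qq]
  rw [h1]
  have h3 := (hasDerivAt_id (0 : ℝ)).const_add w.im
  have h2 := ((((h3.pow 2).const_add (w.re ^ 2)).add_const (1 : ℝ)).div (h3.const_mul 4)
    (by simp only [id, add_zero]; positivity)).sub_const (1 / 2 : ℝ)
  convert! h2 using 1
  simp only [id, Pi.pow_apply, add_zero, Nat.cast_ofNat, mul_one]
  field_simp
  ring

theorem grad_sq (hw : w ∈ hp) : dx qq w ^ 2 + dy qq w ^ 2 = qq w * (qq w + 1) / w.im ^ 2 := by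
  have h : 0 < w.im := hw
  rw [dx_qq hw, dy_qq hw]
  unfold qq
  field_simp
  ring

theorem lapE_qq (hw : w ∈ hp) : lapE qq w = (2 * qq w + 1) / w.im ^ 2 := by
  have h : 0 < w.im := hw
  have hn : hp ∈ 𝓝 w := isOpen_hp.mem_nhds hw
  have h1 : ContDiffAt ℝ ∞ (fun z : ℂ => z.re) w := Complex.reCLM.contDiff.contDiffAt
  have h2 : ContDiffAt ℝ ∞ (fun z : ℂ => z.im) w := Complex.imCLM.contDiff.contDiffAt
  have e1 : dx (dx qq) w = 1 / (2 * w.im) := by
    have e : dx qq =ᶠ[𝓝 w] fun z => z.re / (2 * z.im) := by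
      filter_upwards [hn] with z hz
      exact dx_qq hz
    unfold dx at e ⊢
    rw [e.fderiv_eq]
    refine QQ_line ((h1.div (contDiffAt_const.mul h2) (by positivity)).differentiableAt (by simp)) ?_
    have h3 : (fun t : ℝ => (w + t • (1 : ℂ)).re / (2 * (w + t • (1 : ℂ)).im)) =
        fun t : ℝ => (w.re + t) / (2 * w.im) := by
      funext t
      simp
    rw [h3]
    have h4 := ((hasDerivAt_id (0 : ℝ)).const_add w.re).div_const (2 * w.im)
    convert! h4 using 1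
  have e2 : dy (dy qq) w = -1 / (2 * w.im) + (w.re ^ 2 + w.im ^ 2 + 1) / (2 * w.im ^ 3) := by
    have e : dy qq =ᶠ[𝓝 w] fun z => 1 / 2 - (z.re ^ 2 + z.im ^ 2 + 1) / (4 * z.im ^ 2) := by
      filter_upwards [hn] with z hz
      exact dy_qq hz
    unfold dy at e ⊢
    rw [e.fderiv_eq]
    refine QQ_line ((contDiffAt_const.sub ((((h1.pow 2).add (h2.pow 2)).add contDiffAt_const).div
      (contDiffAt_const.mul (h2.pow 2)) (by positivity))).differentiableAt (by simp)) ?_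
    have h3 : (fun t : ℝ => 1 / 2 - ((w + t • I).re ^ 2 + (w + t • I).im ^ 2 + 1) /
        (4 * (w + t • I).im ^ 2)) =
        fun t : ℝ => 1 / 2 - (w.re ^ 2 + (w.im + t) ^ 2 + 1) / (4 * (w.im + t) ^ 2) := by
      funext t
      simp
    rw [h3]
    have h5 := (hasDerivAt_id (0 : ℝ)).const_add w.im
    have h4 := ((((h5.pow 2).const_add (w.re ^ 2)).add_const (1 : ℝ)).div ((h5.pow 2).const_mul 4)
      (by simp only [id, Pi.pow_apply, add_zero]; positivity)).const_sub (1 / 2 : ℝ)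
    convert! h4 using 1
    simp only [id, Pi.pow_apply, add_zero, Nat.cast_ofNat, mul_one]
    field_simp
    ring
  unfold lapE
  rw [e1, e2]
  unfold qq
  field_simp
  ring

theorem qq_lower (hR : 0 ≤ R) : ∃ c : ℝ, 0 < c ∧ ∀ w ∈ KR R, c * ‖w - I‖ ^ 2 ≤ qq w := by
  obtain ⟨m, hm, hb⟩ := im_bd hR
  refine ⟨m / 4, by positivity, fun w hw => ?_⟩
  have h1 : 0 < w.im := KR_sub hR hw
  have h2 : w.im ≤ 1 / m := (Complex.abs_im_le_norm w |> (le_abs_self _).trans).trans (hb w hw).2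
  rw [qq_norm (KR_sub hR hw), le_div_iff₀ (by positivity)]
  have h3 : m * w.im ≤ 1 := by
    rw [le_div_iff₀ hm] at h2
    linarith
  have h4 : 0 ≤ ‖w - I‖ ^ 2 := by positivity
  nlinarith

theorem grad_bd (hR : 0 ≤ R) : ∃ C : ℝ, 0 < C ∧ ∀ w ∈ KR R, |dx qq w| ≤ C * qq w ^ (1 / 2 : ℝ) ∧ |dy qq w| ≤ C * qq w ^ (1 / 2 : ℝ) := by
  obtain ⟨m, hm, hb⟩ := im_bd hR
  refine ⟨Real.sqrt (R + 1) / m, by have : 0 < Real.sqrt (R + 1) := Real.sqrt_pos.2 (by linarith)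
                                    positivity, fun w hw => ?_⟩
  have hw' : w ∈ hp := KR_sub hR hw
  have h1 : 0 < w.im := hw'
  have hq0 : 0 ≤ qq w := qq_nonneg hw'
  have hq1 : qq w ≤ R := (mem_KR_iff hw').1 hw
  have hmi : m ≤ w.im := (hb w hw).1
  rw [← Real.sqrt_eq_rpow]
  have key : dx qq w ^ 2 + dy qq w ^ 2 ≤ (Real.sqrt (R + 1) / m * Real.sqrt (qq w)) ^ 2 := by
    rw [grad_sq hw', mul_pow, div_pow, Real.sq_sqrt (by linarith), Real.sq_sqrt hq0,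
      div_mul_eq_mul_div]
    refine div_le_div₀ (by nlinarith) (by nlinarith) (by positivity) ?_
    exact pow_le_pow_left₀ hm.le hmi 2
  have hB : 0 ≤ Real.sqrt (R + 1) / m * Real.sqrt (qq w) := by positivity
  constructor
  · exact abs_le_of_sq_le_sq (by nlinarith [sq_nonneg (dy qq w)]) hB
  · exact abs_le_of_sq_le_sq (by nlinarith [sq_nonneg (dx qq w)]) hB

theorem ex_zero {g : ℂ → ℝ} (hg : ∀ w ∈ hp, w ∉ KR R → g w = 0) (hw : w ∉ KR R) : ex g w = 0 := by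
  by_cases h : w ∈ hp
  · rw [ex_of_mem h, hg w h hw]
  · exact ex_of_not_mem h

theorem ex_contDiff {g : ℂ → ℝ} {k : ℕ∞} (hR : 0 ≤ R) (hg : ContDiffOn ℝ k g hp) (h0 : ∀ w ∈ hp, w ∉ KR R → g w = 0) :
    ContDiff ℝ k (ex g) := by
  rw [contDiff_iff_contDiffAt]
  intro w
  by_cases hw : w ∈ hp
  · have hn : hp ∈ 𝓝 w := isOpen_hp.mem_nhds hw
    refine (hg.contDiffAt hn).congr_of_eventuallyEq ?_
    filter_upwards [hn] with z hz
    exact ex_of_mem hz
  · have hK : w ∉ KR R := fun h => hw (KR_sub hR h)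
    have hn : (KR R)ᶜ ∈ 𝓝 w := (isCompact_KR R).isClosed.isOpen_compl.mem_nhds hK
    refine (contDiffAt_const (c := (0 : ℝ))).congr_of_eventuallyEq ?_
    filter_upwards [hn] with z hz
    exact ex_zero h0 hz

end KW
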