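import Pool.Agent.Lib.MP_464db4_gt.KW.Inv
import Pool.Agent.Lib.MP_464db4_gt.YT.WirtB
import Pool.Agent.Lib.MP_464db4_gt.YT.Mob

/-!
# KW-Wir: Wirtinger derivatives, conformal invariance of the Laplacian

Functions on `YT.halfPlane ⊆ (Unit → ℂ)` and on `hp ⊆ ℂ`: `x ↦ x ()`, `w ↦ (fun _ => w)`; `lift φ x = ((φ (x ()) : ℝ) : ℂ)`.
* `dz () (dzbar () f) = (1/4)(∂_x - i ∂_y)(∂_x + i ∂_y) f`, for `f = lift φ` real valued its real part is `(1/4) lapE φ` (the mixed derivatives cancel by symmetry, or are the imaginary part);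
  here `fderiv ℝ (lift φ) x (Pi.single () c) = fderiv ℝ φ (x ()) c` (composition with the continuous linear map `x ↦ x ()` and `Complex.ofRealCLM`).
* `dz_dzbar_mob`: for `f` smooth on the half plane, `F = YT.mob γ` holomorphic (`YT.mob_hol`), `jac F = mj γ` (`YT.jac_mob`): `dzbar (f ∘ F) = dzbar f (F x) * conj (mj γ x)` (`YT.dzbar_comp`) and
  `dz` of `conj (mj γ)` is zero (`YT.dz_conj`, `YT.dzbar_hol`, `YT.mj_hol`), so `dz dzbar (f ∘ F) x = mj γ x * conj (mj γ x) * (dz dzbar f) (F x)`.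
* `lapH_mo`: `im (γ z) = im z * |mj γ|` (`YT.im_mob` or `mo_im`), `YT.mob γ (fun _ => z) = fun _ => mo γ z` (by definition).
-/

namespace KW

open Complex MeasureTheory Set Filter Topology
open scoped ContDiff ComplexConjugate

/-- The function `x ↦ φ (x ())`, with values in `ℂ`. -/
noncomputable def lift (φ : ℂ → ℝ) (x : Unit → ℂ) : ℂ := ((φ (x ()) : ℝ) : ℂ)

variable {φ : ℂ → ℝ} {γ : Matrix.SpecialLinearGroup (Fin 2) ℝ} {z : ℂ} {x : Unit → ℂ}

theorem lift_contDiffOn (hφ : ContDiffOn ℝ ∞ φ hp) : ContDiffOn ℝ ∞ (lift φ) YT.halfPlane := by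
  have h1 : ContDiffOn ℝ ∞ (fun x : Unit → ℂ => φ (x ())) YT.halfPlane :=
    hφ.comp ((ContinuousLinearMap.proj (R := ℝ) (φ := fun _ : Unit => ℂ) ()).contDiff.contDiffOn) fun x hx => hx
  exact Complex.ofRealCLM.contDiff.comp_contDiffOn h1

private theorem wir_isOpen_hp : IsOpen hp := isOpen_lt continuous_const Complex.continuous_im

private theorem wir_fderiv {ψ : ℂ → ℝ} (hψ : DifferentiableAt ℝ ψ (x ())) (c : ℂ) :
    fderiv ℝ (lift ψ) x (Pi.single () c) = ((fderiv ℝ ψ (x ()) c : ℝ) : ℂ) := by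
  have h0 : HasFDerivAt (fun y : Unit → ℂ => y ()) (ContinuousLinearMap.proj (R := ℝ) (φ := fun _ : Unit => ℂ) ()) x :=
    (ContinuousLinearMap.proj (R := ℝ) (φ := fun _ : Unit => ℂ) ()).hasFDerivAt
  have h1 : HasFDerivAt (fun y : Unit → ℂ => ψ (y ())) _ x := hψ.hasFDerivAt.comp x h0
  have h2 : HasFDerivAt (lift ψ) _ x := Complex.ofRealCLM.hasFDerivAt.comp x h1
  rw [h2.fderiv]
  simp

private theorem wir_dz {ψ : ℂ → ℝ} (hψ : DifferentiableAt ℝ ψ (x ())) :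
    YT.dz () (lift ψ) x = (((dx ψ (x ()) : ℝ) : ℂ) - I * ((dy ψ (x ()) : ℝ) : ℂ)) / 2 := by
  unfold YT.dz
  rw [wir_fderiv hψ, wir_fderiv hψ]
  rfl

private theorem wir_dzbar {ψ : ℂ → ℝ} (hψ : DifferentiableAt ℝ ψ (x ())) :
    YT.dzbar () (lift ψ) x = (((dx ψ (x ()) : ℝ) : ℂ) + I * ((dy ψ (x ()) : ℝ) : ℂ)) / 2 := by
  unfold YT.dzbar
  rw [wir_fderiv hψ, wir_fderiv hψ]
  rfl

private theorem wir_second (hφ : ContDiffOn ℝ ∞ φ hp) (hz : z ∈ hp) : DifferentiableAt ℝ (fderiv ℝ φ) z :=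
  ((hφ.fderiv_of_isOpen wir_isOpen_hp (m := ∞) (by simp)).contDiffAt (wir_isOpen_hp.mem_nhds hz)).differentiableAt (by simp)

private theorem wir_apply (hd : DifferentiableAt ℝ (fderiv ℝ φ) z) (v : ℂ) :
    HasFDerivAt (fun y => fderiv ℝ φ y v) ((fderiv ℝ (fderiv ℝ φ) z).flip v) z := by
  have h := hd.hasFDerivAt.clm_apply (hasFDerivAt_const v z)
  simpa using h

private theorem wir_comm (hφ : ContDiffOn ℝ ∞ φ hp) (hz : z ∈ hp) : dy (dx φ) z = dx (dy φ) z := by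
  have hd := wir_second hφ hz
  have hs : IsSymmSndFDerivAt ℝ φ z := (hφ.contDiffAt (wir_isOpen_hp.mem_nhds hz)).isSymmSndFDerivAt (by
    rw [minSmoothness_of_isRCLikeNormedField]
    exact WithTop.coe_le_coe.2 (le_top : (2 : ℕ∞) ≤ ⊤))
  have h1 : dy (dx φ) z = fderiv ℝ (fun y => fderiv ℝ φ y 1) z I := rfl
  have h2 : dx (dy φ) z = fderiv ℝ (fun y => fderiv ℝ φ y I) z 1 := rfl
  rw [h1, h2, (wir_apply hd 1).fderiv, (wir_apply hd I).fderiv]
  exact hs I 1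

theorem lapE_eq (hφ : ContDiffOn ℝ ∞ φ hp) (hx : x ∈ YT.halfPlane) :
    YT.dz () (fun y => YT.dzbar () (lift φ) y) x = ((lapE φ (x ()) / 4 : ℝ) : ℂ) := by
  have hx' : x () ∈ hp := hx
  have hd := wir_second hφ hx'
  have hdx : DifferentiableAt ℝ (dx φ) (x ()) := (wir_apply hd 1).differentiableAt
  have hdy : DifferentiableAt ℝ (dy φ) (x ()) := (wir_apply hd I).differentiableAt
  have hlift : ∀ {ψ : ℂ → ℝ}, DifferentiableAt ℝ ψ (x ()) → DifferentiableAt ℝ (lift ψ) x := by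
    intro ψ hψ
    have h0 : HasFDerivAt (fun y : Unit → ℂ => y ()) (ContinuousLinearMap.proj (R := ℝ) (φ := fun _ : Unit => ℂ) ()) x :=
      (ContinuousLinearMap.proj (R := ℝ) (φ := fun _ : Unit => ℂ) ()).hasFDerivAt
    have h1 : HasFDerivAt (fun y : Unit → ℂ => ψ (y ())) _ x := hψ.hasFDerivAt.comp x h0
    exact (Complex.ofRealCLM.hasFDerivAt.comp x h1).differentiableAt
  have e : ∀ y ∈ YT.halfPlane, YT.dzbar () (lift φ) y = (1 / 2 : ℂ) * lift (dx φ) y + (I / 2) * lift (dy φ) y := by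
    intro y hy
    have hy' : y () ∈ hp := hy
    rw [wir_dzbar ((hφ.contDiffAt (wir_isOpen_hp.mem_nhds hy')).differentiableAt (by simp))]
    unfold lift
    ring
  rw [YT.dz_congr_on YT.isOpen_halfPlane e hx ()]
  rw [YT.dz_add () ((hlift hdx).const_mul _) ((hlift hdy).const_mul _), YT.dz_const_mul () _ (hlift hdx), YT.dz_const_mul () _ (hlift hdy),
    wir_dz hdx, wir_dz hdy, wir_comm hφ hx']
  unfold lapE
  push_cast
  linear_combination (-(1 / 4 : ℂ)) * ((dy (dy φ) (x ()) : ℝ) : ℂ) * I_mul_I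

theorem dz_dzbar_mob {f : (Unit → ℂ) → ℂ} (hf : ContDiffOn ℝ ∞ f YT.halfPlane) (γ : Matrix.SpecialLinearGroup (Fin 2) ℝ) (hx : x ∈ YT.halfPlane) :
    YT.dz () (fun y => YT.dzbar () (fun y => f (YT.mob γ y)) y) x =
      YT.mj γ x * conj (YT.mj γ x) * YT.dz () (fun y => YT.dzbar () f y) (YT.mob γ x) := by
  have hF : ∀ y ∈ YT.halfPlane, DifferentiableAt ℂ (YT.mob γ) y := fun y hy =>
    (YT.mob_hol γ).differentiableAt (YT.isOpen_halfPlane.mem_nhds hy)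
  have hfd : ∀ y ∈ YT.halfPlane, DifferentiableAt ℝ f (YT.mob γ y) := fun y hy =>
    (hf.contDiffAt (YT.isOpen_halfPlane.mem_nhds (YT.mob_mem γ hy))).differentiableAt (by simp)
  have e : ∀ y ∈ YT.halfPlane, YT.dzbar () (fun y => f (YT.mob γ y)) y = YT.dzbar () f (YT.mob γ y) * conj (YT.mj γ y) := by
    intro y hy
    rw [YT.dzbar_comp (hF y hy) (hfd y hy) ()]
    rw [Fintype.sum_unique, YT.jac_mob γ hy]
  rw [YT.dz_congr_on YT.isOpen_halfPlane e hx ()]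
  have hg : DifferentiableAt ℝ (fun y => YT.dzbar () f y) (YT.mob γ x) :=
    ((YT.dzbar_contDiffOn YT.isOpen_halfPlane hf ()).contDiffAt (YT.isOpen_halfPlane.mem_nhds (YT.mob_mem γ hx))).differentiableAt (by simp)
  have hgF : DifferentiableAt ℝ (fun y => YT.dzbar () f (YT.mob γ y)) x :=
    DifferentiableAt.comp x hg ((hF x hx).restrictScalars ℝ)
  have hmj : DifferentiableAt ℂ (YT.mj γ) x := (YT.mj_hol γ).differentiableAt (YT.isOpen_halfPlane.mem_nhds hx)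
  have hmjc : DifferentiableAt ℝ (fun y => conj (YT.mj γ y)) x :=
    Complex.conjCLE.differentiableAt.comp x (hmj.restrictScalars ℝ)
  rw [YT.dz_mul () hgF hmjc, YT.dz_conj, YT.dzbar_hol () hmj, map_zero, mul_zero, add_zero]
  have h3 := YT.dz_comp (f := fun y => YT.dzbar () f y) (hF x hx) hg ()
  rw [Fintype.sum_unique, YT.jac_mob γ hx] at h3
  have h4 : YT.dz () (fun y => YT.dzbar () f (YT.mob γ y)) x = YT.dz () (fun y => YT.dzbar () f y) (YT.mob γ x) * YT.mj γ x := h3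
  rw [h4]
  ring

theorem mob_eq (γ : Matrix.SpecialLinearGroup (Fin 2) ℝ) (x : Unit → ℂ) : YT.mob γ x = fun _ => mo γ (x ()) := by
  rfl

theorem mo_contDiffOn (γ : Matrix.SpecialLinearGroup (Fin 2) ℝ) (hφ : ContDiffOn ℝ ∞ φ hp) : ContDiffOn ℝ ∞ (fun w => φ (mo γ w)) hp := by
  have h1 : ContDiffOn ℂ ∞ (mo γ) hp := by
    have n1 : ContDiff ℂ ∞ (fun w : ℂ => ((γ 0 0 : ℝ) : ℂ) * w + ((γ 0 1 : ℝ) : ℂ)) := by fun_prop
    have n2 : ContDiff ℂ ∞ (fun w : ℂ => ((γ 1 0 : ℝ) : ℂ) * w + ((γ 1 1 : ℝ) : ℂ)) := by fun_prop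
    exact n1.contDiffOn.div n2.contDiffOn fun w hw => mo_den γ hw
  exact hφ.comp (h1.restrict_scalars ℝ) fun w hw => mo_mem γ hw

theorem lapH_mo (γ : Matrix.SpecialLinearGroup (Fin 2) ℝ) (hφ : ContDiffOn ℝ ∞ φ hp) (hz : z ∈ hp) :
    lapH (fun w => φ (mo γ w)) z = lapH φ (mo γ z) := by
  have hx : (fun _ => z : Unit → ℂ) ∈ YT.halfPlane := hz
  have h1 := lapE_eq (mo_contDiffOn γ hφ) hx
  have h2 := dz_dzbar_mob (lift_contDiffOn hφ) γ hx
  have h3 := lapE_eq hφ (YT.mob_mem γ hx)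
  have h4 := YT.im_mob γ hx
  rw [h3] at h2
  have h5 : ((lapE (fun w => φ (mo γ w)) z / 4 : ℝ) : ℂ) =
      YT.mj γ (fun _ => z) * conj (YT.mj γ (fun _ => z)) * ((lapE φ (mo γ z) / 4 : ℝ) : ℂ) := h1.symm.trans h2
  rw [Complex.mul_conj, Complex.normSq_eq_norm_sq] at h5
  have h6 : lapE (fun w => φ (mo γ w)) z / 4 = ‖YT.mj γ (fun _ => z)‖ ^ 2 * (lapE φ (mo γ z) / 4) := by
    exact_mod_cast h5
  have h7 : (mo γ z).im = z.im * ‖YT.mj γ (fun _ => z)‖ := h4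
  unfold lapH
  rw [h7]
  linear_combination (4 * z.im ^ 2) * h6

end KW
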