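import Pool.Agent.Lib.MP_464db4_gt.KW.FixB
import Pool.Agent.Lib.MP_464db4_gt.KW.IdB
import Pool.Agent.Lib.MP_464db4_gt.KW.Cas
import Pool.Agent.Lib.MP_464db4_gt.KW.Wir

/-!
# KW-Reg: the fixed point is smooth and solves the equation

* `fixed_smooth`: on `hp`, `u = (cv (kn κ) u - cv (kn ν) (e^u - f))/c`.  If `u` is `C^m` on `hp`, so is `e^u - f`, and the right side is `C^(m+1)` by `gain` (`wker`).  So `u` is `C^m` for all `m` (`contDiffOn_infty`).
* `fixed_eq`: `v = lapH u - (e^u - f)`, smooth on `hp` (`lapH_contDiffOn`).  `id1` for `u` and the fixed point equation: `cv (kn ν) (lapH u) = cv (kn κ) u - c u = cv (kn ν) (e^u - f)`, so `cv (kn ν) v = 0` on `hp`.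
  Then `cv (kn ν) (lapH v) = lapH (cv (kn ν) v) = 0` (`lapH_cv`, `lapH_congr_hp`), and `id1` for `v`: `c v = cv (kn κ) v = cv (kn κ - m kn ν) v` (`cv_comb`), the kernel `kn κ - m kn ν` is `≥ 0` with integral
  `c - m c' < c`, `v` is bounded: `|v| ≤ V` on `hp` implies `|v| ≤ θ V`, `θ = (c - m c')/c < 1` (`cv_abs_le`), so `v = 0`
  (take `V` the supremum, or iterate).
* boundedness of `v`: `v` is invariant under `S` (`lapH_mo`, `mo_contDiffOn`, the functions `w ↦ u (mo γ w)` and `u` agree on `hp`, `lapH_congr_hp`) and continuous on the compact set `K`.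
-/

namespace KW

open Complex MeasureTheory Set Filter Topology
open scoped ContDiff

variable {ν κ : ℝ → ℝ} {R C Λ m : ℝ} {f u : ℂ → ℝ} {z : ℂ}

theorem fixed_smooth (h : KPair ν κ R C Λ) (hf : ContDiffOn ℝ ∞ f hp) (hu : ContinuousOn u hp) (hfix : ∀ z ∈ hp, TT ν κ f u z = u z) :
    ContDiffOn ℝ ∞ u hp := by
  rw [contDiffOn_infty]
  intro k
  induction k with
  | zero =>
    have h0 : ContDiffOn ℝ 0 u hp := contDiffOn_zero.2 hu
    exact_mod_cast h0
  | succ k ih =>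
    have hfk : ContDiffOn ℝ (k : ℕ) f hp := contDiffOn_infty.1 hf k
    have h1 : ContDiffOn ℝ (k : ℕ) (fun w => Real.exp (u w) - f w) hp := ih.exp.sub hfk
    have h2 := gain (wker h.profK) k ih
    have h3 := gain (wker h.profN) k h1
    have h4 : ContDiffOn ℝ (k + 1 : ℕ) (TT ν κ f u) hp := by
      have h5 := (h2.sub h3).div_const (∫ w, kn κ w)
      exact h5
    exact h4.congr fun z hz => (hfix z hz).symm

private theorem Reg_lapH_zero (z : ℂ) : lapH (fun _ => (0 : ℝ)) z = 0 := by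
  have h1 : dx (fun _ : ℂ => (0 : ℝ)) = fun _ => 0 := by
    funext w
    simp [dx]
  have h2 : dy (fun _ : ℂ => (0 : ℝ)) = fun _ => 0 := by
    funext w
    simp [dy]
  unfold lapH lapE
  rw [h1, h2, h1, h2]
  ring

theorem zero_of_bdd (h : KPair ν κ R C Λ) (hm : 0 < m) (hmL : m ≤ Λ) {v : ℂ → ℝ} (hv : ContDiffOn ℝ ∞ v hp) {V : ℝ} (hV : ∀ w ∈ hp, |v w| ≤ V)
    (h0 : ∀ z ∈ hp, cv (kn ν) v z = 0) : ∀ z ∈ hp, v z = 0 := by
  have hc := massK_pos h
  have hgN := gker_kn h.profN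
  have hgK := gker_kn h.profK
  have hv2 : ContDiffOn ℝ 2 v hp := by
    have := contDiffOn_infty.1 hv 2
    exact_mod_cast this
  have hvc : ContinuousOn v hp := hv.continuousOn
  have hker : ∀ w, 0 ≤ kn κ w - m * kn ν w := by
    intro w
    by_cases hw : w ∈ hp
    · have hw' : 0 < w.im := hw
      unfold kn
      rw [ex_of_mem hw, ex_of_mem hw]
      have hq := qq_nonneg hw
      have e1 := h.le _ hq
      have e2 := h.nonneg _ hq
      have e3 : m * ν (qq w) ≤ κ (qq w) := (mul_le_mul_of_nonneg_right hmL e2).trans e1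
      have e4 : κ (qq w) / w.im ^ 2 - m * (ν (qq w) / w.im ^ 2) = (κ (qq w) - m * ν (qq w)) / w.im ^ 2 := by
        ring
      rw [e4]
      exact div_nonneg (by linarith) (by positivity)
    · unfold kn
      rw [ex_of_not_mem hw, ex_of_not_mem hw]
      simp
  have hint : ∫ w, (kn κ w - m * kn ν w) = (∫ w, kn κ w) - m * ∫ w, kn ν w := by
    rw [integral_sub hgK.int (hgN.int.const_mul m), integral_const_mul]
  have hkey : ∀ z ∈ hp, (∫ w, kn κ w) * v z = cv (fun w => kn κ w - m * kn ν w) v z := by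
    intro z hz
    have e1 := lapH_cv h.profN hv2 hz
    have e2 : lapH (cv (kn ν) v) z = 0 := by
      rw [lapH_congr_hp (ψ := fun _ => 0) h0 hz]
      exact Reg_lapH_zero z
    have e3 := id1 h hv2 hz
    rw [cv_comb hgK hgN m hvc hz, h0 z hz]
    linarith
  have hstep : ∀ M : ℝ, (∀ w ∈ hp, |v w| ≤ M) →
      ∀ z ∈ hp, |v z| ≤ (1 - m * (∫ w, kn ν w) / (∫ w, kn κ w)) * M := by
    intro M hM z hz
    have e1 := cv_abs_le (hgK.comb hgN m) hker hvc hM hz
    rw [← hkey z hz, hint, abs_mul, abs_of_pos hc] at e1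
    have e2 : (1 - m * (∫ w, kn ν w) / (∫ w, kn κ w)) * M =
        (M * ((∫ w, kn κ w) - m * ∫ w, kn ν w)) / ∫ w, kn κ w := by
      field_simp
    rw [e2, le_div_iff₀ hc]
    linarith
  obtain ⟨t0, t1⟩ := theta_bd h hm hmL
  generalize hθ : 1 - m * (∫ w, kn ν w) / (∫ w, kn κ w) = θ at *
  have hit : ∀ k : ℕ, ∀ z ∈ hp, |v z| ≤ θ ^ k * V := by
    intro k
    induction k with
    | zero =>
      intro z hz
      simpa using hV z hz
    | succ k ih =>
      intro z hz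
      have := hstep _ ih z hz
      rw [pow_succ]
      linarith
  intro z hz
  have hlim : Tendsto (fun k : ℕ => θ ^ k * V) atTop (𝓝 (0 * V)) :=
    (tendsto_pow_atTop_nhds_zero_of_lt_one t0 t1).mul_const V
  rw [zero_mul] at hlim
  have hle : |v z| ≤ 0 := ge_of_tendsto' hlim fun k => hit k z hz
  exact abs_eq_zero.1 (le_antisymm hle (abs_nonneg _))

theorem fixed_eq (h : KPair ν κ R C Λ) (hm : 0 < m) (hmL : m ≤ Λ) (hf : ContDiffOn ℝ ∞ f hp)
    (S : Set (Matrix.SpecialLinearGroup (Fin 2) ℝ)) {K : Set ℂ} (hK : IsCompact K) (hKh : K ⊆ hp) (hSK : ∀ z ∈ hp, ∃ γ ∈ S, mo γ z ∈ K)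
    (hfi : ∀ γ ∈ S, ∀ w ∈ hp, f (mo γ w) = f w) (hu : ContinuousOn u hp) (hui : ∀ γ ∈ S, ∀ w ∈ hp, u (mo γ w) = u w)
    (hfix : ∀ z ∈ hp, TT ν κ f u z = u z) : ∀ z ∈ hp, lapH u z = Real.exp (u z) - f z := by
  have hus := fixed_smooth h hf hu hfix
  have hu2 : ContDiffOn ℝ 2 u hp := by
    have := contDiffOn_infty.1 hus 2
    exact_mod_cast this
  have hls := lapH_contDiffOn hus
  have hes : ContDiffOn ℝ ∞ (fun w => Real.exp (u w) - f w) hp := hus.exp.sub hf
  have hvs : ContDiffOn ℝ ∞ (fun w => lapH u w - (Real.exp (u w) - f w)) hp := hls.sub hes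
  have hc := massK_pos h
  have hinv : ∀ γ ∈ S, ∀ w ∈ hp, (lapH u (mo γ w) - (Real.exp (u (mo γ w)) - f (mo γ w))) =
      lapH u w - (Real.exp (u w) - f w) := by
    intro γ hγ w hw
    rw [hui γ hγ w hw, hfi γ hγ w hw, ← lapH_mo γ hus hw,
      lapH_congr_hp (ψ := u) (fun w hw => hui γ hγ w hw) hw]
  obtain ⟨V, hV⟩ := hK.exists_bound_of_continuousOn (hvs.continuousOn.mono hKh)
  have hbd : ∀ w ∈ hp, |lapH u w - (Real.exp (u w) - f w)| ≤ V := by
    intro w hw
    obtain ⟨γ, hγ, hγK⟩ := hSK w hw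
    have e := hV _ hγK
    rw [Real.norm_eq_abs, hinv γ hγ w hw] at e
    exact e
  have hz0 : ∀ z ∈ hp, cv (kn ν) (fun w => lapH u w - (Real.exp (u w) - f w)) z = 0 := by
    intro z hz
    rw [cv_sub (gker_kn h.profN) hls.continuousOn hes.continuousOn hz]
    have e1 := id1 h hu2 hz
    have e2 : cv (kn ν) (lapH u) z = cv (kn ν) (fun w => lapH u w) z := rfl
    have e3 := hfix z hz
    unfold TT at e3
    rw [div_eq_iff hc.ne'] at e3
    rw [← e2, e1]
    linarith
  intro z hz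
  have e := zero_of_bdd h hm hmL hvs hbd hz0 z hz
  linarith

end KW
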