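import Pool.Agent.Lib.MP_464db4_gt.KW.Div
import Pool.Agent.Lib.MP_464db4_gt.KW.LapQ
import Pool.Agent.Lib.MP_464db4_gt.KW.PrB
import Pool.Agent.Lib.MP_464db4_gt.KW.CvD

/-!
# KW-Rot: rotations around `i`, the third Killing field

`ξ = w.re`, `η = w.im`.  The field `X = (ξ² - η² + 1) ∂_ξ + 2 ξ η ∂_η` satisfies `X qq = 0` (`dx_qq`, `dy_qq`).
* `rot_sh`: for the smooth kernel `k = kn ρ`, `ρ q = ν (q + ε)`: with `A = (ξ²-η²+1) g k`, `B = 2 ξ η g k`, `dx A + dy B = (X g) k + g (4 ξ k + X k)` and `X k = X(ρ(qq)) / η² + ρ X(η⁻²) = -4 ξ ρ/η²`, so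
  `dx A + dy B = (X g) k` on `hp`; `int_div`.
* `rot0`: let `ε = 1/(j+1) → 0`: `|(X g) k_ε| ≤ M C q^(-1/4)/m²` on `KR R` (`dx g`, `dy g` are bounded there), `tendsto_int_of_bd`.
* `L1_cv`: `g = φ ∘ aff z` (`g_ξ = y (dx φ) ∘ aff z`, `g_η = y (dy φ) ∘ aff z`, `z = x + i y`): by `dx_cv`, `L0_cv` the field `L1 = -(x²+y²) ∂_x + 2 x L0` at `z` gives
  `L1 (cv n φ) z = -(x²+y²) cv n (dx φ) z + 2 x cv n (L0 φ) z`, and pointwise, `a = aff z w = (x + y ξ) + i y η`:
  `L1 φ a + (x²+y²) dx φ a - 2 x L0 φ a = y² (ξ²-η²+1) dx φ a + 2 y² ξ η dy φ a = y (X g) w`, whose integral against `n` is zero by `rot0`.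
-/

namespace KW

open Complex MeasureTheory Set Filter Topology
open scoped ContDiff

variable {ν : ℝ → ℝ} {R C ε : ℝ} {g φ : ℂ → ℝ} {z : ℂ}

private theorem Rot_dx_mul {f h : ℂ → ℝ} {w : ℂ} (hf : DifferentiableAt ℝ f w) (hh : DifferentiableAt ℝ h w) (v : ℂ) :
    fderiv ℝ (fun w => f w * h w) w v = fderiv ℝ f w v * h w + f w * fderiv ℝ h w v := by
  have e : fderiv ℝ (fun w => f w * h w) w = f w • fderiv ℝ h w + h w • fderiv ℝ f w :=
    (hf.hasFDerivAt.mul hh.hasFDerivAt).fderiv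
  rw [e]
  simp only [ContinuousLinearMap.add_apply, ContinuousLinearMap.smul_apply, smul_eq_mul]
  ring

private theorem Rot_p (w : ℂ) : HasFDerivAt (fun w : ℂ => w.re ^ 2 - w.im ^ 2 + 1)
    ((2 * w.re) • reCLM - (2 * w.im) • imCLM) w := by
  have h1 : HasFDerivAt (fun w : ℂ => w.re) reCLM w := reCLM.hasFDerivAt
  have h2 : HasFDerivAt (fun w : ℂ => w.im) imCLM w := imCLM.hasFDerivAt
  have h3 : HasFDerivAt (fun w : ℂ => w.re * w.re - w.im * w.im + 1)
      ((w.re • reCLM + w.re • reCLM) - (w.im • imCLM + w.im • imCLM)) w :=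
    ((h1.mul h1).sub (h2.mul h2)).add_const (1 : ℝ)
  have h4 : (fun w : ℂ => w.re ^ 2 - w.im ^ 2 + 1) = fun w : ℂ => w.re * w.re - w.im * w.im + 1 := by
    funext z
    ring
  have h5 : ((2 * w.re) • reCLM - (2 * w.im) • imCLM : ℂ →L[ℝ] ℝ) =
      (w.re • reCLM + w.re • reCLM) - (w.im • imCLM + w.im • imCLM) := by
    rw [two_mul, two_mul, add_smul, add_smul]
  rw [h4, h5]
  exact h3

private theorem Rot_p' (w : ℂ) : HasFDerivAt (fun w : ℂ => 2 * w.re * w.im)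
    ((2 * w.im) • reCLM + (2 * w.re) • imCLM) w := by
  have h1 : HasFDerivAt (fun w : ℂ => w.re) reCLM w := reCLM.hasFDerivAt
  have h2 : HasFDerivAt (fun w : ℂ => w.im) imCLM w := imCLM.hasFDerivAt
  have h3 : HasFDerivAt (fun w : ℂ => 2 * (w.re * w.im)) ((2 : ℝ) • (w.re • imCLM + w.im • reCLM)) w :=
    (h1.mul h2).const_mul (2 : ℝ)
  have h4 : (fun w : ℂ => 2 * w.re * w.im) = fun w : ℂ => 2 * (w.re * w.im) := by
    funext z
    ring
  have h5 : ((2 * w.im) • reCLM + (2 * w.re) • imCLM : ℂ →L[ℝ] ℝ) =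
      (2 : ℝ) • (w.re • imCLM + w.im • reCLM) := by
    rw [smul_add, smul_smul, smul_smul, add_comm]
  rw [h4, h5]
  exact h3

private theorem Rot_pC : ContDiff ℝ 1 (fun w : ℂ => w.re ^ 2 - w.im ^ 2 + 1) :=
  ((reCLM.contDiff.pow 2).sub (imCLM.contDiff.pow 2)).add contDiff_const

private theorem Rot_pC' : ContDiff ℝ 1 (fun w : ℂ => 2 * w.re * w.im) :=
  (contDiff_const.mul reCLM.contDiff).mul imCLM.contDiff

/-- The derivatives of the smoothed kernel. -/
private theorem Rot_dk (hν : Prof ν R C) (hε : 0 < ε) {w : ℂ} (hw : w ∈ hp) :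
    dx (sh ν ε) w = deriv ν (qq w + ε) * dx qq w / w.im ^ 2 ∧
      dy (sh ν ε) w = deriv ν (qq w + ε) * dy qq w / w.im ^ 2 - 2 * sh ν ε w / w.im := by
  have hi : 0 < w.im := hw
  have h1 : dx (sh ν ε) w = deriv ν (qq w + ε) * dx qq w / w.im ^ 2 := kA_sh hν hε hw
  have h2 : 2 * sh ν ε w + fderiv ℝ (sh ν ε) w w = deriv ν (qq w + ε) * L0 qq w / w.im ^ 2 := kE_sh hν hε hw
  have h3 : fderiv ℝ (sh ν ε) w w = w.re * dx (sh ν ε) w + w.im * dy (sh ν ε) w := by
    have e1 : fderiv ℝ (sh ν ε) w w = fderiv ℝ (sh ν ε) w (w.re • (1 : ℂ) + w.im • I) := by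
      congr 1
      apply Complex.ext <;> simp
    rw [e1, map_add, map_smul, map_smul]
    rfl
  refine ⟨h1, ?_⟩
  have h4 : w.im * dy (sh ν ε) w = deriv ν (qq w + ε) * L0 qq w / w.im ^ 2 - 2 * sh ν ε w -
      w.re * (deriv ν (qq w + ε) * dx qq w / w.im ^ 2) := by
    rw [← h1]
    linarith
  have h5 : dy (sh ν ε) w = (deriv ν (qq w + ε) * L0 qq w / w.im ^ 2 - 2 * sh ν ε w -
      w.re * (deriv ν (qq w + ε) * dx qq w / w.im ^ 2)) / w.im := by
    rw [← h4]
    field_simp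
  rw [h5]
  unfold L0
  field_simp
  ring

theorem rot_sh (hν : Prof ν R C) (hε : 0 < ε) (hg : ContDiffOn ℝ 1 g hp) :
    ∫ w, ((w.re ^ 2 - w.im ^ 2 + 1) * dx g w + 2 * w.re * w.im * dy g w) * sh ν ε w = 0 := by
  have hR := hν.R_pos.le
  have hk := sh_contDiff hν hε
  have hk0 : ∀ w ∉ KR R, sh ν ε w = 0 := fun w hw => sh_zero hν hε hw
  have hgk : ContDiffOn ℝ 1 (fun w => g w * sh ν ε w) hp := hg.mul hk.contDiffOn
  have hA : ContDiffOn ℝ 1 (fun w : ℂ => (w.re ^ 2 - w.im ^ 2 + 1) * (g w * sh ν ε w)) hp :=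
    Rot_pC.contDiffOn.mul hgk
  have hB : ContDiffOn ℝ 1 (fun w : ℂ => (2 * w.re * w.im) * (g w * sh ν ε w)) hp :=
    Rot_pC'.contDiffOn.mul hgk
  have h := int_div hR hA hB (fun w _ hw => by simp only [hk0 w hw, mul_zero])
    (fun w _ hw => by simp only [hk0 w hw, mul_zero])
  rw [← h]
  congr 1
  funext w
  by_cases hw : w ∈ hp
  · rw [ex_of_mem hw]
    have hi : 0 < w.im := hw
    have dg : DifferentiableAt ℝ g w :=
      (hg.differentiableOn one_ne_zero).differentiableAt (isOpen_hp.mem_nhds hw)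
    have dk : DifferentiableAt ℝ (sh ν ε) w := (hk.differentiable one_ne_zero).differentiableAt
    have dgk : DifferentiableAt ℝ (fun w => g w * sh ν ε w) w := dg.mul dk
    obtain ⟨k1, k2⟩ := Rot_dk hν hε hw
    have e1 : dx (fun w : ℂ => (w.re ^ 2 - w.im ^ 2 + 1) * (g w * sh ν ε w)) w =
        2 * w.re * (g w * sh ν ε w) + (w.re ^ 2 - w.im ^ 2 + 1) * (dx g w * sh ν ε w + g w * dx (sh ν ε) w) := by
      have a1 := Rot_dx_mul (Rot_p w).differentiableAt dgk 1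
      have a2 := Rot_dx_mul dg dk 1
      have a3 : fderiv ℝ (fun w : ℂ => w.re ^ 2 - w.im ^ 2 + 1) w 1 = 2 * w.re := by
        rw [(Rot_p w).fderiv]
        simp
      unfold dx
      rw [a1, a2, a3]
    have e2 : dy (fun w : ℂ => (2 * w.re * w.im) * (g w * sh ν ε w)) w =
        2 * w.re * (g w * sh ν ε w) + (2 * w.re * w.im) * (dy g w * sh ν ε w + g w * dy (sh ν ε) w) := by
      have a1 := Rot_dx_mul (Rot_p' w).differentiableAt dgk I
      have a2 := Rot_dx_mul dg dk I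
      have a3 : fderiv ℝ (fun w : ℂ => 2 * w.re * w.im) w I = 2 * w.re := by
        rw [(Rot_p' w).fderiv]
        simp
      unfold dy
      rw [a1, a2, a3]
    rw [e1, e2, k1, k2, dx_qq hw, dy_qq hw]
    field_simp
    ring
  · rw [ex_of_not_mem hw]
    have hz : sh ν ε w = 0 := hk0 w fun h => hw (KR_sub hR h)
    rw [hz, mul_zero]

private theorem Rot_X_cont (hg : ContDiffOn ℝ 1 g hp) :
    ContinuousOn (fun w : ℂ => (w.re ^ 2 - w.im ^ 2 + 1) * dx g w + 2 * w.re * w.im * dy g w) hp :=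
  (Rot_pC.continuous.continuousOn.mul (dx_contOn hg)).add (Rot_pC'.continuous.continuousOn.mul (dy_contOn hg))

theorem rot0 (hν : Prof ν R C) (hg : ContDiffOn ℝ 1 g hp) :
    ∫ w, ((w.re ^ 2 - w.im ^ 2 + 1) * dx g w + 2 * w.re * w.im * dy g w) * kn ν w = 0 := by
  have hR := hν.R_pos.le
  have hC := hν.C_pos
  obtain ⟨m, hm, hmb⟩ := im_bd hR
  obtain ⟨M, hM⟩ := (isCompact_KR R).exists_bound_of_continuousOn ((Rot_X_cont hg).mono (KR_sub hR))
  have hM0 : 0 ≤ M := (norm_nonneg _).trans (hM I (I_mem_KR hR))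
  have hpos : ∀ j : ℕ, (0 : ℝ) < 1 / ((j : ℝ) + 1) := fun j => by positivity
  have h := tendsto_int_of_bd (s := 1 / 4) (C := M * (C / m ^ 2))
    (n := fun w => ((w.re ^ 2 - w.im ^ 2 + 1) * dx g w + 2 * w.re * w.im * dy g w) * kn ν w)
    (N := fun (j : ℕ) w => ((w.re ^ 2 - w.im ^ 2 + 1) * dx g w + 2 * w.re * w.im * dy g w) *
      sh ν (1 / ((j : ℝ) + 1)) w) hR (by norm_num) (by norm_num)
    (fun j => (integrable_of_contOn hR ((Rot_X_cont hg).mul (sh_contDiff hν (hpos j)).continuous.continuousOn)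
      (fun w hw => by
        change _ * sh ν (1 / ((j : ℝ) + 1)) w = 0
        rw [sh_zero hν (hpos j) hw, mul_zero])).aestronglyMeasurable)
    (fun j w hw => by simp only [sh_zero hν (hpos j) hw, mul_zero])
    (fun w hw => by simp only [kn_zero hR hν.zero hw, mul_zero])
    (fun j w hw hwI => by
      have hwh : w ∈ hp := KR_sub hR hw
      have hq : 0 < qq w := qq_pos hwh hwI
      obtain ⟨him, -⟩ := hmb w hw
      have hm2 : m ^ 2 ≤ w.im ^ 2 := pow_le_pow_left₀ hm.le him 2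
      have hm20 : 0 < m ^ 2 := by positivity
      have e1 : sh ν (1 / ((j : ℝ) + 1)) w = ν (qq w + 1 / ((j : ℝ) + 1)) / w.im ^ 2 := kn_eq hwh
      have e2 : |ν (qq w + 1 / ((j : ℝ) + 1))| ≤ C * qq w ^ (-(1 / 4) : ℝ) :=
        (hν.bd _ (by have := hpos j; linarith)).trans (mul_le_mul_of_nonneg_left
          (Real.rpow_le_rpow_of_nonpos hq (by have := hpos j; linarith) (by norm_num)) hC.le)
      have hp1 : 0 < qq w ^ (-(1 / 4) : ℝ) := Real.rpow_pos_of_pos hq _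
      have e3 : |sh ν (1 / ((j : ℝ) + 1)) w| ≤ (C / m ^ 2) * qq w ^ (-(1 / 4) : ℝ) := by
        rw [e1, abs_div, abs_of_pos (hm20.trans_le hm2)]
        calc |ν (qq w + 1 / ((j : ℝ) + 1))| / w.im ^ 2 ≤ (C * qq w ^ (-(1 / 4) : ℝ)) / m ^ 2 :=
              div_le_div₀ (by positivity) e2 hm20 hm2
          _ = _ := by ring
      have e4 := hM w hw
      rw [Real.norm_eq_abs] at e4
      rw [abs_mul]
      calc _ ≤ M * ((C / m ^ 2) * qq w ^ (-(1 / 4) : ℝ)) := mul_le_mul e4 e3 (abs_nonneg _) hM0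
        _ = _ := by ring)
    (fun w hw hwI => by
      have hwh : w ∈ hp := KR_sub hR hw
      have hq : 0 < qq w := qq_pos hwh hwI
      have hc : ContinuousAt ν (qq w) := hν.smooth.continuousOn.continuousAt (Ioi_mem_nhds hq)
      have h1 : (fun j : ℕ => sh ν (1 / ((j : ℝ) + 1)) w) =
          fun j : ℕ => ν (qq w + 1 / ((j : ℝ) + 1)) / w.im ^ 2 := by
        funext j
        exact kn_eq hwh
      have hlim : Tendsto (fun j : ℕ => qq w + 1 / ((j : ℝ) + 1)) atTop (𝓝 (qq w)) := by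
        have h := (tendsto_const_nhds (x := qq w)).add (tendsto_one_div_add_atTop_nhds_zero_nat (𝕜 := ℝ))
        simpa using h
      refine Tendsto.const_mul _ ?_
      rw [h1, kn_eq hwh]
      exact (hc.tendsto.comp hlim).div_const _)
  have h2 := h.2.1
  have h3 : (fun j : ℕ => ∫ w, ((w.re ^ 2 - w.im ^ 2 + 1) * dx g w + 2 * w.re * w.im * dy g w) *
      sh ν (1 / ((j : ℝ) + 1)) w) = fun _ => (0 : ℝ) := by
    funext j
    exact rot_sh hν (hpos j) hg
  rw [h3] at h2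
  exact tendsto_nhds_unique h2 tendsto_const_nhds

/-- The derivative of `φ ∘ aff z`. -/
private theorem Rot_aff {z w : ℂ} (hφ : ContDiffOn ℝ 1 φ hp) (hz : z ∈ hp) (hw : w ∈ hp) (v : ℂ) :
    fderiv ℝ (fun w => φ (aff z w)) w v = z.im * fderiv ℝ φ (aff z w) v := by
  have h1 : DifferentiableAt ℝ φ (aff z w) :=
    ((hφ.differentiableOn one_ne_zero) _ (aff_mem hz hw)).differentiableAt (isOpen_hp.mem_nhds (aff_mem hz hw))
  have h2 : HasFDerivAt (fun w => aff z w) (z.im • ContinuousLinearMap.id ℝ ℂ) w := by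
    have h3 := ((ContinuousLinearMap.id ℝ ℂ).hasFDerivAt (x := w)).const_smul z.im
    have h4 := h3.const_add (z.re : ℂ)
    have h5 : (fun w => aff z w) = fun w => (z.re : ℂ) + z.im • (ContinuousLinearMap.id ℝ ℂ) w := by
      funext w
      simp [aff]
    rw [h5]
    exact h4
  have h3 : HasFDerivAt (fun w => φ (aff z w)) ((fderiv ℝ φ (aff z w)).comp (z.im • ContinuousLinearMap.id ℝ ℂ)) w :=
    HasFDerivAt.comp w h1.hasFDerivAt h2
  rw [h3.fderiv]
  simp

theorem L1_cv (hν : Prof ν R C) (hφ : ContDiffOn ℝ 1 φ hp) (hz : z ∈ hp) : L1 (cv (kn ν) φ) z = cv (kn ν) (L1 φ) z := by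
  have hn := gker_kn hν
  have hy : 0 < z.im := hz
  have hR := hν.R_pos.le
  have hg : ContDiffOn ℝ 1 (fun w => φ (aff z w)) hp := by
    have h1 : ContDiff ℝ 1 (fun w => aff z w) := by
      unfold aff
      exact contDiff_const.add (contDiff_const.mul contDiff_id)
    exact hφ.comp h1.contDiffOn fun w hw => aff_mem hz hw
  have h0 := rot0 hν hg
  have i1 := cv_integrable hn (L1_contOn hφ) hz
  have i2 := cv_integrable hn (dx_contOn hφ) hz
  have i3 := cv_integrable hn (L0_contOn hφ) hz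
  have key : ∀ w, z.im * (((w.re ^ 2 - w.im ^ 2 + 1) * dx (fun w => φ (aff z w)) w +
      2 * w.re * w.im * dy (fun w => φ (aff z w)) w) * kn ν w) =
      (L1 φ (aff z w) * kn ν w + (z.re ^ 2 + z.im ^ 2) * (dx φ (aff z w) * kn ν w)) -
        2 * z.re * (L0 φ (aff z w) * kn ν w) := by
    intro w
    by_cases hw : w ∈ hp
    · have e1 : dx (fun w => φ (aff z w)) w = z.im * dx φ (aff z w) := Rot_aff hφ hz hw 1
      have e2 : dy (fun w => φ (aff z w)) w = z.im * dy φ (aff z w) := Rot_aff hφ hz hw I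
      rw [e1, e2]
      unfold L1 L0
      rw [aff_re, aff_im]
      ring
    · have hk : kn ν w = 0 := kn_zero hR hν.zero fun h => hw (KR_sub hR h)
      rw [hk]
      ring
  have h1 : ∫ w, ((L1 φ (aff z w) * kn ν w + (z.re ^ 2 + z.im ^ 2) * (dx φ (aff z w) * kn ν w)) -
        2 * z.re * (L0 φ (aff z w) * kn ν w)) = 0 := by
    rw [← integral_congr_ae (Eventually.of_forall key), integral_const_mul, h0, mul_zero]
  have i2' := i2.const_mul (z.re ^ 2 + z.im ^ 2)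
  have i12 : Integrable (fun w => L1 φ (aff z w) * kn ν w + (z.re ^ 2 + z.im ^ 2) * (dx φ (aff z w) * kn ν w)) :=
    i1.add i2'
  rw [integral_sub i12 (i3.const_mul _), integral_add i1 i2', integral_const_mul, integral_const_mul] at h1
  have h2 : L1 (cv (kn ν) φ) z = (z.re ^ 2 - z.im ^ 2) * dx (cv (kn ν) φ) z + 2 * z.re * z.im * dy (cv (kn ν) φ) z := rfl
  have h3 : 2 * z.re * z.im * (z.im⁻¹ * (cv (kn ν) (L0 φ) z - z.re * cv (kn ν) (dx φ) z)) =
      2 * z.re * (cv (kn ν) (L0 φ) z - z.re * cv (kn ν) (dx φ) z) := by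
    field_simp
  rw [h2, dx_cv hn hφ hz, dy_cv hn hφ hz, h3]
  unfold cv
  linarith

end KW
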